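import Pool.Agent.SFS.Stmts

/-!
# SFS, module CHS: solutions supported on `w = 0`, in a chart
-/

set_option autoImplicit false

namespace Pool.Agent.SFS

open scoped Classical

open Pool.Agent.SFB

namespace CHS_

theorem tws_zero {Ω : Type} [Field Ω] {s : XV.Pt → Ω} (hw : ∀ c, 1 ≤ c.w → s c = 0)
    (π : Equiv.Perm (Fin 5)) (c : XV.Pt) (hc : 1 ≤ c.w) : XV.tws π s c = 0 := by
  unfold XV.tws
  rw [hw (XV.act π c) hc, mul_zero]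

theorem tw_pos : ∀ σ : Fin 6, σ ≠ 0 → 1 ≤ XV.tw σ 0 := by decide

theorem nu0 (c : XV.Pt) : XV.nu 0 0 c = c.e 6 := by
  unfold XV.nu
  rw [Fin.sum_univ_three]
  simp [XV.kU, XV.te, XV.tX]

theorem nu1 (c : XV.Pt) : XV.nu 0 1 c = c.e 8 := by
  unfold XV.nu
  rw [Fin.sum_univ_three]
  simp [XV.kU, XV.te, XV.tX]

theorem nu2 (c : XV.Pt) (hc : c.w = 0) : XV.nu 0 2 c = c.e 4 - 2 := by
  unfold XV.nu
  rw [Fin.sum_univ_three]
  simp [XV.kU, XV.te, XV.tX, XV.elc, XV.el, hc]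

theorem hx0 {Ω : Type} [Field Ω] (X : Fin 3 → Ω) : XV.hx 0 X = X 0 := by
  unfold XV.hx
  rw [Fin.prod_univ_three]
  simp [XV.rx]

theorem hy0 {Ω : Type} [Field Ω] (X : Fin 3 → Ω) : XV.hy 0 X = X 1 := by
  unfold XV.hy
  rw [Fin.prod_univ_three]
  simp [XV.ry]

end CHS_

open CHS_ in
theorem chs_proof (hSym : XV.Stmt_Sym) (hCov : XV.Stmt_Cov) (hChv : XV.Stmt_Chv)
    (hChr : XV.Stmt_Chr) : Stmt_CHS := by
  intro Ω _ s hs hw hne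
  obtain ⟨π, σ, h0, hU⟩ := hCov Ω s hs hne
  have hσ : σ = 0 := by
    by_contra hcon
    exact h0 (tws_zero hw π _ (tw_pos σ hcon))
  subst hσ
  have hs' := hSym Ω s π hs
  set t : XV.Pt → Ω := XV.tws π s with ht
  have h3 : t (XV.tp 0 3) = 0 := tws_zero hw π _ (by decide)
  let Z : Ωˣ := Units.mk0 _ h0
  have hZ : t (XV.tp 0 0) = Z := rfl
  let X : Fin 3 → Ω := fun l => ((Z⁻¹ : Ωˣ) : Ω) * t (XV.tp 0 (XV.tX l))
  have hX : ∀ l, t (XV.tp 0 (XV.tX l)) = Z * X l := fun l => by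
    change _ = (Z : Ω) * (((Z⁻¹ : Ωˣ) : Ω) * t (XV.tp 0 (XV.tX l)))
    rw [← mul_assoc, Units.mul_inv, one_mul]
  obtain ⟨r7, r8, r9⟩ := hChr Ω t hs' 0 Z X hZ hX
  rw [hx0] at r7 r9
  rw [hy0] at r8 r9
  have hZ0 : (Z : Ω) ≠ 0 := Z.ne_zero
  have u7 : 1 + X 0 ≠ 0 := by
    have := hU 0
    change t (XV.tp 0 7) ≠ 0 at this
    rw [r7] at this
    exact right_ne_zero_of_mul this
  have u8 : 1 + X 1 ≠ 0 := by
    have := hU 1
    change t (XV.tp 0 8) ≠ 0 at this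
    rw [r8] at this
    exact right_ne_zero_of_mul this
  have u9 : 1 - X 0 * X 1 ≠ 0 := by
    have := hU 2
    change t (XV.tp 0 9) ≠ 0 at this
    rw [r9] at this
    exact right_ne_zero_of_mul this
  let U : Fin 3 → Ωˣ := ![Units.mk0 _ u7, Units.mk0 _ u8, Units.mk0 _ u9]
  have hUU : ∀ j, t (XV.tp 0 (XV.tU j)) = Z * U j := by
    intro j
    fin_cases j
    · exact r7
    · exact r8
    · exact r9
  refine ⟨π, (Z : Ω) * ((1 - X 0 * X 1) ^ 2)⁻¹, X 0, X 1,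
    mul_ne_zero hZ0 (inv_ne_zero (pow_ne_zero 2 u9)), u7, u8, u9, fun c hc => ?_⟩
  have hv := hChv Ω t hs' 0 Z U hZ hUU c
  have e1 : (∏ l, (((Z⁻¹ : Ωˣ) : Ω) * t (XV.tp 0 (XV.tX l))) ^ XV.elc 0 l c) =
      X 0 ^ c.e 0 * X 1 ^ c.e 7 := by
    rw [Fin.prod_univ_three]
    have a0 : XV.elc 0 0 c = c.e 0 := rfl
    have a1 : XV.elc 0 1 c = c.e 7 := rfl
    have a2 : XV.elc 0 2 c = 0 := hc
    rw [a0, a1, a2, pow_zero, mul_one]
  have e2 : ((∏ j, U j ^ XV.nu 0 j c : Ωˣ) : Ω) =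
      (1 + X 0) ^ c.e 6 * (1 + X 1) ^ c.e 8 * ((1 - X 0 * X 1) ^ c.e 4 *
        ((1 - X 0 * X 1) ^ 2)⁻¹) := by
    rw [Fin.prod_univ_three, nu0, nu1, nu2 c hc, Units.val_mul, Units.val_mul,
      Units.val_zpow_eq_zpow_val, Units.val_zpow_eq_zpow_val, Units.val_zpow_eq_zpow_val]
    change (1 + X 0) ^ (c.e 6 : ℤ) * (1 + X 1) ^ (c.e 8 : ℤ) *
      (1 - X 0 * X 1) ^ ((c.e 4 : ℤ) - 2) = _
    have e3 : (1 - X 0 * X 1) ^ (2 : ℤ) = (1 - X 0 * X 1) ^ 2 := zpow_natCast _ 2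
    rw [zpow_natCast, zpow_natCast, zpow_sub₀ u9, zpow_natCast, div_eq_mul_inv, e3]
  change t c = _
  rw [hv, e1, e2]
  ring

end Pool.Agent.SFS
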