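import Pool.Agent.SFS.Stmts

set_option autoImplicit false

noncomputable section

namespace Pool.Agent.SFS

open scoped Classical
open Pool.Agent.SFB

namespace CRV_

variable {Ω : Type} [Field Ω]

theorem u1_val {V : ValuationSubring Ω} {z : Ω} (h : z - 1 ∈ V.nonunits) : V.valuation z = 1 := by
  rw [ValuationSubring.mem_nonunits_iff] at h
  have h1 : z = 1 + (z - 1) := by ring
  rw [h1]
  exact V.valuation.map_one_add_of_lt h

theorem u1_mul {V : ValuationSubring Ω} {z w : Ω} (h : z - 1 ∈ V.nonunits)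
    (h' : w - 1 ∈ V.nonunits) : z * w - 1 ∈ V.nonunits := by
  have hz := u1_val h
  rw [ValuationSubring.mem_nonunits_iff] at h h' ⊢
  have h1 : z * w - 1 = z * (w - 1) + (z - 1) := by ring
  rw [h1]
  refine V.valuation.map_add_lt ?_ h
  rw [map_mul, hz, one_mul]
  exact h'

theorem u1_inv {V : ValuationSubring Ω} {z : Ω} (h : z - 1 ∈ V.nonunits) :
    z⁻¹ - 1 ∈ V.nonunits := by
  have hz := u1_val h
  have hz0 : z ≠ 0 := by
    rintro rfl
    rw [map_zero] at hz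
    exact zero_ne_one hz
  rw [ValuationSubring.mem_nonunits_iff] at h ⊢
  have h1 : z⁻¹ - 1 = -(z⁻¹ * (z - 1)) := by
    field_simp
    ring
  rw [h1, Valuation.map_neg, map_mul, map_inv₀, hz, inv_one, one_mul]
  exact h

theorem u1_one {V : ValuationSubring Ω} : (1 : Ω) - 1 ∈ V.nonunits := by
  rw [ValuationSubring.mem_nonunits_iff, sub_self, map_zero]
  exact zero_lt_one

theorem u1_pow {V : ValuationSubring Ω} {z : Ω} (h : z - 1 ∈ V.nonunits) (n : ℕ) :
    z ^ n - 1 ∈ V.nonunits := by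
  induction n with
  | zero => rw [pow_zero]; exact u1_one
  | succ n ih => rw [pow_succ]; exact u1_mul ih h

theorem nu {V : ValuationSubring Ω} {x : Ω} (h : x⁻¹ ∉ V) : x ∈ V.nonunits := by
  rw [ValuationSubring.mem_nonunits_iff]
  rw [← V.valuation_le_one_iff, map_inv₀, not_le] at h
  by_contra h1
  rw [not_lt] at h1
  exact absurd (inv_le_one_of_one_le₀ h1) (not_le.2 h)

end CRV_

open CRV_ in
theorem crv_proof (hPLB : Stmt_PLB) (hLOC : Stmt_LOC) (hTNF : Stmt_TNF) (hTPC : Stmt_TPC)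
    (hONC : Stmt_ONC) : SFB.Stmt_CRV := by
  intro k Ω _ _ _ _ u v huv V hV i j hj hij hi
  have hpk := pk_ne huv
  obtain ⟨π, hch⟩ := hTNF Ω u v hpk V
  obtain ⟨hplk, hbk, hmP, hmon, -, -⟩ := hPLB Ω u v π
  have hsxy : (sx (bk u v π))⁻¹ ∉ V ∧ (sy (bk u v π))⁻¹ ∉ V := by
    have hi' := (hONC Ω u v hpk V π hch i).1 hi
    have hj' := (hONC Ω u v hpk V π hch j).1 hj
    rcases hi' with ⟨hi1, hi2⟩ | ⟨hi1, hi2⟩ <;> rcases hj' with ⟨hj1, hj2⟩ | ⟨hj1, hj2⟩
    · exact absurd (hi1.trans hj1.symm) hij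
    · exact ⟨hi2, hj2⟩
    · exact ⟨hj2, hi2⟩
    · exact absurd (hi1.trans hj1.symm) hij
  obtain ⟨hsx, hsy⟩ := hsxy
  have nx := nu hsx
  have ny := nu hsy
  have hP : ∀ κ, bk u v π κ ≠ 0 := by
    intro κ
    rcases hbk κ with h | h
    · rw [h]; exact hpk _
    · rw [h]; exact neg_ne_zero.2 (hpk _)
  obtain ⟨d, e, e', hd, he, he', htr⟩ := hV.tr
  obtain ⟨hme, h0, h7⟩ := (hTPC Ω u v hpk V π hch d hd e).1 he
  have h0' : e (XV.pe π 0) = 0 := h0.resolve_right hsx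
  have h7' : e (XV.pe π 7) = 0 := h7.resolve_right hsy
  obtain ⟨C, hC, hloc⟩ := hLOC Ω (bk u v π) hplk hP (fun i => d (π i))
  have l1 := hloc _ ((hmon d e).1 hme)
  have l2 := hloc _ ((hmon d e').1 he')
  simp only [h0', h7', pow_zero, mul_one] at l1
  have ux : (1 + sx (bk u v π)) - 1 ∈ V.nonunits := by
    rw [add_sub_cancel_left]; exact nx
  have uy : (1 + sy (bk u v π)) - 1 ∈ V.nonunits := by
    rw [add_sub_cancel_left]; exact ny
  have uxy : (1 - sx (bk u v π) * sy (bk u v π)) - 1 ∈ V.nonunits := by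
    rw [ValuationSubring.mem_nonunits_iff] at nx ny ⊢
    rw [sub_sub_cancel_left, Valuation.map_neg, map_mul]
    exact mul_lt_one_of_nonneg_of_lt_one_left zero_le' nx ny.le
  have hne : ∀ {z : Ω}, z - 1 ∈ V.nonunits → z ≠ 0 := by
    rintro z hz rfl
    have := u1_val hz
    rw [map_zero] at this
    exact zero_ne_one this
  -- the ratio
  obtain ⟨t, ht, hr⟩ : ∃ t, t - 1 ∈ V.nonunits ∧
      mP (bk u v π) (fun κ => e' (XV.pe π κ)) / mP (bk u v π) (fun κ => e (XV.pe π κ)) =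
        sx (bk u v π) ^ e' (XV.pe π 0) * sy (bk u v π) ^ e' (XV.pe π 7) * t := by
    refine ⟨((1 + sx (bk u v π)) ^ e' (XV.pe π 6) * (1 + sy (bk u v π)) ^ e' (XV.pe π 8) *
      (1 - sx (bk u v π) * sy (bk u v π)) ^ e' (XV.pe π 4)) *
      ((1 + sx (bk u v π)) ^ e (XV.pe π 6) * (1 + sy (bk u v π)) ^ e (XV.pe π 8) *
      (1 - sx (bk u v π) * sy (bk u v π)) ^ e (XV.pe π 4))⁻¹, ?_, ?_⟩
    · exact u1_mul (u1_mul (u1_mul (u1_pow ux _) (u1_pow uy _)) (u1_pow uxy _))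
        (u1_inv (u1_mul (u1_mul (u1_pow ux _) (u1_pow uy _)) (u1_pow uxy _)))
    · rw [l1, l2]
      have a1 := pow_ne_zero (e (XV.pe π 6)) (hne ux)
      have a2 := pow_ne_zero (e (XV.pe π 8)) (hne uy)
      have a3 := pow_ne_zero (e (XV.pe π 4)) (hne uxy)
      field_simp
  -- sign
  obtain ⟨s, hs, hr2⟩ : ∃ s : k, (s = 1 ∨ s = -1) ∧ mo u v e' / mo u v e = algebraMap k Ω s *
      (sx (bk u v π) ^ e' (XV.pe π 0) * sy (bk u v π) ^ e' (XV.pe π 7) * t) := by
    rcases hmP e with h1 | h1 <;> rcases hmP e' with h2 | h2 <;> rw [h1, h2] at hr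
    · exact ⟨1, Or.inl rfl, by rw [map_one, one_mul]; exact hr⟩
    · exact ⟨-1, Or.inr rfl, by rw [map_neg, map_one, ← hr]; ring⟩
    · exact ⟨-1, Or.inr rfl, by rw [map_neg, map_one, ← hr]; ring⟩
    · exact ⟨1, Or.inl rfl, by rw [map_one, one_mul, ← hr]; ring⟩
  have hs1 : V.valuation (algebraMap k Ω s) = 1 := by
    rcases hs with rfl | rfl
    · simp
    · simp
  by_cases hc : e' (XV.pe π 0) = 0 ∧ e' (XV.pe π 7) = 0
  · apply htr s
    rw [hr2, hc.1, hc.2, pow_zero, pow_zero, one_mul, one_mul]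
    have h3 : algebraMap k Ω s * t - algebraMap k Ω s = algebraMap k Ω s * (t - 1) := by ring
    rw [h3]
    rw [ValuationSubring.mem_nonunits_iff] at ht ⊢
    rw [map_mul, hs1, one_mul]
    exact ht
  · apply htr 0
    rw [map_zero, sub_zero, hr2]
    have ht1 := u1_val ht
    rw [ValuationSubring.mem_nonunits_iff] at nx ny ⊢
    rw [map_mul, map_mul, map_mul, hs1, ht1, one_mul, mul_one, map_pow, map_pow]
    by_cases h3 : e' (XV.pe π 0) = 0
    · have h4 : e' (XV.pe π 7) ≠ 0 := fun h => hc ⟨h3, h⟩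
      rw [h3, pow_zero, one_mul]
      exact pow_lt_one₀ zero_le' ny h4
    · have h5 := pow_lt_one₀ zero_le' nx h3
      exact mul_lt_one_of_nonneg_of_lt_one_left zero_le' h5 (pow_le_one₀ zero_le' ny.le)

end Pool.Agent.SFS
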