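import Pool.Agent.SFS.Stmts

set_option autoImplicit false

noncomputable section

namespace Pool.Agent.SFS

open scoped Classical
open Pool.Agent.SFB

namespace CTR_

section pu

variable {Ω : Type} [Field Ω] (V : ValuationSubring Ω)

/-- principal units -/
def PU (x : Ω) : Prop := V.valuation (x - 1) < 1

variable {V}

theorem PU.val {x : Ω} (h : PU V x) : V.valuation x = 1 := by
  have h1 : x = (x - 1) + 1 := by ring
  rw [h1, Valuation.map_add_eq_of_lt_right V.valuation (by rw [map_one]; exact h), map_one]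

theorem PU.ne {x : Ω} (h : PU V x) : x ≠ 0 := by
  rintro rfl
  have := h.val
  rw [map_zero] at this
  exact zero_ne_one this

theorem pu_one : PU V 1 := by
  unfold PU
  rw [sub_self, map_zero]
  exact zero_lt_one

theorem PU.mul {x y : Ω} (hx : PU V x) (hy : PU V y) : PU V (x * y) := by
  have h : x * y - 1 = (x - 1) * y + (y - 1) := by ring
  unfold PU
  rw [h]
  refine Valuation.map_add_lt _ ?_ hy
  rw [map_mul, hy.val, mul_one]
  exact hx

theorem PU.inv {x : Ω} (hx : PU V x) : PU V x⁻¹ := by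
  have h : x⁻¹ - 1 = -((x - 1) * x⁻¹) := by
    rw [sub_mul, mul_inv_cancel₀ hx.ne]; ring
  unfold PU
  rw [h, Valuation.map_neg, map_mul, map_inv₀, hx.val, inv_one, mul_one]
  exact hx

theorem PU.pow {x : Ω} (hx : PU V x) (n : ℕ) : PU V (x ^ n) := by
  induction n with
  | zero => rw [pow_zero]; exact pu_one
  | succ n ih => rw [pow_succ]; exact ih.mul hx

theorem val_unit {x : Ω} (h1 : x ∈ V) (h2 : x⁻¹ ∈ V) (h0 : x ≠ 0) : V.valuation x = 1 := by
  refine le_antisymm ((V.valuation_le_one_iff x).2 h1) ?_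
  have h := (V.valuation_le_one_iff x⁻¹).2 h2
  rw [map_inv₀] at h
  have h0' : V.valuation x ≠ 0 := (Valuation.ne_zero_iff _).2 h0
  exact (inv_le_one₀ (zero_lt_iff.2 h0')).1 h

end pu

section main

variable {Ω : Type} [Field Ω] {V : ValuationSubring Ω}

/-- The local form. -/
def ML (C σ τ : Ω) (e : Fin 10 → ℕ) : Ω :=
  C * σ ^ e 0 * τ ^ e 7 * (1 + σ) ^ e 6 * (1 + τ) ^ e 8 * (1 - σ * τ) ^ e 4

theorem nonunit_case {C σ τ : Ω} (hC : C ≠ 0) (hσ : V.valuation σ ≤ 1) (hτ : V.valuation τ ≤ 1)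
    (h1 : V.valuation (1 + σ) = 1) (h2 : V.valuation (1 + τ) = 1)
    (h3 : V.valuation (1 - σ * τ) = 1) {e e' : Fin 10 → ℕ} (he0 : e 0 = 0) (he7 : e 7 = 0)
    (h : (0 < e' 0 ∧ V.valuation σ < 1) ∨ (0 < e' 7 ∧ V.valuation τ < 1)) :
    V.valuation (ML C σ τ e' / ML C σ τ e) < 1 := by
  have hC' : V.valuation C ≠ 0 := (Valuation.ne_zero_iff _).2 hC
  unfold ML
  rw [he0, he7]
  simp only [map_div₀, map_mul, map_pow, h1, h2, h3, one_pow, mul_one, pow_zero]
  rw [mul_assoc, mul_div_cancel_left₀ _ hC']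
  rcases h with ⟨ha, hb⟩ | ⟨ha, hb⟩
  · exact mul_lt_one_of_nonneg_of_lt_one_left zero_le' (pow_lt_one₀ zero_le' hb ha.ne')
      (pow_le_one₀ zero_le' hτ)
  · exact mul_lt_one_of_nonneg_of_lt_one_right (pow_le_one₀ zero_le' hσ) zero_le'
      (pow_lt_one₀ zero_le' hb ha.ne')

theorem unit_case {C σ τ : Ω} (hC : C ≠ 0) (h3 : PU V (1 - σ * τ)) {e e' : Fin 10 → ℕ}
    (he0 : e 0 = 0) (he7 : e 7 = 0) (he0' : e' 0 = 0) (he7' : e' 7 = 0)
    (h : (PU V (1 + σ) ∧ e 8 = 0 ∧ e' 8 = 0) ∨ (PU V (1 + τ) ∧ e 6 = 0 ∧ e' 6 = 0)) :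
    PU V (ML C σ τ e' / ML C σ τ e) := by
  unfold ML
  rw [he0, he7, he0', he7']
  rcases h with ⟨h1, h8, h8'⟩ | ⟨h1, h6, h6'⟩
  · rw [h8, h8']
    simp only [pow_zero, mul_one]
    rw [mul_assoc, mul_assoc, mul_div_mul_left _ _ hC, div_eq_mul_inv]
    exact ((h1.pow _).mul (h3.pow _)).mul ((h1.pow _).mul (h3.pow _)).inv
  · rw [h6, h6']
    simp only [pow_zero, mul_one]
    rw [mul_assoc, mul_assoc, mul_div_mul_left _ _ hC, div_eq_mul_inv]
    exact ((h1.pow _).mul (h3.pow _)).mul ((h1.pow _).mul (h3.pow _)).inv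

theorem fin_case (k : Type) [Field k] [Algebra k Ω] {x ρ : Ω} (hx : x = ρ ∨ x = -ρ)
    (h : V.valuation ρ < 1 ∨ PU V ρ) : ∃ a : k, x - algebraMap k Ω a ∈ V.nonunits := by
  rcases h with h | h
  · refine ⟨0, ?_⟩
    rw [map_zero, sub_zero, ValuationSubring.mem_nonunits_iff]
    rcases hx with rfl | rfl
    · exact h
    · rw [Valuation.map_neg]; exact h
  · rcases hx with rfl | rfl
    · refine ⟨1, ?_⟩
      rw [map_one, ValuationSubring.mem_nonunits_iff]
      exact h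
    · refine ⟨-1, ?_⟩
      have h' : -ρ - algebraMap k Ω (-1) = -(ρ - 1) := by rw [map_neg, map_one]; ring
      rw [h', ValuationSubring.mem_nonunits_iff, Valuation.map_neg]
      exact h

end main

theorem sum_pe (π : Equiv.Perm (Fin 5)) (d : Fin 5 → ℕ) (κ : Fin 10) :
    d (XV.eS (XV.pe π κ)) + d (XV.eT (XV.pe π κ)) = d (π (XV.eS κ)) + d (π (XV.eT κ)) := by
  have h : π (XV.eS κ) ≠ π (XV.eT κ) := fun h' => XV.eS_ne_eT κ (π.injective h')
  unfold XV.pe
  rcases XV.ed_spec _ _ h with ⟨h1, h2⟩ | ⟨h1, h2⟩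
  · rw [h1, h2]
  · rw [h1, h2, add_comm]

end CTR_

open CTR_ in
theorem ctr_proof (hPLB : Stmt_PLB) (hLOC : Stmt_LOC) (hTNF : Stmt_TNF) (hTPC : Stmt_TPC)
    (hONC : Stmt_ONC) : SFB.Stmt_CTR := by
  intro k Ω _ _ _ u v huv V hV i hi d hd hdi e e' he he'
  have hne : ∀ κ, pk u v κ ≠ 0 := pk_ne huv
  obtain ⟨π, hc⟩ := hTNF Ω u v hne V
  obtain ⟨hP, hs, hm, hM, -, -⟩ := hPLB Ω u v π
  have hPne : ∀ κ, bk u v π κ ≠ 0 := fun κ => by
    rcases hs κ with h | h
    · rw [h]; exact hne _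
    · rw [h]; exact neg_ne_zero.2 (hne _)
  obtain ⟨C, hC, hL⟩ := hLOC Ω (bk u v π) hP hPne (fun i => d (π i))
  have he1 := (hTPC Ω u v hne V π hc d hd e).1 he
  obtain ⟨heM, he0, he7⟩ := he1
  have hε := (hM d e).1 heM
  have hε' := (hM d e').1 he'
  have hLe := hL _ hε
  have hLe' := hL _ hε'
  have hi' := (hONC Ω u v hne V π hc i).1 hi
  have hsum : ∑ j, d j = ∑ j, d (π j) := (Equiv.sum_comp π d).symm
  have hσ := hc.x
  have hτ := hc.y
  set σ := sx (bk u v π) with hσd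
  set τ := sy (bk u v π) with hτd
  -- units
  have nz : ∀ x : Ω, x ∈ V → x⁻¹ ∈ V → (x ≠ 0) → V.valuation x = 1 :=
    fun x h1 h2 h0 => val_unit h1 h2 h0
  have hpl := hP.r2
  have e1 : 1 + σ = bk u v π 2 * bk u v π 6 / (bk u v π 3 * bk u v π 5) := by
    rw [hσd]; unfold sx
    rw [eq_div_iff (mul_ne_zero (hPne 3) (hPne 5)), add_mul, one_mul,
      div_mul_cancel₀ _ (mul_ne_zero (hPne 3) (hPne 5))]
    linear_combination hP.r2
  have e2 : 1 + τ = bk u v π 2 * bk u v π 8 / (bk u v π 1 * bk u v π 9) := by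
    rw [hτd]; unfold sy
    rw [eq_div_iff (mul_ne_zero (hPne 1) (hPne 9)), add_mul, one_mul,
      div_mul_cancel₀ _ (mul_ne_zero (hPne 1) (hPne 9))]
    linear_combination hP.r1
  have e3 : 1 - σ * τ = bk u v π 2 * bk u v π 4 / (bk u v π 1 * bk u v π 5) := by
    rw [hσd, hτd]; unfold sx sy
    have a := hPne 1; have b := hPne 3; have c := hPne 5; have d := hPne 9
    field_simp
    linear_combination -hP.r4
  have n1 : 1 + σ ≠ 0 := by
    rw [e1]; exact div_ne_zero (mul_ne_zero (hPne _) (hPne _)) (mul_ne_zero (hPne _) (hPne _))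
  have n2 : 1 + τ ≠ 0 := by
    rw [e2]; exact div_ne_zero (mul_ne_zero (hPne _) (hPne _)) (mul_ne_zero (hPne _) (hPne _))
  have n3 : 1 - σ * τ ≠ 0 := by
    rw [e3]; exact div_ne_zero (mul_ne_zero (hPne _) (hPne _)) (mul_ne_zero (hPne _) (hPne _))
  have v1 := nz _ (add_mem (one_mem _) hσ) hc.ux n1
  have v2 := nz _ (add_mem (one_mem _) hτ) hc.uy n2
  have v3 := nz _ (sub_mem (one_mem _) (mul_mem hσ hτ)) hc.uxy n3
  have wσ := (V.valuation_le_one_iff σ).2 hσ
  have wτ := (V.valuation_le_one_iff τ).2 hτ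
  set ε : Fin 10 → ℕ := fun κ => e (XV.pe π κ) with hεd
  set ε' : Fin 10 → ℕ := fun κ => e' (XV.pe π κ) with hεd'
  -- the ratio up to sign
  have hx : mo u v e' / mo u v e = ML C σ τ ε' / ML C σ τ ε ∨
      mo u v e' / mo u v e = -(ML C σ τ ε' / ML C σ τ ε) := by
    have h1 := hm e
    have h2 := hm e'
    rw [show (fun k => e (XV.pe π k)) = ε from rfl, hLe] at h1
    rw [show (fun k => e' (XV.pe π k)) = ε' from rfl, hLe'] at h2
    rcases h1 with h1 | h1 <;> rcases h2 with h2 | h2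
    · left; rw [← h1, ← h2]; rfl
    · right
      have h2' : mo u v e' = -ML C σ τ ε' := by
        have := congrArg Neg.neg h2
        rw [neg_neg] at this
        exact this.symm
      rw [← h1, h2', neg_div]; rfl
    · right
      have h1' : mo u v e = -ML C σ τ ε := by
        have := congrArg Neg.neg h1
        rw [neg_neg] at this
        exact this.symm
      rw [← h2, h1', div_neg]; rfl
    · left
      have h1' : mo u v e = -ML C σ τ ε := by
        have := congrArg Neg.neg h1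
        rw [neg_neg] at this
        exact this.symm
      have h2' : mo u v e' = -ML C σ τ ε' := by
        have := congrArg Neg.neg h2
        rw [neg_neg] at this
        exact this.symm
      rw [h1', h2', neg_div_neg_eq]
  refine fin_case k hx ?_
  have nonu : ∀ {x : Ω}, x ∈ V → x⁻¹ ∉ V → V.valuation x < 1 := by
    intro x h1 h2
    refine lt_of_le_of_ne ((V.valuation_le_one_iff x).2 h1) fun h => h2 ?_
    rw [← V.valuation_le_one_iff, map_inv₀, h, inv_one]
  have hne1 := (mon_iff _ _).1 hε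
  have hne2 := (mon_iff _ _).1 hε'
  obtain ⟨a0, a1, a2, a3, a4⟩ := hne1
  obtain ⟨b0, b1, b2, b3, b4⟩ := hne2
  have hsum5 : ∑ j, d (π j) = d (π 0) + d (π 1) + d (π 2) + d (π 3) + d (π 4) := by
    simp [Fin.sum_univ_succ]; ring
  rcases hi' with ⟨rfl, hn⟩ | ⟨rfl, hn⟩
  · have hσ1 := nonu hσ hn
    rw [sum_pe, hsum, hsum5] at hdi
    simp only [XV.eS, XV.eT, Matrix.cons_val_zero] at hdi
    have hε0 : ε 0 = 0 := he0.resolve_right hn
    have f7 : ε 7 = 0 := by omega
    have f8 : ε 8 = 0 := by omega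
    have g0 : ε' 0 = ε' 7 + ε' 8 + ε' 9 := by omega
    by_cases h0 : ε' 0 = 0
    · right
      refine unit_case hC ?_ hε0 f7 h0 (by omega) (Or.inl ⟨?_, f8, by omega⟩)
      · show V.valuation (1 - σ * τ - 1) < 1
        have : 1 - σ * τ - 1 = -(σ * τ) := by ring
        rw [this, Valuation.map_neg, map_mul]
        exact mul_lt_one_of_nonneg_of_lt_one_left zero_le' hσ1 wτ
      · show V.valuation (1 + σ - 1) < 1
        rw [add_sub_cancel_left]
        exact hσ1
    · left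
      exact nonunit_case hC wσ wτ v1 v2 v3 hε0 f7 (Or.inl ⟨Nat.pos_of_ne_zero h0, hσ1⟩)
  · have hτ1 := nonu hτ hn
    rw [sum_pe, hsum, hsum5] at hdi
    have hS : XV.eS 7 = 2 := rfl
    have hT : XV.eT 7 = 3 := rfl
    rw [hS, hT] at hdi
    have hε7 : ε 7 = 0 := he7.resolve_right hn
    have f0 : ε 0 = 0 := by omega
    have f6 : ε 6 = 0 := by omega
    have g0 : ε' 7 = ε' 0 + ε' 3 + ε' 6 := by omega
    by_cases h7 : ε' 7 = 0
    · right
      refine unit_case hC ?_ f0 hε7 (by omega) h7 (Or.inr ⟨?_, f6, by omega⟩)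
      · show V.valuation (1 - σ * τ - 1) < 1
        have : 1 - σ * τ - 1 = -(σ * τ) := by ring
        rw [this, Valuation.map_neg, map_mul]
        exact mul_lt_one_of_nonneg_of_lt_one_right wσ zero_le' hτ1
      · show V.valuation (1 + τ - 1) < 1
        rw [add_sub_cancel_left]
        exact hτ1
    · left
      exact nonunit_case hC wσ wτ v1 v2 v3 f0 hε7 (Or.inr ⟨Nat.pos_of_ne_zero h7, hτ1⟩)

end Pool.Agent.SFS
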