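import Pool.Agent.SFS.Stmts

/-!
# SFS, module DEG: the degree of the embedded surface is twenty
-/

set_option autoImplicit false

noncomputable section

namespace Pool.Agent.SFS

open scoped Classical
open Pool.Agent.SFB

theorem deg_proof (hPLB : Stmt_PLB) (hIND : Stmt_IND) (hLOW : Stmt_LOW) (hINT : Stmt_INT)
    (hNTE : Stmt_NTE) (hFIN : Stmt_FIN) : SFB.Stmt_DEG := by
  intro k Ω _ _ _ _ u v huv l hl hpl
  have hnef : Nef (fun _ => 4) := (nef_iff _).2 (by decide)
  have hbig : 4 * ∑ _i : Fin 5, 4 ^ 2 < (∑ _i : Fin 5, 4) ^ 2 := by decide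
  have hne : (PF k l).relfinrank (UV u v k) ≠ 0 := hFIN k Ω u v huv _ hnef hbig l hl hpl.ne
  have h1 := hNTE k Ω l hpl (UV u v k) (fun i => Sec_le_UV (hl.sec i)) hne
    (Sec u v k fun _ => 58 * 4) inferInstance (fun f hf => Sec_le_UV hf) 58
    (fun f hf => hINT k Ω u v huv _ hnef l hl hpl.ne 58 f hf)
  have h2 := hLOW k Ω (pk u v) (hPLB Ω u v 1).1 (pk_ne huv) (hIND k Ω u v huv 1) 58
  have h3 : (58 + 2).choose 2 = 1770 := by decide
  have h4 : Module.finrank k (SP k (pk u v) fun _ => 4 * 58) =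
    Module.finrank k (Sec u v k fun _ => 58 * 4) := rfl
  rw [h3] at h1
  rw [h4] at h2
  omega

end Pool.Agent.SFS
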