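import Pool.Agent.SFS.Stmts

/-!
# SFS, module DGU: upper bound for degrees
-/

set_option autoImplicit false

noncomputable section

namespace Pool.Agent.SFS

open scoped Classical
open Pool.Agent.SFB

namespace DGU_

variable {k Ω : Type} [Field k] [Field Ω] [Algebra k Ω]

/-- Indices of monomials of degree at most `N`. -/
abbrev Ix (N : ℕ) := Σ j : Fin (N + 1), Fin (j.1 + 1)

theorem card_Ix (N : ℕ) : Fintype.card (Ix N) * 2 = (N + 1) * (N + 2) := by
  rw [Fintype.card_sigma]
  simp only [Fintype.card_fin]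
  rw [Fin.sum_univ_eq_sum_range (fun j => j + 1) (N + 1)]
  induction N with
  | zero => simp
  | succ N ih =>
    rw [Finset.sum_range_succ, add_mul, ih]
    ring

theorem indep_t {X Y : Ω} (h : AlgebraicIndependent k ![X, Y]) (N : ℕ) :
    LinearIndependent k (fun p : Ix N => X ^ p.2.1 * Y ^ (p.1.1 - p.2.1)) := by
  have h1 := (MvPolynomial.basisMonomials (Fin 2) k).linearIndependent.map'
    (MvPolynomial.aeval ![X, Y] : MvPolynomial (Fin 2) k →ₐ[k] Ω).toLinearMap
    (LinearMap.ker_eq_bot.2 h)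
  have h2 : Function.Injective (fun p : Ix N =>
      (Finsupp.single 0 p.2.1 + Finsupp.single 1 (p.1.1 - p.2.1) : Fin 2 →₀ ℕ)) := by
    rintro ⟨⟨j, hj⟩, ⟨a, ha⟩⟩ ⟨⟨j', hj'⟩, ⟨a', ha'⟩⟩ h
    have e0 := DFunLike.congr_fun h 0
    have e1 := DFunLike.congr_fun h 1
    simp at e0 e1 ha ha'
    have : j = j' := by omega
    subst this
    subst e0
    rfl
  have h3 := h1.comp _ h2
  have h4 : (fun p : Ix N => X ^ p.2.1 * Y ^ (p.1.1 - p.2.1)) =
      ((⇑(MvPolynomial.aeval ![X, Y] : MvPolynomial (Fin 2) k →ₐ[k] Ω).toLinearMap ∘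
        ⇑(MvPolynomial.basisMonomials (Fin 2) k)) ∘ fun p : Ix N =>
          (Finsupp.single 0 p.2.1 + Finsupp.single 1 (p.1.1 - p.2.1) : Fin 2 →₀ ℕ)) := by
    funext p
    simp [MvPolynomial.aeval_monomial, Finsupp.prod_add_index', pow_add]
  rw [h4]
  exact h3

end DGU_

open DGU_ in
theorem dgu_proof : Stmt_DGU := by
  intro k Ω _ _ _ σ hpl S hfd h1 hσ hmul E hE c C hbd
  have hs0 := hpl.ne 0
  set F := PF k σ with hF
  set G : Set Ω := {g | ∃ f ∈ S 1, g = f / σ 0} with hG
  have hle : F ≤ E := by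
    rw [hF, hE]
    unfold PF
    rw [IntermediateField.adjoin_le_iff]
    rintro x (rfl | rfl)
    · exact IntermediateField.subset_adjoin _ _ ⟨σ 1, hσ 1, rfl⟩
    · exact IntermediateField.subset_adjoin _ _ ⟨σ 2, hσ 2, rfl⟩
  rw [IntermediateField.relfinrank_eq_finrank_of_le hle]
  by_contra hlt
  push Not at hlt
  set L := IntermediateField.extendScalars hle with hL
  have : FiniteDimensional F L := Module.finite_of_finrank_pos (by omega)
  have hGL : ∀ g ∈ G, g ∈ L := fun g hg => by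
    rw [hL, IntermediateField.mem_extendScalars, hE]
    exact IntermediateField.subset_adjoin _ _ hg
  have hGalg : ∀ g ∈ G, IsAlgebraic F g := fun g hg => by
    have h2 : IsAlgebraic F (⟨g, hGL g hg⟩ : L) := Algebra.IsAlgebraic.isAlgebraic _
    exact (IntermediateField.isAlgebraic_iff (x := (⟨g, hGL g hg⟩ : L))).1 h2
  have hA := IntermediateField.adjoin_toSubalgebra_of_isAlgebraic hGalg
  have hLE : E ≤ (IntermediateField.adjoin F G).restrictScalars k := by
    rw [hE, IntermediateField.adjoin_le_iff]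
    intro g hg
    exact IntermediateField.subset_adjoin F G hg
  have hspan : Submodule.span F (Submonoid.closure G : Set Ω) =
      Subalgebra.toSubmodule L.toSubalgebra := by
    rw [← Algebra.adjoin_eq_span, ← hA]
    ext x
    constructor
    · intro hx
      have : IntermediateField.adjoin F G ≤ L := by
        rw [IntermediateField.adjoin_le_iff]
        exact hGL
      exact this hx
    · intro hx
      exact hLE hx
  have hfds : FiniteDimensional F (Submodule.span F (Submonoid.closure G : Set Ω)) := by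
    rw [hspan]
    exact (inferInstance : FiniteDimensional F L)
  have hD0 : Module.finrank F (Submodule.span F (Submonoid.closure G : Set Ω)) =
      Module.finrank F L := by
    rw [hspan]; rfl
  obtain ⟨D, b, hb, hbi, hD⟩ : ∃ (D : ℕ) (b : Fin D → Ω), (∀ i, b i ∈ Submonoid.closure G) ∧
      LinearIndependent F b ∧ D = Module.finrank F L := by
    obtain ⟨b, hb, -, hbi⟩ := Submodule.exists_fun_fin_finrank_span_eq F
      (Submonoid.closure G : Set Ω)
    exact ⟨_, b, hb, hbi, hD0⟩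
  -- powers
  have hpow : ∀ (i : Fin 3) (j : ℕ), σ i ^ j ∈ S j := fun i j => by
    induction j with
    | zero => simpa using h1
    | succ j ih => rw [pow_succ]; exact hmul _ _ _ _ ih (hσ i)
  have hmono : ∀ (x : Ω) (m m' : ℕ), m ≤ m' → x * σ 0 ^ m ∈ S m → x * σ 0 ^ m' ∈ S m' := by
    intro x m m' hm hx
    obtain ⟨r, rfl⟩ := Nat.exists_eq_add_of_le hm
    rw [pow_add, ← mul_assoc]
    exact hmul _ _ _ _ hx (hpow 0 r)
  have hcl : ∀ x ∈ Submonoid.closure G, ∃ m, x * σ 0 ^ m ∈ S m := by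
    intro x hx
    induction hx using Submonoid.closure_induction with
    | mem x hx =>
      obtain ⟨f, hf, rfl⟩ := hx
      exact ⟨1, by rwa [pow_one, div_mul_cancel₀ _ hs0]⟩
    | one => exact ⟨0, by simpa using h1⟩
    | mul x y _ _ hx hy =>
      obtain ⟨m, hm⟩ := hx
      obtain ⟨m', hm'⟩ := hy
      refine ⟨m + m', ?_⟩
      have : x * y * σ 0 ^ (m + m') = (x * σ 0 ^ m) * (y * σ 0 ^ m') := by ring
      rw [this]
      exact hmul _ _ _ _ hm hm'
  choose mm hmm using fun i => hcl (b i) (hb i)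
  set m := Finset.univ.sup mm with hm
  have hbm : ∀ i, b i * σ 0 ^ m ∈ S m := fun i =>
    hmono _ _ _ (Finset.le_sup (Finset.mem_univ i)) (hmm i)
  -- the main bound
  have hmain : ∀ N : ℕ, D * ((N + 1) * (N + 2)) ≤ 2 * Module.finrank k (S (m + N)) := by
    intro N
    have hX : σ 1 / σ 0 ∈ F := IntermediateField.subset_adjoin _ _ (by simp)
    have hY : σ 2 / σ 0 ∈ F := IntermediateField.subset_adjoin _ _ (by simp)
    let t : Ix N → F := fun p => (⟨_, hX⟩ : F) ^ p.2.1 * (⟨_, hY⟩ : F) ^ (p.1.1 - p.2.1)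
    have ht : LinearIndependent k t := by
      refine LinearIndependent.of_comp F.val.toLinearMap ?_
      exact indep_t hpl.indep N
    have hprod := linearIndependent_smul ht hbi
    have hprod2 : LinearIndependent k
        (fun p : Ix N × Fin D => (t p.1 • b p.2) * σ 0 ^ (m + N)) := by
      have := hprod.map' (LinearMap.mulRight k (σ 0 ^ (m + N))) (by
        rw [LinearMap.ker_eq_bot]
        exact mul_left_injective₀ (pow_ne_zero _ hs0))
      exact this
    have hmem : ∀ p : Ix N × Fin D, (t p.1 • b p.2) * σ 0 ^ (m + N) ∈ S (m + N) := by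
      rintro ⟨⟨⟨j, hj⟩, ⟨a, ha⟩⟩, i⟩
      have ha' : a ≤ j := by simpa [Nat.lt_succ_iff] using ha
      have hj' : j ≤ N := Nat.lt_succ_iff.1 hj
      have h4 : ((t ⟨⟨j, hj⟩, ⟨a, ha⟩⟩ : F) : Ω) * σ 0 ^ N =
          σ 1 ^ a * σ 2 ^ (j - a) * σ 0 ^ (N - j) := by
        have h5 : N = a + (j - a) + (N - j) := by omega
        show (σ 1 / σ 0) ^ a * (σ 2 / σ 0) ^ (j - a) * σ 0 ^ N = _
        conv_lhs => rw [h5]
        rw [pow_add, pow_add, div_pow, div_pow]
        have h6 : a + (j - a) + (N - j) - j = N - j := by omega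
        field_simp
      have h7 : (t ⟨⟨j, hj⟩, ⟨a, ha⟩⟩ • b i) * σ 0 ^ (m + N) =
          (b i * σ 0 ^ m) * (σ 1 ^ a * σ 2 ^ (j - a) * σ 0 ^ (N - j)) := by
        rw [← h4]
        show ((t ⟨⟨j, hj⟩, ⟨a, ha⟩⟩ : F) : Ω) * b i * σ 0 ^ (m + N) = _
        rw [pow_add]
        ring
      show (t ⟨⟨j, hj⟩, ⟨a, ha⟩⟩ • b i) * σ 0 ^ (m + N) ∈ S (m + N)
      rw [h7]
      refine hmul _ _ _ _ (hbm i) ?_
      have h8 : N = a + (j - a) + (N - j) := by omega
      have h9 := hmul _ _ _ _ (hmul _ _ _ _ (hpow 1 a) (hpow 2 (j - a))) (hpow 0 (N - j))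
      rwa [← h8] at h9
    have h10 : LinearIndependent k (fun p : Ix N × Fin D =>
        (⟨(t p.1 • b p.2) * σ 0 ^ (m + N), hmem p⟩ : S (m + N))) :=
      LinearIndependent.of_comp (S (m + N)).subtype hprod2
    have := hfd (m + N)
    have h11 := h10.fintype_card_le_finrank
    rw [Fintype.card_prod, Fintype.card_fin] at h11
    have h12 := card_Ix N
    nlinarith
  rw [← hD] at hlt
  have h13 := hmain (2 * c * m + C + c * m ^ 2 + C * m + C + 1)
  have h14 := hbd (m + (2 * c * m + C + c * m ^ 2 + C * m + C + 1))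
  set T := 2 * c * m + C + c * m ^ 2 + C * m + C + 1 with hT
  have h15 : (c + 1) * ((T + 1) * (T + 2)) ≤ D * ((T + 1) * (T + 2)) :=
    Nat.mul_le_mul_right _ hlt
  have h16 : (c + 1) * ((T + 1) * (T + 2)) ≤ c * (m + T) ^ 2 + C * (m + T) + C := by omega
  have h17 : T * T = (2 * c * m + C) * T + (c * m ^ 2 + C * m + C + 1) * T := by
    rw [hT]; ring
  have h18 : c * m ^ 2 + C * m + C + 1 ≤ (c * m ^ 2 + C * m + C + 1) * T :=
    Nat.le_mul_of_pos_right _ (by omega)
  nlinarith

end Pool.Agent.SFS
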