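import Pool.Agent.SFS.Stmts

/-!
# DST: sections modulo the sections vanishing on a curve
-/

set_option autoImplicit false

noncomputable section

namespace Pool.Agent.SFS

open scoped Classical
open Pool.Agent.SFB

namespace DST_

/-- A permutation which maps the edge `01` to a given edge. -/
theorem exists_perm (κ : Fin 10) : ∃ π : Equiv.Perm (Fin 5), π 0 = XV.eS κ ∧ π 1 = XV.eT κ := by
  have h : XV.eS κ ≠ XV.eT κ := XV.eS_ne_eT κ
  refine ⟨Equiv.swap 0 (XV.eS κ) * Equiv.swap 1 (Equiv.swap 0 (XV.eS κ) (XV.eT κ)), ?_, ?_⟩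
  · revert h
    fin_cases κ <;> decide
  · revert h
    fin_cases κ <;> decide

theorem pe_zero {κ : Fin 10} {π : Equiv.Perm (Fin 5)} (h0 : π 0 = XV.eS κ) (h1 : π 1 = XV.eT κ) :
    XV.pe π 0 = κ := by
  unfold XV.pe
  have e0 : XV.eS 0 = 0 := rfl
  have e1 : XV.eT 0 = 1 := rfl
  rw [e0, e1, h0, h1, XV.ed_eS_eT]

end DST_

open DST_ in
theorem dst_proof (hPLB : Stmt_PLB) (hSTP : Stmt_STP) : Stmt_DST := by
  intro k Ω _ _ _ u v κ d' d hd hev h1 h2
  obtain ⟨π, hπ0, hπ1⟩ := exists_perm κ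
  obtain ⟨hplk, -, -, -, -, hsp⟩ := hPLB Ω u v π
  have hs : ∑ i, d (π i) = ∑ i, d i := Equiv.sum_comp π d
  -- disjoint edges
  have hdis : ∀ i j : Fin 5, i ≠ 0 → i ≠ 1 → j ≠ 0 → j ≠ 1 → i ≠ j →
      2 * (d (π i) + d (π j)) ≤ ∑ i, d i := by
    intro i j hi0 hi1 hj0 hj1 hij
    have hne : π i ≠ π j := fun h => hij (π.injective h)
    have hD : XV.Disj κ (XV.ed (π i) (π j)) := by
      have a1 : π i ≠ XV.eS κ := fun h => hi0 (π.injective (h.trans hπ0.symm))
      have a2 : π i ≠ XV.eT κ := fun h => hi1 (π.injective (h.trans hπ1.symm))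
      have a3 : π j ≠ XV.eS κ := fun h => hj0 (π.injective (h.trans hπ0.symm))
      have a4 : π j ≠ XV.eT κ := fun h => hj1 (π.injective (h.trans hπ1.symm))
      rcases XV.ed_spec _ _ hne with ⟨p1, p2⟩ | ⟨p1, p2⟩
      · unfold XV.Disj
        rw [p1, p2]
        exact ⟨a1.symm, a3.symm, a2.symm, a4.symm⟩
      · unfold XV.Disj
        rw [p1, p2]
        exact ⟨a3.symm, a1.symm, a4.symm, a2.symm⟩
    have h3 := h2 _ hD
    rcases XV.ed_spec _ _ hne with ⟨p1, p2⟩ | ⟨p1, p2⟩
    · rw [p1, p2] at h3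
      exact h3
    · rw [p1, p2] at h3
      omega
  have hchi : (fun i => chi κ (π i)) = chi 0 := by
    funext i
    have hend := XV.pe_end π 0 i
    rw [pe_zero hπ0 hπ1] at hend
    unfold chi
    by_cases h : XV.eS 0 = i ∨ XV.eT 0 = i
    · rw [if_pos h, if_pos (hend.2 h)]
    · rw [if_neg h, if_neg fun h' => h (hend.1 h')]
  have hmain := hSTP k Ω (bk u v π) hplk (fun i => d' (π i)) (fun i => d (π i)) (by
      rw [← hchi]
      funext i
      rw [hd]
      rfl) (by rw [hs]; exact hev) (by rw [hs, hπ0, hπ1]; exact h1)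
      (by rw [hs]; exact hdis 2 3 (by decide) (by decide) (by decide) (by decide) (by decide))
      (by rw [hs]; exact hdis 2 4 (by decide) (by decide) (by decide) (by decide) (by decide))
      (by rw [hs]; exact hdis 3 4 (by decide) (by decide) (by decide) (by decide) (by decide))
  rw [hsp k d, hsp k d', hs] at hmain
  simp only [hπ0, hπ1] at hmain
  exact hmain

end Pool.Agent.SFS
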