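import Pool.Agent.SFS.Stmts

/-!
# SFS, module DUP: upper bound for the number of sections
-/

set_option autoImplicit false
set_option linter.unusedSimpArgs false
set_option linter.unreachableTactic false
set_option linter.unnecessarySeqFocus false
set_option linter.unusedTactic false

noncomputable section

namespace Pool.Agent.SFS

open scoped Classical
open Pool.Agent.SFB

namespace DUP_

theorem sum5 (d : Fin 5 → ℕ) : ∑ i, d i = d 0 + d 1 + d 2 + d 3 + d 4 := by
  simp [Fin.sum_univ_succ]; ring_nf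

/-- one step, explicit -/
theorem st (hD : Stmt_DST) (k Ω : Type) [Field k] [Field Ω] [Algebra k Ω] (u v : Ω) (κ : Fin 10)
    (d : Fin 5 → ℕ) (s : ℕ) (hs : d 0 + d 1 + d 2 + d 3 + d 4 = s) (he : Even s)
    (h1 : 2 * (d (XV.eS κ) + d (XV.eT κ)) ≤ s)
    (h2 : ∀ l, XV.Disj κ l → 2 * (d (XV.eS l) + d (XV.eT l)) ≤ s + 2) :
    2 * Module.finrank k (Sec u v k (d + chi κ)) + 2 * (d (XV.eS κ) + d (XV.eT κ)) ≤
      2 * Module.finrank k (Sec u v k d) + s := by
  have hc : ∑ i, chi κ i = 2 := by
    fin_cases κ <;> simp [chi, XV.eS, XV.eT, Fin.sum_univ_succ]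
  have hcS : chi κ (XV.eS κ) = 1 := by simp [chi]
  have hcT : chi κ (XV.eT κ) = 1 := by simp [chi]
  have hsum : ∑ i, (d + chi κ) i = s + 2 := by
    simp only [Pi.add_apply]
    rw [Finset.sum_add_distrib, hc, sum5, hs]
  have h := hD k Ω u v κ d (d + chi κ) rfl (by rw [hsum]; exact he.add (by decide)) (by
      rw [hsum, Pi.add_apply, Pi.add_apply, hcS, hcT]; omega) (by
      intro l hl
      have hlS : chi κ (XV.eS l) = 0 := by
        unfold chi
        rw [if_neg]
        rintro (h | h)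
        · exact hl.1 h
        · exact hl.2.2.1 h
      have hlT : chi κ (XV.eT l) = 0 := by
        unfold chi
        rw [if_neg]
        rintro (h | h)
        · exact hl.2.1 h
        · exact hl.2.2.2 h
      rw [hsum, Pi.add_apply, Pi.add_apply, hlS, hlT]
      have := h2 l hl
      omega)
  rw [hsum, Pi.add_apply, Pi.add_apply, hcS, hcT] at h
  obtain ⟨t, ht⟩ := he
  have : (s + 2) / 2 = t + 1 := by omega
  rw [this] at h
  omega

theorem fF_step (hD : Stmt_DST) (k Ω : Type) [Field k] [Field Ω] [Algebra k Ω] (u v : Ω)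
    (d : Fin 5 → ℕ) (hd : Nef d) (i : Fin 5) :
    Module.finrank k (Sec u v k (d + fF i)) ≤ Module.finrank k (Sec u v k d) + d i + 1 := by
  rw [nef_iff] at hd
  obtain ⟨he, n0, n1, n2, n3, n4, n5, n6, n7, n8, n9⟩ := hd
  fin_cases i
  · have e : d + fF 0 = d + chi 4 + chi 9 := by
      ext j; fin_cases j <;> simp [fF, chi, XV.eS, XV.eT]
    have s0 := st hD k Ω u v 4 (d) (d 0 + d 1 + d 2 + d 3 + d 4 + 0)
      (by simp [chi, XV.eS, XV.eT] <;> omega) (by simpa [parity_simps] using he)
      (by simp [chi, XV.eS, XV.eT] <;> omega)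
      (by intro l _; fin_cases l <;> simp [chi, XV.eS, XV.eT] <;> omega)
    have s1 := st hD k Ω u v 9 (d + chi 4) (d 0 + d 1 + d 2 + d 3 + d 4 + 2)
      (by simp [chi, XV.eS, XV.eT] <;> omega) (by simpa [parity_simps] using he)
      (by simp [chi, XV.eS, XV.eT] <;> omega)
      (by intro l _; fin_cases l <;> simp [chi, XV.eS, XV.eT] <;> omega)
    show Module.finrank k (Sec u v k (d + fF 0)) ≤ Module.finrank k (Sec u v k d) + d 0 + 1
    rw [e]
    simp [chi, XV.eS, XV.eT] at s0 s1 ⊢
    omega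
  · have e : d + fF 1 = d + chi 1 + chi 9 := by
      ext j; fin_cases j <;> simp [fF, chi, XV.eS, XV.eT]
    have s0 := st hD k Ω u v 1 (d) (d 0 + d 1 + d 2 + d 3 + d 4 + 0)
      (by simp [chi, XV.eS, XV.eT] <;> omega) (by simpa [parity_simps] using he)
      (by simp [chi, XV.eS, XV.eT] <;> omega)
      (by intro l _; fin_cases l <;> simp [chi, XV.eS, XV.eT] <;> omega)
    have s1 := st hD k Ω u v 9 (d + chi 1) (d 0 + d 1 + d 2 + d 3 + d 4 + 2)
      (by simp [chi, XV.eS, XV.eT] <;> omega) (by simpa [parity_simps] using he)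
      (by simp [chi, XV.eS, XV.eT] <;> omega)
      (by intro l _; fin_cases l <;> simp [chi, XV.eS, XV.eT] <;> omega)
    show Module.finrank k (Sec u v k (d + fF 1)) ≤ Module.finrank k (Sec u v k d) + d 1 + 1
    rw [e]
    simp [chi, XV.eS, XV.eT] at s0 s1 ⊢
    omega
  · have e : d + fF 2 = d + chi 0 + chi 9 := by
      ext j; fin_cases j <;> simp [fF, chi, XV.eS, XV.eT]
    have s0 := st hD k Ω u v 0 (d) (d 0 + d 1 + d 2 + d 3 + d 4 + 0)
      (by simp [chi, XV.eS, XV.eT] <;> omega) (by simpa [parity_simps] using he)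
      (by simp [chi, XV.eS, XV.eT] <;> omega)
      (by intro l _; fin_cases l <;> simp [chi, XV.eS, XV.eT] <;> omega)
    have s1 := st hD k Ω u v 9 (d + chi 0) (d 0 + d 1 + d 2 + d 3 + d 4 + 2)
      (by simp [chi, XV.eS, XV.eT] <;> omega) (by simpa [parity_simps] using he)
      (by simp [chi, XV.eS, XV.eT] <;> omega)
      (by intro l _; fin_cases l <;> simp [chi, XV.eS, XV.eT] <;> omega)
    show Module.finrank k (Sec u v k (d + fF 2)) ≤ Module.finrank k (Sec u v k d) + d 2 + 1
    rw [e]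
    simp [chi, XV.eS, XV.eT] at s0 s1 ⊢
    omega
  · have e : d + fF 3 = d + chi 0 + chi 8 := by
      ext j; fin_cases j <;> simp [fF, chi, XV.eS, XV.eT]
    have s0 := st hD k Ω u v 0 (d) (d 0 + d 1 + d 2 + d 3 + d 4 + 0)
      (by simp [chi, XV.eS, XV.eT] <;> omega) (by simpa [parity_simps] using he)
      (by simp [chi, XV.eS, XV.eT] <;> omega)
      (by intro l _; fin_cases l <;> simp [chi, XV.eS, XV.eT] <;> omega)
    have s1 := st hD k Ω u v 8 (d + chi 0) (d 0 + d 1 + d 2 + d 3 + d 4 + 2)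
      (by simp [chi, XV.eS, XV.eT] <;> omega) (by simpa [parity_simps] using he)
      (by simp [chi, XV.eS, XV.eT] <;> omega)
      (by intro l _; fin_cases l <;> simp [chi, XV.eS, XV.eT] <;> omega)
    show Module.finrank k (Sec u v k (d + fF 3)) ≤ Module.finrank k (Sec u v k d) + d 3 + 1
    rw [e]
    simp [chi, XV.eS, XV.eT] at s0 s1 ⊢
    omega
  · have e : d + fF 4 = d + chi 0 + chi 7 := by
      ext j; fin_cases j <;> simp [fF, chi, XV.eS, XV.eT]
    have s0 := st hD k Ω u v 0 (d) (d 0 + d 1 + d 2 + d 3 + d 4 + 0)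
      (by simp [chi, XV.eS, XV.eT] <;> omega) (by simpa [parity_simps] using he)
      (by simp [chi, XV.eS, XV.eT] <;> omega)
      (by intro l _; fin_cases l <;> simp [chi, XV.eS, XV.eT] <;> omega)
    have s1 := st hD k Ω u v 7 (d + chi 0) (d 0 + d 1 + d 2 + d 3 + d 4 + 2)
      (by simp [chi, XV.eS, XV.eT] <;> omega) (by simpa [parity_simps] using he)
      (by simp [chi, XV.eS, XV.eT] <;> omega)
      (by intro l _; fin_cases l <;> simp [chi, XV.eS, XV.eT] <;> omega)
    show Module.finrank k (Sec u v k (d + fF 4)) ≤ Module.finrank k (Sec u v k d) + d 4 + 1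
    rw [e]
    simp [chi, XV.eS, XV.eT] at s0 s1 ⊢
    omega

theorem hH_step (hD : Stmt_DST) (k Ω : Type) [Field k] [Field Ω] [Algebra k Ω] (u v : Ω)
    (d : Fin 5 → ℕ) (hd : Nef d) (i : Fin 5) :
    2 * Module.finrank k (Sec u v k (d + hH i)) + 2 * d i ≤
      2 * Module.finrank k (Sec u v k d) + (d 0 + d 1 + d 2 + d 3 + d 4) + 4 := by
  rw [nef_iff] at hd
  obtain ⟨he, n0, n1, n2, n3, n4, n5, n6, n7, n8, n9⟩ := hd
  fin_cases i
  · have e : d + hH 0 = d + chi 9 + chi 0 + chi 1 := by
      ext j; fin_cases j <;> simp [hH, chi, XV.eS, XV.eT]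
    have s0 := st hD k Ω u v 9 (d) (d 0 + d 1 + d 2 + d 3 + d 4 + 0)
      (by simp [chi, XV.eS, XV.eT] <;> omega) (by simpa [parity_simps] using he)
      (by simp [chi, XV.eS, XV.eT] <;> omega)
      (by intro l _; fin_cases l <;> simp [chi, XV.eS, XV.eT] <;> omega)
    have s1 := st hD k Ω u v 0 (d + chi 9) (d 0 + d 1 + d 2 + d 3 + d 4 + 2)
      (by simp [chi, XV.eS, XV.eT] <;> omega) (by simpa [parity_simps] using he)
      (by simp [chi, XV.eS, XV.eT] <;> omega)
      (by intro l _; fin_cases l <;> simp [chi, XV.eS, XV.eT] <;> omega)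
    have s2 := st hD k Ω u v 1 (d + chi 9 + chi 0) (d 0 + d 1 + d 2 + d 3 + d 4 + 4)
      (by simp [chi, XV.eS, XV.eT] <;> omega) (by simpa [parity_simps] using he)
      (by simp [chi, XV.eS, XV.eT] <;> omega)
      (by intro l _; fin_cases l <;> simp [chi, XV.eS, XV.eT] <;> omega)
    show 2 * Module.finrank k (Sec u v k (d + hH 0)) + 2 * d 0 ≤
      2 * Module.finrank k (Sec u v k d) + (d 0 + d 1 + d 2 + d 3 + d 4) + 4
    rw [e]
    simp [chi, XV.eS, XV.eT] at s0 s1 s2 ⊢
    omega
  · have e : d + hH 1 = d + chi 9 + chi 0 + chi 4 := by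
      ext j; fin_cases j <;> simp [hH, chi, XV.eS, XV.eT]
    have s0 := st hD k Ω u v 9 (d) (d 0 + d 1 + d 2 + d 3 + d 4 + 0)
      (by simp [chi, XV.eS, XV.eT] <;> omega) (by simpa [parity_simps] using he)
      (by simp [chi, XV.eS, XV.eT] <;> omega)
      (by intro l _; fin_cases l <;> simp [chi, XV.eS, XV.eT] <;> omega)
    have s1 := st hD k Ω u v 0 (d + chi 9) (d 0 + d 1 + d 2 + d 3 + d 4 + 2)
      (by simp [chi, XV.eS, XV.eT] <;> omega) (by simpa [parity_simps] using he)
      (by simp [chi, XV.eS, XV.eT] <;> omega)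
      (by intro l _; fin_cases l <;> simp [chi, XV.eS, XV.eT] <;> omega)
    have s2 := st hD k Ω u v 4 (d + chi 9 + chi 0) (d 0 + d 1 + d 2 + d 3 + d 4 + 4)
      (by simp [chi, XV.eS, XV.eT] <;> omega) (by simpa [parity_simps] using he)
      (by simp [chi, XV.eS, XV.eT] <;> omega)
      (by intro l _; fin_cases l <;> simp [chi, XV.eS, XV.eT] <;> omega)
    show 2 * Module.finrank k (Sec u v k (d + hH 1)) + 2 * d 1 ≤
      2 * Module.finrank k (Sec u v k d) + (d 0 + d 1 + d 2 + d 3 + d 4) + 4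
    rw [e]
    simp [chi, XV.eS, XV.eT] at s0 s1 s2 ⊢
    omega
  · have e : d + hH 2 = d + chi 9 + chi 1 + chi 4 := by
      ext j; fin_cases j <;> simp [hH, chi, XV.eS, XV.eT]
    have s0 := st hD k Ω u v 9 (d) (d 0 + d 1 + d 2 + d 3 + d 4 + 0)
      (by simp [chi, XV.eS, XV.eT] <;> omega) (by simpa [parity_simps] using he)
      (by simp [chi, XV.eS, XV.eT] <;> omega)
      (by intro l _; fin_cases l <;> simp [chi, XV.eS, XV.eT] <;> omega)
    have s1 := st hD k Ω u v 1 (d + chi 9) (d 0 + d 1 + d 2 + d 3 + d 4 + 2)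
      (by simp [chi, XV.eS, XV.eT] <;> omega) (by simpa [parity_simps] using he)
      (by simp [chi, XV.eS, XV.eT] <;> omega)
      (by intro l _; fin_cases l <;> simp [chi, XV.eS, XV.eT] <;> omega)
    have s2 := st hD k Ω u v 4 (d + chi 9 + chi 1) (d 0 + d 1 + d 2 + d 3 + d 4 + 4)
      (by simp [chi, XV.eS, XV.eT] <;> omega) (by simpa [parity_simps] using he)
      (by simp [chi, XV.eS, XV.eT] <;> omega)
      (by intro l _; fin_cases l <;> simp [chi, XV.eS, XV.eT] <;> omega)
    show 2 * Module.finrank k (Sec u v k (d + hH 2)) + 2 * d 2 ≤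
      2 * Module.finrank k (Sec u v k d) + (d 0 + d 1 + d 2 + d 3 + d 4) + 4
    rw [e]
    simp [chi, XV.eS, XV.eT] at s0 s1 s2 ⊢
    omega
  · have e : d + hH 3 = d + chi 8 + chi 2 + chi 5 := by
      ext j; fin_cases j <;> simp [hH, chi, XV.eS, XV.eT]
    have s0 := st hD k Ω u v 8 (d) (d 0 + d 1 + d 2 + d 3 + d 4 + 0)
      (by simp [chi, XV.eS, XV.eT] <;> omega) (by simpa [parity_simps] using he)
      (by simp [chi, XV.eS, XV.eT] <;> omega)
      (by intro l _; fin_cases l <;> simp [chi, XV.eS, XV.eT] <;> omega)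
    have s1 := st hD k Ω u v 2 (d + chi 8) (d 0 + d 1 + d 2 + d 3 + d 4 + 2)
      (by simp [chi, XV.eS, XV.eT] <;> omega) (by simpa [parity_simps] using he)
      (by simp [chi, XV.eS, XV.eT] <;> omega)
      (by intro l _; fin_cases l <;> simp [chi, XV.eS, XV.eT] <;> omega)
    have s2 := st hD k Ω u v 5 (d + chi 8 + chi 2) (d 0 + d 1 + d 2 + d 3 + d 4 + 4)
      (by simp [chi, XV.eS, XV.eT] <;> omega) (by simpa [parity_simps] using he)
      (by simp [chi, XV.eS, XV.eT] <;> omega)
      (by intro l _; fin_cases l <;> simp [chi, XV.eS, XV.eT] <;> omega)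
    show 2 * Module.finrank k (Sec u v k (d + hH 3)) + 2 * d 3 ≤
      2 * Module.finrank k (Sec u v k d) + (d 0 + d 1 + d 2 + d 3 + d 4) + 4
    rw [e]
    simp [chi, XV.eS, XV.eT] at s0 s1 s2 ⊢
    omega
  · have e : d + hH 4 = d + chi 7 + chi 3 + chi 6 := by
      ext j; fin_cases j <;> simp [hH, chi, XV.eS, XV.eT]
    have s0 := st hD k Ω u v 7 (d) (d 0 + d 1 + d 2 + d 3 + d 4 + 0)
      (by simp [chi, XV.eS, XV.eT] <;> omega) (by simpa [parity_simps] using he)
      (by simp [chi, XV.eS, XV.eT] <;> omega)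
      (by intro l _; fin_cases l <;> simp [chi, XV.eS, XV.eT] <;> omega)
    have s1 := st hD k Ω u v 3 (d + chi 7) (d 0 + d 1 + d 2 + d 3 + d 4 + 2)
      (by simp [chi, XV.eS, XV.eT] <;> omega) (by simpa [parity_simps] using he)
      (by simp [chi, XV.eS, XV.eT] <;> omega)
      (by intro l _; fin_cases l <;> simp [chi, XV.eS, XV.eT] <;> omega)
    have s2 := st hD k Ω u v 6 (d + chi 7 + chi 3) (d 0 + d 1 + d 2 + d 3 + d 4 + 4)
      (by simp [chi, XV.eS, XV.eT] <;> omega) (by simpa [parity_simps] using he)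
      (by simp [chi, XV.eS, XV.eT] <;> omega)
      (by intro l _; fin_cases l <;> simp [chi, XV.eS, XV.eT] <;> omega)
    show 2 * Module.finrank k (Sec u v k (d + hH 4)) + 2 * d 4 ≤
      2 * Module.finrank k (Sec u v k d) + (d 0 + d 1 + d 2 + d 3 + d 4) + 4
    rw [e]
    simp [chi, XV.eS, XV.eT] at s0 s1 s2 ⊢
    omega

end DUP_

open DUP_ in
theorem dup_proof (hNFD : Stmt_NFD) (hDST : Stmt_DST) : Stmt_DUP := by
  intro k Ω _ _ _ u v d hd
  obtain ⟨s, hs⟩ : ∃ s, s = ∑ i, d i := ⟨_, rfl⟩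
  induction s using Nat.strong_induction_on generalizing d with
  | _ s ih =>
    rcases hNFD d hd with h0 | ⟨d', hd', i, h | h⟩
    · subst h0
      have h1 : Module.finrank k (Sec u v k 0) ≤ 1 := by
        have : Sec u v k 0 ≤ Submodule.span k {(1 : Ω)} := by
          unfold Sec
          rw [Submodule.span_le]
          rintro _ ⟨e, he, rfl⟩
          have e0 : e = 0 := by
            funext κ
            have := mon_le he κ
            simpa using this
          rw [e0]
          exact Submodule.subset_span (mP_zero (pk u v))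
        exact (Submodule.finrank_mono this).trans (finrank_span_le_card _ |>.trans (by simp))
      simp only [Pi.zero_apply, Finset.sum_const_zero]
      simp
      omega
    · have hlt : ∑ j, d' j < s := by
        rw [hs, h]
        simp only [Pi.add_apply]
        rw [Finset.sum_add_distrib]
        have : 0 < ∑ j, fF i j := by
          fin_cases i <;> simp [fF, Fin.sum_univ_succ]
        omega
      have := ih _ hlt d' hd' rfl
      have h2 := fF_step hDST k Ω u v d' hd' i
      rw [← h] at h2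
      have h3 : ∑ j, d j = ∑ j, d' j + 4 := by
        rw [h]
        simp only [Pi.add_apply]
        rw [Finset.sum_add_distrib]
        congr 1
        fin_cases i <;> simp [fF, Fin.sum_univ_succ]
      have h4 : ∑ j, d j ^ 2 + 2 * d' i = ∑ j, d' j ^ 2 + 2 * ∑ j, d' j + 4 := by
        rw [h, sum5 d']
        simp only [Pi.add_apply]
        fin_cases i <;> simp [fF, Fin.sum_univ_succ] <;> ring
      rw [h3]
      nlinarith
    · have hlt : ∑ j, d' j < s := by
        rw [hs, h]
        simp only [Pi.add_apply]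
        rw [Finset.sum_add_distrib]
        have : 0 < ∑ j, hH i j := by
          fin_cases i <;> simp [hH, Fin.sum_univ_succ]
        omega
      have := ih _ hlt d' hd' rfl
      have h2 := hH_step hDST k Ω u v d' hd' i
      rw [← h, ← sum5] at h2
      have h3 : ∑ j, d j = ∑ j, d' j + 6 := by
        rw [h]
        simp only [Pi.add_apply]
        rw [Finset.sum_add_distrib]
        congr 1
        fin_cases i <;> simp [hH, Fin.sum_univ_succ]
      have h4 : ∑ j, d j ^ 2 = ∑ j, d' j ^ 2 + 2 * ∑ j, d' j + 2 * d' i + 8 := by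
        rw [h, sum5 d']
        simp only [Pi.add_apply]
        fin_cases i <;> simp [hH, Fin.sum_univ_succ] <;> ring
      rw [h3]
      nlinarith

end Pool.Agent.SFS
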