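import Pool.Agent.SFS.Stmts

/-!
Module FIN of squad SFS: the function field is finite over the plane.
-/

set_option autoImplicit false

noncomputable section

namespace Pool.Agent.SFS

open scoped Classical
open Pool.Agent.SFB

namespace FIN_

variable {k Ω : Type} [Field k] [Field Ω] [Algebra k Ω]

lemma int_PF (σ : Fin 3 → Ω) (h0 : σ 0 ≠ 0) {f : Ω} (h : IntS k σ 1 1 f) :
    IsIntegral (PF k σ) (f / σ 0) := by
  have h1 := h 0
  rw [pow_one, pow_one] at h1
  have h2 : Algebra.adjoin k (Set.range fun j => σ j / σ 0) ≤ (PF k σ).toSubalgebra := by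
    rw [Algebra.adjoin_le_iff]
    rintro _ ⟨j, rfl⟩
    have h3 : σ j / σ 0 ∈ PF k σ := by
      fin_cases j
      · show σ 0 / σ 0 ∈ _
        rw [div_self h0]
        exact one_mem _
      · exact IntermediateField.mem_adjoin_pair_left k _ _
      · exact IntermediateField.mem_adjoin_pair_right k _ _
    exact h3
  let _ : Algebra (Algebra.adjoin k (Set.range fun j => σ j / σ 0)) (PF k σ) :=
    (Subalgebra.inclusion h2).toRingHom.toAlgebra
  have ht : IsScalarTower (Algebra.adjoin k (Set.range fun j => σ j / σ 0)) (PF k σ) Ω :=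
    IsScalarTower.of_algebraMap_eq fun x => rfl
  exact h1.tower_top

end FIN_

open FIN_ in
theorem fin_proof (hUVG : Stmt_UVG) (hINT : Stmt_INT) : Stmt_FIN := by
  intro k Ω _ _ _ u v huv d hd hbig σ hfree hσ
  have hle : PF k σ ≤ UV u v k := by
    refine IntermediateField.adjoin_le_iff.2 ?_
    rintro _ (rfl | rfl)
    · exact div_mem (Sec_le_UV (hfree.sec 1)) (Sec_le_UV (hfree.sec 0))
    · exact div_mem (Sec_le_UV (hfree.sec 2)) (Sec_le_UV (hfree.sec 0))
  have hmo : ∀ e, Mon d e → IsIntegral (PF k σ) (mo u v e / σ 0) := by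
    intro e he
    refine int_PF σ (hσ 0) (hINT k Ω u v huv d hd σ hfree hσ 1 _ ?_)
    have h1 : (fun i => 1 * d i) = d := by
      funext i
      rw [one_mul]
    rw [h1]
    exact mo_mem k u v he
  have hE := hUVG k Ω u v (pk_ne huv) d hd hbig
    ((algebraicClosure (PF k σ) Ω).restrictScalars k) (by
      intro e e' he he'
      have h1 : mo u v e' / mo u v e = (mo u v e' / σ 0) / (mo u v e / σ 0) := by
        rw [div_div_div_cancel_right₀ (hσ 0)]
      rw [h1]
      exact div_mem (mem_algebraicClosure_iff'.2 (hmo e' he'))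
        (mem_algebraicClosure_iff'.2 (hmo e he)))
  have hu : IsIntegral (PF k σ) u := mem_algebraicClosure_iff'.1 hE.1
  have hv : IsIntegral (PF k σ) v := mem_algebraicClosure_iff'.1 hE.2
  rw [IntermediateField.relfinrank_eq_finrank_of_le hle]
  unfold UV
  rw [IntermediateField.extendScalars_adjoin]
  have hfin : FiniteDimensional (PF k σ) (IntermediateField.adjoin (PF k σ) {u, v}) := by
    refine IntermediateField.finiteDimensional_adjoin ?_
    rintro _ (rfl | rfl)
    · exact hu
    · exact hv
  exact Module.finrank_pos.ne'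

end Pool.Agent.SFS
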