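import Pool.Agent.SFS.Stmts

/-!
# FVP: five points with given local coordinates
-/

set_option autoImplicit false

noncomputable section

namespace Pool.Agent.SFS

open scoped Classical
open Pool.Agent.SFB

theorem fvp_proof : Stmt_FVP := by
  intro Ω _ x y hx hy h1x h1y h1xy
  have hu0 : 1 - 1 / (x * y) ≠ 0 := by
    intro h
    apply h1xy
    field_simp at h
    linear_combination -h
  have hu1 : (1 : Ω) - (1 - 1 / (x * y)) ≠ 0 := by
    have : (1 : Ω) - (1 - 1 / (x * y)) = 1 / (x * y) := by ring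
    rw [this]
    exact one_div_ne_zero (mul_ne_zero hx hy)
  have hv0 : (1 - 1 / (x * y)) * y / (1 + y) ≠ 0 :=
    div_ne_zero (mul_ne_zero hu0 hy) h1y
  have hv1 : (1 : Ω) - (1 - 1 / (x * y)) * y / (1 + y) ≠ 0 := by
    have : (1 : Ω) - (1 - 1 / (x * y)) * y / (1 + y) = (1 + x) / (x * (1 + y)) := by
      field_simp
      ring
    rw [this]
    exact div_ne_zero h1x (mul_ne_zero hx h1y)
  have huv : (1 - 1 / (x * y)) - (1 - 1 / (x * y)) * y / (1 + y) =
      (1 - 1 / (x * y)) / (1 + y) := by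
    field_simp
    ring
  have huv0 : (1 - 1 / (x * y)) - (1 - 1 / (x * y)) * y / (1 + y) ≠ 0 := by
    rw [huv]
    exact div_ne_zero hu0 h1y
  generalize hu : (1 : Ω) - 1 / (x * y) = u at *
  generalize hv : u * y / (1 + y) = v at *
  have p0 : pk u v 0 = -1 := by simp [pk, pa, pb, XV.eS, XV.eT]
  have p1 : pk u v 1 = -1 := by simp [pk, pa, pb, XV.eS, XV.eT]
  have p3 : pk u v 3 = -v := by simp [pk, pa, pb, XV.eS, XV.eT]
  have p5 : pk u v 5 = 1 - u := by simp [pk, pa, pb, XV.eS, XV.eT]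
  have p7 : pk u v 7 = 1 := by simp [pk, pa, pb, XV.eS, XV.eT]
  have p9 : pk u v 9 = u - v := by simp [pk, pa, pb, XV.eS, XV.eT]
  have hu' : 1 - u = 1 / (x * y) := by rw [← hu]; ring
  refine ⟨u, v, ?_, ?_, ?_⟩
  · intro k
    fin_cases k <;> simp [pk, pa, pb, XV.eS, XV.eT, hu0, hu1, hv0, hv1, huv0]
  · unfold sx
    rw [p0, p9, p3, p5, huv, hu', ← hv]
    field_simp
  · unfold sy
    rw [p7, p3, p1, p9, huv, ← hv]
    field_simp

end Pool.Agent.SFS
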