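import Pool.Agent.SFS.Stmts

/-!
# SFS / GEP: the generic points of the ten curves
-/

set_option autoImplicit false

noncomputable section

namespace Pool.Agent.SFS

open scoped Classical
open Pool.Agent.SFB

namespace GEP_

variable {Ω : Type} [Field Ω]

theorem val_unit (V : ValuationSubring Ω) {x : Ω} (h0 : x ≠ 0) (h : x ∈ V) (h' : x⁻¹ ∈ V) :
    V.valuation x = 1 := by
  apply le_antisymm
  · exact (V.valuation_le_one_iff x).2 h
  · have h1 := (V.valuation_le_one_iff x⁻¹).2 h'
    rw [map_inv₀] at h1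
    exact (inv_le_one₀ (zero_lt_iff.2 ((Valuation.ne_zero_iff _).2 h0))).1 h1

theorem rel (P : Fin 10 → Ω) (hP : Plk P) (h : ∀ k, P k ≠ 0) :
    1 + sx P ≠ 0 ∧ 1 + sy P ≠ 0 ∧ 1 - sx P * sy P ≠ 0 ∧ sx P ≠ 0 ∧ sy P ≠ 0 ∧
      1 + sy P = P 2 * P 8 / (P 1 * P 9) := by
  have e1 : 1 + sx P = P 2 * P 6 / (P 3 * P 5) := by
    unfold sx
    have h3 := h 3
    have h5 := h 5
    field_simp
    linear_combination hP.r2
  have e2 : 1 + sy P = P 2 * P 8 / (P 1 * P 9) := by
    unfold sy
    have h3 := h 1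
    have h5 := h 9
    field_simp
    linear_combination hP.r1
  have e3 : 1 - sx P * sy P = P 2 * P 4 / (P 1 * P 5) := by
    unfold sx sy
    have h1 := h 1
    have h3 := h 3
    have h5 := h 5
    have h9 := h 9
    field_simp
    linear_combination (-1) * hP.r4
  refine ⟨?_, ?_, ?_, ?_, ?_, e2⟩
  · rw [e1]
    exact div_ne_zero (mul_ne_zero (h _) (h _)) (mul_ne_zero (h _) (h _))
  · rw [e2]
    exact div_ne_zero (mul_ne_zero (h _) (h _)) (mul_ne_zero (h _) (h _))
  · rw [e3]
    exact div_ne_zero (mul_ne_zero (h _) (h _)) (mul_ne_zero (h _) (h _))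
  · exact div_ne_zero (mul_ne_zero (h _) (h _)) (mul_ne_zero (h _) (h _))
  · exact div_ne_zero (mul_ne_zero (h _) (h _)) (mul_ne_zero (h _) (h _))

theorem pe_inj (π : Equiv.Perm (Fin 5)) {a b : Fin 10} (h : XV.pe π a = XV.pe π b) : a = b := by
  have h1 := congrArg (XV.pe π⁻¹) h
  rw [← XV.pe_mul, ← XV.pe_mul, inv_mul_cancel, XV.pe_one, XV.pe_one] at h1
  exact h1

theorem mo_ind (u v : Ω) (a : Fin 10) : mo u v (XV.ind a) = pk u v a := by
  unfold mo XV.ind
  rw [Finset.prod_eq_single a]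
  · simp
  · intro b _ hb
    simp [hb]
  · intro h
    exact absurd (Finset.mem_univ a) h

theorem mo_two (u v : Ω) (a b : Fin 10) :
    mo u v (XV.ind a + XV.ind b) = pk u v a * pk u v b := by
  have h : mo u v (XV.ind a + XV.ind b) = mo u v (XV.ind a) * mo u v (XV.ind b) :=
    mP_add (pk u v) _ _
  rw [h, mo_ind, mo_ind]

theorem chi_pe (π : Equiv.Perm (Fin 5)) (k : Fin 10) (i : Fin 5) :
    chi (XV.pe π k) i = chi k (π⁻¹ i) := by
  have h := XV.pe_end π k (π⁻¹ i)
  have h2 : π (π⁻¹ i) = i := π.apply_symm_apply i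
  rw [h2] at h
  unfold chi
  exact if_congr h rfl rfl

/-- ratios of products of two brackets -/
theorem ratio {u v : Ω} {V : ValuationSubring Ω} {x : V.ValueGroup} {j : Fin 10}
    (hx : ∀ d, ∃ c : V.ValueGroup, c ≠ 0 ∧ ∀ e, Mon d e → V.valuation (mo u v e) = c * x ^ e j)
    (π : Equiv.Perm (Fin 5)) (hj : XV.pe π 0 = j)
    (hbk : ∀ k, bk u v π k = pk u v (XV.pe π k) ∨ bk u v π k = -pk u v (XV.pe π k))
    (a b c d : Fin 10) (hchi : ∀ i, chi a i + chi b i = chi c i + chi d i) (hc : c ≠ 0)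
    (hd : d ≠ 0) (hb : b ≠ 0) :
    V.valuation (bk u v π a * bk u v π b / (bk u v π c * bk u v π d)) =
      if a = 0 then x else 1 := by
  have hv : ∀ k, V.valuation (bk u v π k) = V.valuation (pk u v (XV.pe π k)) := by
    intro k
    rcases hbk k with h | h
    · rw [h]
    · rw [h, Valuation.map_neg]
  rw [map_div₀, map_mul, map_mul, hv, hv, hv, hv, ← map_mul, ← map_mul, ← mo_two, ← mo_two]
  obtain ⟨C, hC, h1⟩ := hx (chi (XV.pe π a) + chi (XV.pe π b))
  have e1 : chi (XV.pe π a) + chi (XV.pe π b) = chi (XV.pe π c) + chi (XV.pe π d) := by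
    funext i
    rw [Pi.add_apply, Pi.add_apply, chi_pe, chi_pe, chi_pe, chi_pe]
    exact hchi _
  have m1 : Mon (chi (XV.pe π a) + chi (XV.pe π b)) (XV.ind (XV.pe π a) + XV.ind (XV.pe π b)) :=
    mon_add (mon_ind _) (mon_ind _)
  have m2 : Mon (chi (XV.pe π a) + chi (XV.pe π b)) (XV.ind (XV.pe π c) + XV.ind (XV.pe π d)) := by
    rw [e1]
    exact mon_add (mon_ind _) (mon_ind _)
  have hi : ∀ k, XV.ind (XV.pe π k) j = if k = 0 then 1 else 0 := by
    intro k
    unfold XV.ind
    by_cases hk : k = 0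
    · subst hk
      simp [hj]
    · rw [if_neg hk, if_neg]
      intro h
      apply hk
      rw [← hj] at h
      first
        | exact pe_inj π h
        | exact (pe_inj π h).symm
  rw [h1 _ m1, h1 _ m2]
  simp only [Pi.add_apply, hi, if_neg hc, if_neg hd, if_neg hb, add_zero, pow_zero, mul_one]
  by_cases ha : a = 0
  · rw [if_pos ha, if_pos ha, pow_one, mul_comm, mul_div_assoc, div_self hC, mul_one]
  · rw [if_neg ha, if_neg ha, pow_zero, mul_one, div_self hC]

theorem alg {C : Ω} (hC : C ≠ 0) {S T A B D T' A' B' D' : Ω} :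
    C * S * T * A * B * D / (C * T' * A' * B' * D') =
      (S * T * A * B * D) * (T' * A' * B' * D')⁻¹ := by
  rw [show C * S * T * A * B * D = C * (S * T * A * B * D) by ring,
    show C * T' * A' * B' * D' = C * (T' * A' * B' * D') by ring, mul_div_mul_left _ _ hC,
    div_eq_mul_inv]

section cst

variable {k : Type} [Field k] [Algebra k Ω]

/-- `f` is congruent to a constant -/
def Cst (k : Type) [Field k] [Algebra k Ω] (V : ValuationSubring Ω) (f : Ω) : Prop :=
  ∃ c : k, V.valuation (f - algebraMap k Ω c) < 1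

variable {V : ValuationSubring Ω} (hV : KV k V)

include hV

theorem kle (c : k) : V.valuation (algebraMap k Ω c) ≤ 1 := (V.valuation_le_one_iff _).2 (hV c)

theorem Cst.le {f : Ω} (h : Cst k V f) : V.valuation f ≤ 1 := by
  obtain ⟨c, hc⟩ := h
  have h1 : f = (f - algebraMap k Ω c) + algebraMap k Ω c := by ring
  rw [h1]
  exact (Valuation.map_add _ _ _).trans (max_le hc.le (kle hV c))

theorem Cst.mul {f g : Ω} (hf : Cst k V f) (hg : Cst k V g) : Cst k V (f * g) := by
  have hf' := hf.le hV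
  obtain ⟨c, hc⟩ := hf
  obtain ⟨d, hd⟩ := hg
  refine ⟨c * d, ?_⟩
  have h1 : f * g - algebraMap k Ω (c * d) = f * (g - algebraMap k Ω d) +
      (f - algebraMap k Ω c) * algebraMap k Ω d := by
    rw [map_mul]
    ring
  rw [h1]
  refine (Valuation.map_add _ _ _).trans_lt (max_lt ?_ ?_)
  · rw [map_mul]
    exact mul_lt_one_of_nonneg_of_lt_one_right hf' zero_le' hd
  · rw [map_mul]
    exact mul_lt_one_of_nonneg_of_lt_one_left zero_le' hc (kle hV d)

theorem Cst.const (c : k) : Cst k V (algebraMap k Ω c) := ⟨c, by rw [sub_self, map_zero]; exact zero_lt_one⟩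

theorem Cst.pow {f : Ω} (hf : Cst k V f) (n : ℕ) : Cst k V (f ^ n) := by
  induction n with
  | zero =>
    rw [pow_zero, ← map_one (algebraMap k Ω)]
    exact Cst.const hV 1
  | succ n ih =>
    rw [pow_succ]
    exact ih.mul hV hf

theorem Cst.add {f g : Ω} (hf : Cst k V f) (hg : Cst k V g) : Cst k V (f + g) := by
  obtain ⟨c, hc⟩ := hf
  obtain ⟨d, hd⟩ := hg
  refine ⟨c + d, ?_⟩
  have h1 : f + g - algebraMap k Ω (c + d) = (f - algebraMap k Ω c) + (g - algebraMap k Ω d) := by
    rw [map_add]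
    ring
  rw [h1]
  exact (Valuation.map_add _ _ _).trans_lt (max_lt hc hd)

theorem Cst.neg {f : Ω} (hf : Cst k V f) : Cst k V (-f) := by
  have h := (Cst.const hV (-1 : k)).mul hV hf
  rw [map_neg, map_one, neg_one_mul] at h
  exact h

theorem Cst.inv {f : Ω} (hf : Cst k V f) (h1 : V.valuation f = 1) : Cst k V f⁻¹ := by
  obtain ⟨c, hc⟩ := hf
  have hf0 : f ≠ 0 := by
    rintro rfl
    rw [map_zero] at h1
    exact zero_ne_one h1
  have hc0 : c ≠ 0 := by
    rintro rfl
    rw [map_zero, sub_zero, h1] at hc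
    exact lt_irrefl _ hc
  have hc0' : algebraMap k Ω c ≠ 0 := fun h => hc0 ((algebraMap k Ω).injective (h.trans
    (map_zero _).symm))
  refine ⟨c⁻¹, ?_⟩
  have h2 : f⁻¹ - algebraMap k Ω c⁻¹ = -(f - algebraMap k Ω c) * (f⁻¹ * algebraMap k Ω c⁻¹) := by
    rw [map_inv₀]
    field_simp
    ring
  rw [h2, map_mul, Valuation.map_neg]
  refine mul_lt_one_of_nonneg_of_lt_one_left zero_le' hc ?_
  rw [map_mul, map_inv₀, h1, inv_one, one_mul]
  exact kle hV _

end cst

end GEP_

open GEP_ in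
theorem gep_proof (hPLB : Stmt_PLB) (hLOC : Stmt_LOC) (hTNF : Stmt_TNF) (hTPC : Stmt_TPC)
    (hONC : Stmt_ONC) (hCRV : SFB.Stmt_CRV) : Stmt_GEP := by
  intro k Ω _ _ _ _ u v hind V hcur j hj π hπ
  have hpk := pk_ne hind
  have hbk0 : ∀ ρ, ∀ k, bk u v ρ k ≠ 0 := by
    intro ρ k
    rcases (hPLB Ω u v ρ).2.1 k with h | h
    · rw [h]
      exact hpk _
    · rw [h]
      exact neg_ne_zero.2 (hpk _)
  -- the valuation of monomials
  have hx : ∃ x : V.ValueGroup, x < 1 ∧ ∀ d, ∃ c : V.ValueGroup, c ≠ 0 ∧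
      ∀ e, Mon d e → V.valuation (mo u v e) = c * x ^ e j := by
    obtain ⟨π0, hch⟩ := hTNF Ω u v hpk V
    obtain ⟨hP, hsgn, hmo, hmon, -, -⟩ := hPLB Ω u v π0
    obtain ⟨r1, r2, r3, r4, r5, -⟩ := rel _ hP (hbk0 π0)
    have u1 : V.valuation (1 + sx (bk u v π0)) = 1 :=
      val_unit V r1 (add_mem (one_mem _) hch.x) hch.ux
    have u2 : V.valuation (1 + sy (bk u v π0)) = 1 :=
      val_unit V r2 (add_mem (one_mem _) hch.y) hch.uy
    have u3 : V.valuation (1 - sx (bk u v π0) * sy (bk u v π0)) = 1 :=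
      val_unit V r3 (sub_mem (one_mem _) (mul_mem hch.x hch.y)) hch.uxy
    have key : ∀ d, ∃ c : V.ValueGroup, c ≠ 0 ∧ ∀ e, Mon d e → V.valuation (mo u v e) =
        c * V.valuation (sx (bk u v π0)) ^ e (XV.pe π0 0) *
          V.valuation (sy (bk u v π0)) ^ e (XV.pe π0 7) := by
      intro d
      obtain ⟨C, hC, h1⟩ := hLOC Ω (bk u v π0) hP (hbk0 π0) (fun i => d (π0 i))
      refine ⟨V.valuation C, (Valuation.ne_zero_iff _).2 hC, ?_⟩
      intro e he
      have h2 : V.valuation (mo u v e) = V.valuation (mP (bk u v π0) (fun k => e (XV.pe π0 k))) := by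
        rcases hmo e with h | h
        · rw [h]
        · rw [h, Valuation.map_neg]
      rw [h2, h1 _ ((hmon d e).1 he)]
      simp only [map_mul, map_pow, u1, u2, u3, one_pow, mul_one]
    have hne : XV.pe π0 0 ≠ XV.pe π0 7 := fun h => absurd (pe_inj π0 h) (by decide)
    rcases (hONC Ω u v hpk V π0 hch j).1 hj with ⟨h1, h2⟩ | ⟨h1, h2⟩
    · -- the first coordinate
      have h3 : (sy (bk u v π0))⁻¹ ∈ V := by
        by_contra h
        exact hCRV k Ω u v hind V hcur (XV.pe π0 7) j hj (fun h' => hne (h1 ▸ h'.symm))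
          ((hONC Ω u v hpk V π0 hch _).2 (Or.inr ⟨rfl, h⟩))
      have h4 : V.valuation (sy (bk u v π0)) = 1 := val_unit V r5 hch.y h3
      refine ⟨V.valuation (sx (bk u v π0)), ?_, ?_⟩
      · refine lt_of_le_of_ne ((V.valuation_le_one_iff _).2 hch.x) fun h => h2 ?_
        rw [← V.valuation_le_one_iff, map_inv₀, h, inv_one]
      · intro d
        obtain ⟨c, hc, h5⟩ := key d
        refine ⟨c, hc, fun e he => ?_⟩
        rw [h5 e he, h4, one_pow, mul_one, h1]
    · have h3 : (sx (bk u v π0))⁻¹ ∈ V := by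
        by_contra h
        exact hCRV k Ω u v hind V hcur (XV.pe π0 0) j hj (fun h' => hne (h'.trans h1))
          ((hONC Ω u v hpk V π0 hch _).2 (Or.inl ⟨rfl, h⟩))
      have h4 : V.valuation (sx (bk u v π0)) = 1 := val_unit V r4 hch.x h3
      refine ⟨V.valuation (sy (bk u v π0)), ?_, ?_⟩
      · refine lt_of_le_of_ne ((V.valuation_le_one_iff _).2 hch.y) fun h => h2 ?_
        rw [← V.valuation_le_one_iff, map_inv₀, h, inv_one]
      · intro d
        obtain ⟨c, hc, h5⟩ := key d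
        refine ⟨c, hc, fun e he => ?_⟩
        rw [h5 e he, h4, one_pow, mul_one, h1]
  obtain ⟨x, hx1, hx⟩ := hx
  obtain ⟨hP, hsgn, hmo, hmon, -, -⟩ := hPLB Ω u v π
  obtain ⟨r1, r2, r3, r4, r5, r6⟩ := rel _ hP (hbk0 π)
  have v1 : V.valuation (sx (bk u v π)) = x := by
    unfold sx
    rw [ratio hx π hπ hsgn 0 9 3 5 (by decide) (by decide) (by decide) (by decide), if_pos rfl]
  have v2 : V.valuation (sy (bk u v π)) = 1 := by
    unfold sy
    rw [ratio hx π hπ hsgn 7 3 1 9 (by decide) (by decide) (by decide) (by decide),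
      if_neg (by decide)]
  have v3 : V.valuation (1 + sy (bk u v π)) = 1 := by
    rw [r6, ratio hx π hπ hsgn 2 8 1 9 (by decide) (by decide) (by decide) (by decide),
      if_neg (by decide)]
  have v4 : V.valuation (1 + sx (bk u v π)) = 1 := by
    rw [Valuation.map_one_add_of_lt]
    rw [v1]
    exact hx1
  have v5 : V.valuation (1 - sx (bk u v π) * sy (bk u v π)) = 1 := by
    rw [Valuation.map_one_sub_of_lt]
    rw [map_mul, v1, v2, mul_one]
    exact hx1
  have hch : Chart V (bk u v π) := by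
    refine ⟨?_, ?_, ?_, ?_, ?_⟩
    · rw [← V.valuation_le_one_iff, v1]
      exact hx1.le
    · rw [← V.valuation_le_one_iff, v2]
    · rw [← V.valuation_le_one_iff, map_inv₀, v4, inv_one]
    · rw [← V.valuation_le_one_iff, map_inv₀, v3, inv_one]
    · rw [← V.valuation_le_one_iff, map_inv₀, v5, inv_one]
  refine ⟨?_, ?_, hch⟩
  · rw [ValuationSubring.mem_nonunits_iff, v1]
    exact hx1
  · intro a ha
    have hV := hcur.kv
    obtain ⟨d, e, e', hd, htop, he', hgen⟩ := hcur.tr
    obtain ⟨he, h0, -⟩ := (hTPC Ω u v hpk V π hch d hd e).1 htop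
    have h0' : e (XV.pe π 0) = 0 := by
      rcases h0 with h | h
      · exact h
      · exfalso
        have h1 := (V.valuation_le_one_iff _).2 h
        rw [map_inv₀, v1] at h1
        have hx0 : x ≠ 0 := by
          rw [← v1]
          exact (Valuation.ne_zero_iff _).2 r4
        rw [inv_le_one₀ (zero_lt_iff.2 hx0)] at h1
        exact absurd hx1 (not_lt.2 h1)
    obtain ⟨C, hC, hloc⟩ := hLOC Ω (bk u v π) hP (hbk0 π) (fun i => d (π i))
    have l1 := hloc _ ((hmon d e).1 he)
    have l2 := hloc _ ((hmon d e').1 he')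
    have c1 : Cst k V (sx (bk u v π)) := ⟨0, by rw [map_zero, sub_zero, v1]; exact hx1⟩
    have c2 : Cst k V (sy (bk u v π)) :=
      ⟨a, (ValuationSubring.mem_nonunits_iff V).1 ha⟩
    have c0 : Cst k V 1 := by
      rw [← map_one (algebraMap k Ω)]
      exact Cst.const hV 1
    have c3 : Cst k V (1 + sx (bk u v π)) := c0.add hV c1
    have c4 : Cst k V (1 + sy (bk u v π)) := c0.add hV c2
    have c5 : Cst k V (1 - sx (bk u v π) * sy (bk u v π)) := by
      rw [sub_eq_add_neg]
      exact c0.add hV ((c1.mul hV c2).neg hV)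
    have hcst : Cst k V (mP (bk u v π) (fun k => e' (XV.pe π k)) /
        mP (bk u v π) (fun k => e (XV.pe π k))) := by
      rw [l1, l2]
      simp only [h0', pow_zero, mul_one]
      rw [alg hC]
      refine Cst.mul hV ?_ (Cst.inv hV ?_ ?_)
      · exact ((((c1.pow hV _).mul hV (c2.pow hV _)).mul hV (c3.pow hV _)).mul hV
          (c4.pow hV _)).mul hV (c5.pow hV _)
      · exact (((c2.pow hV _).mul hV (c3.pow hV _)).mul hV (c4.pow hV _)).mul hV (c5.pow hV _)
      · simp only [map_mul, map_pow, v2, v3, v4, v5, one_pow, mul_one]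
    have hcst' : Cst k V (mo u v e' / mo u v e) := by
      rcases hmo e' with h1 | h1 <;> rcases hmo e with h2 | h2
      · rw [h1, h2] at hcst
        exact hcst
      · rw [h1, h2] at hcst
        have := hcst.neg hV
        rwa [div_neg, neg_neg] at this
      · rw [h1, h2] at hcst
        have := hcst.neg hV
        rwa [neg_div, neg_neg] at this
      · rw [h1, h2, neg_div_neg_eq] at hcst
        exact hcst
    obtain ⟨c, hc⟩ := hcst'
    exact hgen c ((ValuationSubring.mem_nonunits_iff V).2 hc)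

end Pool.Agent.SFS
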