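import Pool.Agent.SFS.Stmts

/-!
# SFS, module GNS: generic solutions
-/

set_option autoImplicit false

noncomputable section

namespace Pool.Agent.SFS

open scoped Classical
open Pool.Agent.SFB

namespace GNS_

/-- Points of the polytope with `w = 0`. -/
def pt0 (e : Fin 10 → ℕ) (h : Mon (fun _ => 4) e) : XV.Pt :=
  ⟨0, e, ⟨fun i => by rw [h i], Nat.zero_le _, fun _ => Nat.zero_le _, fun _ => Nat.zero_le _,
    fun _ _ _ => Nat.zero_le _⟩⟩

theorem mon_of_w (c : XV.Pt) (hc : c.w = 0) : Mon (fun _ => 4) c.e := fun i => by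
  rw [c.adm.deg i, hc]

/-- The sign. -/
theorem bk_inv {Ω : Type} [Field Ω] (u v : Ω) (π : Equiv.Perm (Fin 5)) (k : Fin 10) :
    bk u v π⁻¹ (XV.pe π k) = (XV.sg π k : Ω) * pk u v k := by
  have hne : π (XV.eS k) ≠ π (XV.eT k) := fun h => XV.eS_ne_eT k (π.injective h)
  have key : ∀ k : Fin 10, ∀ a b : Fin 5, a ≠ b →
      (XV.eS (XV.ed a b) = a ∧ XV.eT (XV.ed a b) = b ∧ a < b) ∨
      (XV.eS (XV.ed a b) = b ∧ XV.eT (XV.ed a b) = a ∧ ¬ a < b) := by decide
  unfold XV.pe XV.sg bk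
  rcases key k _ _ hne with ⟨h1, h2, h3⟩ | ⟨h1, h2, h3⟩
  · rw [h1, h2, if_pos h3]
    simp [pk]
  · rw [h1, h2, if_neg h3]
    simp [pk]

theorem act_inv (π : Equiv.Perm (Fin 5)) (c : XV.Pt) : XV.act π (XV.act π⁻¹ c) = c := by
  have h : ∀ k, (XV.act π (XV.act π⁻¹ c)).e k = c.e k := fun k => by
    show c.e (XV.pe π⁻¹⁻¹ (XV.pe π⁻¹ k)) = c.e k
    rw [← XV.pe_mul, inv_inv, mul_inv_cancel, XV.pe_one]
  exact XV.Pt.ext rfl (funext h)

theorem sgn_sq (π : Equiv.Perm (Fin 5)) (c : XV.Pt) {Ω : Type} [Field Ω] :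
    (XV.sgn π c : Ω) * (XV.sgn π c : Ω) = 1 := by
  have h : XV.sgn π c * XV.sgn π c = 1 := by
    unfold XV.sgn
    rw [← Finset.prod_mul_distrib]
    refine Finset.prod_eq_one fun k _ => ?_
    rw [← mul_pow]
    have : XV.sg π k * XV.sg π k = 1 := by
      unfold XV.sg
      split_ifs <;> norm_num
    rw [this, one_pow]
  rw [← Int.cast_mul, h, Int.cast_one]

/-- The coordinates with `w = 0` as monomials in the permuted brackets. -/
theorem coord {Ω : Type} [Field Ω] (s : XV.Pt → Ω) (π : Equiv.Perm (Fin 5)) (u v l : Ω)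
    (h : ∀ c : XV.Pt, c.w = 0 → XV.tws π s c = l * mo u v c.e) (c : XV.Pt) (hc : c.w = 0) :
    s c = l * mP (bk u v π⁻¹) c.e := by
  set c' := XV.act π⁻¹ c with hc'
  have hw : c'.w = 0 := hc
  have h1 := h c' hw
  unfold XV.tws at h1
  rw [act_inv] at h1
  have h2 : s c = (XV.sgn π c' : Ω) * (l * mo u v c'.e) := by
    rw [← h1, ← mul_assoc, sgn_sq, one_mul]
  have h3 : mP (bk u v π⁻¹) c.e = (XV.sgn π c' : Ω) * mo u v c'.e := by
    unfold mP mo XV.sgn
    rw [← Equiv.prod_comp (XV.peE π)]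
    push_cast
    rw [← Finset.prod_mul_distrib]
    refine Finset.prod_congr rfl fun k _ => ?_
    have h4 : (XV.peE π) k = XV.pe π k := rfl
    have h5 : c'.e k = c.e (XV.pe π k) := by
      show c.e (XV.pe π⁻¹⁻¹ k) = _
      rw [inv_inv]
    rw [h4, bk_inv, h5, mul_pow]
  rw [h2, h3]
  ring

end GNS_

open GNS_ in
theorem gns_proof (hPLB : Stmt_PLB) (hLOC : Stmt_LOC) (hCHS : Stmt_CHS) (hFVP : Stmt_FVP)
    (hSTD : Stmt_STD) (hSCA : Stmt_SCA) (hTRD : Stmt_TRD) : SFB.Stmt_GNS := by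
  intro k Ω _ _ _ _ s hs hw c₀ hc₀ hfg
  obtain ⟨f, g, hf, hg, hind⟩ := hfg
  obtain ⟨π, z, x, y, hz, hx1, hy1, hxy1, hsol⟩ := hCHS Ω s hs hw ⟨c₀, hc₀⟩
  have hc₀w : c₀.w = 0 := by
    by_contra h
    exact hc₀ (hw c₀ (Nat.one_le_iff_ne_zero.2 h))
  -- all coordinates in terms of `x`, `y`
  have hcoord : ∀ c : XV.Pt, c.w = 0 → s c = (XV.sgn π (XV.act π⁻¹ c) : Ω) *
      (z * x ^ c.e (XV.pe π 0) * y ^ c.e (XV.pe π 7) * (1 + x) ^ c.e (XV.pe π 6) *
        (1 + y) ^ c.e (XV.pe π 8) * (1 - x * y) ^ c.e (XV.pe π 4)) := fun c hc => by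
    have h1 := hsol (XV.act π⁻¹ c) hc
    unfold XV.tws at h1
    rw [act_inv] at h1
    have h5 : ∀ k, (XV.act π⁻¹ c).e k = c.e (XV.pe π k) := fun k => by
      show c.e (XV.pe π⁻¹⁻¹ k) = _
      rw [inv_inv]
    rw [h5, h5, h5, h5, h5] at h1
    rw [← h1, ← mul_assoc, sgn_sq, one_mul]
  -- if `x` and `y` lie in a field, so do all ratios
  have hratio : ∀ E : IntermediateField k Ω, x ∈ E → y ∈ E → ∀ c, s c / s c₀ ∈ E := by
    intro E hxE hyE c
    by_cases hc : c.w = 0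
    · have hE : ∀ c : XV.Pt, c.w = 0 → s c / z ∈ E := fun c hc => by
        have h6 : s c / z = (XV.sgn π (XV.act π⁻¹ c) : Ω) *
          (x ^ c.e (XV.pe π 0) * y ^ c.e (XV.pe π 7) * (1 + x) ^ c.e (XV.pe π 6) *
            (1 + y) ^ c.e (XV.pe π 8) * (1 - x * y) ^ c.e (XV.pe π 4)) := by
          rw [hcoord c hc]
          field_simp
        rw [h6]
        refine mul_mem (IntermediateField.intCast_mem E _) ?_
        exact mul_mem (mul_mem (mul_mem (mul_mem (pow_mem hxE _) (pow_mem hyE _))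
          (pow_mem (add_mem (one_mem _) hxE) _)) (pow_mem (add_mem (one_mem _) hyE) _))
          (pow_mem (sub_mem (one_mem _) (mul_mem hxE hyE)) _)
      have h7 := div_mem (hE c hc) (hE c₀ hc₀w)
      rwa [div_div_div_cancel_right₀ hz] at h7
    · rw [hw c (Nat.one_le_iff_ne_zero.2 hc), zero_div]
      exact zero_mem _
  have hle : ∀ E : IntermediateField k Ω, x ∈ E → y ∈ E → f ∈ E ∧ g ∈ E := by
    intro E hxE hyE
    have h8 : IntermediateField.adjoin k (Set.range fun c => s c / s c₀) ≤ E := by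
      rw [IntermediateField.adjoin_le_iff]
      rintro _ ⟨c, rfl⟩
      exact hratio E hxE hyE c
    exact ⟨h8 hf, h8 hg⟩
  -- `x` and `y` are not zero
  have halg : ∀ (E : IntermediateField k Ω) (a : Ω), a ∈ E → IsAlgebraic E a := fun E a ha => by
    have : a = algebraMap E Ω ⟨a, ha⟩ := rfl
    rw [this]
    exact isAlgebraic_algebraMap _
  have hnodup : ∀ a : Ω, ¬ AlgebraicIndependent k ![a, a] := fun a h => by
    have := h.injective (a₁ := (0 : Fin 2)) (a₂ := 1) (by simp)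
    exact absurd this (by decide)
  have hx : x ≠ 0 := by
    rintro rfl
    have h9 := hle (IntermediateField.adjoin k {y, y}) (zero_mem _)
      (IntermediateField.subset_adjoin _ _ (by simp))
    exact hnodup y (hTRD k Ω f g y y hind (halg _ _ h9.1) (halg _ _ h9.2))
  have hy : y ≠ 0 := by
    rintro rfl
    have h9 := hle (IntermediateField.adjoin k {x, x})
      (IntermediateField.subset_adjoin _ _ (by simp)) (zero_mem _)
    exact hnodup x (hTRD k Ω f g x x hind (halg _ _ h9.1) (halg _ _ h9.2))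
  -- five points
  obtain ⟨u1, v1, hpk, hsx, hsy⟩ := hFVP Ω x y hx hy hx1 hy1 hxy1
  have hPlk1 : Plk (pk u1 v1) := (hPLB Ω u1 v1 1).1
  obtain ⟨C, hC, hloc⟩ := hLOC Ω (pk u1 v1) hPlk1 hpk (fun _ => 4)
  have h10 : ∀ c : XV.Pt, c.w = 0 → XV.tws π s c = (z / C) * mo u1 v1 c.e := fun c hc => by
    have h11 := hloc c.e (mon_of_w c hc)
    rw [mP_pk, hsx, hsy] at h11
    rw [hsol c hc, h11]
    field_simp
  set B := bk u1 v1 π⁻¹ with hB
  have h12 := coord s π u1 v1 (z / C) h10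
  have hBne : ∀ k, B k ≠ 0 := fun κ => by
    rcases (hPLB Ω u1 v1 π⁻¹).2.1 κ with h | h <;> rw [hB, h]
    · exact hpk _
    · exact neg_ne_zero.2 (hpk _)
  obtain ⟨κ, μ, hκ, hμ, hstd⟩ := hSTD Ω B (hPLB Ω u1 v1 π⁻¹).1 hBne
  set u := -(B 2 * B 4) / (B 0 * B 7) with hu
  set v := -(B 3 * B 4) / (B 0 * B 8) with hv
  obtain ⟨l, hl, hsca⟩ := hSCA Ω (pk u v) B κ μ hκ hμ hstd (fun _ => 4)
  have hzC : z / C ≠ 0 := div_ne_zero hz hC
  have hfin : ∀ c : XV.Pt, c.w = 0 → s c = z / C / l * mo u v c.e := fun c hc => by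
    have h13 := hsca c.e (mon_of_w c hc)
    rw [mP_pk] at h13
    rw [h12 c hc, h13, hB]
    field_simp
  -- `u` and `v` are ratios of coordinates
  have hBm : ∀ (e e' : Fin 10 → ℕ) (h : Mon (fun _ => 4) e) (h' : Mon (fun _ => 4) e'),
      mP B e / mP B e' ∈ IntermediateField.adjoin k (Set.range fun c => s c / s c₀) := by
    intro e e' h h'
    have h14 : s (pt0 e h) = z / C * mP B e := h12 (pt0 e h) rfl
    have h15 : s (pt0 e' h') = z / C * mP B e' := h12 (pt0 e' h') rfl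
    have h16 : mP B e / mP B e' = (s (pt0 e h) / s c₀) / (s (pt0 e' h') / s c₀) := by
      rw [h14, h15]
      have := mP_ne hBne e'
      field_simp
    rw [h16]
    exact div_mem (IntermediateField.subset_adjoin _ _ ⟨_, rfl⟩)
      (IntermediateField.subset_adjoin _ _ ⟨_, rfl⟩)
  have huE : u ∈ IntermediateField.adjoin k (Set.range fun c => s c / s c₀) := by
    have h17 := hBm ![0, 1, 2, 1, 2, 1, 1, 0, 1, 1] ![1, 1, 1, 1, 1, 1, 1, 1, 1, 1]
      (by rw [mon_iff]; decide) (by rw [mon_iff]; decide)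
    have h18 : mP B ![0, 1, 2, 1, 2, 1, 1, 0, 1, 1] / mP B ![1, 1, 1, 1, 1, 1, 1, 1, 1, 1] = -u := by
      have b0 := hBne 0; have b1 := hBne 1; have b2 := hBne 2; have b3 := hBne 3
      have b4 := hBne 4; have b5 := hBne 5; have b6 := hBne 6; have b7 := hBne 7
      have b8 := hBne 8; have b9 := hBne 9
      rw [hu]
      simp only [mP, Fin.prod_univ_succ, Fin.prod_univ_zero]
      simp
      field_simp
    rw [h18] at h17
    simpa using neg_mem h17
  have hvE : v ∈ IntermediateField.adjoin k (Set.range fun c => s c / s c₀) := by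
    have h17 := hBm ![0, 1, 1, 2, 2, 1, 1, 1, 0, 1] ![1, 1, 1, 1, 1, 1, 1, 1, 1, 1]
      (by rw [mon_iff]; decide) (by rw [mon_iff]; decide)
    have h18 : mP B ![0, 1, 1, 2, 2, 1, 1, 1, 0, 1] / mP B ![1, 1, 1, 1, 1, 1, 1, 1, 1, 1] = -v := by
      have b0 := hBne 0; have b1 := hBne 1; have b2 := hBne 2; have b3 := hBne 3
      have b4 := hBne 4; have b5 := hBne 5; have b6 := hBne 6; have b7 := hBne 7
      have b8 := hBne 8; have b9 := hBne 9
      rw [hv]
      simp only [mP, Fin.prod_univ_succ, Fin.prod_univ_zero]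
      simp
      field_simp
    rw [h18] at h17
    simpa using neg_mem h17
  -- independence
  have huv : AlgebraicIndependent k ![u, v] := by
    have hE : IntermediateField.adjoin k (Set.range fun c => s c / s c₀) ≤
        IntermediateField.adjoin k {u, v} := by
      rw [IntermediateField.adjoin_le_iff]
      rintro _ ⟨c, rfl⟩
      by_cases hc : c.w = 0
      · show s c / s c₀ ∈ _
        have h19 : s c / s c₀ = mo u v c.e / mo u v c₀.e := by
          rw [hfin c hc, hfin c₀ hc₀w, mul_div_mul_left _ _ (div_ne_zero hzC hl)]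
        rw [h19]
        exact div_mem (mo_mem_UV u v _) (mo_mem_UV u v _)
      · show s c / s c₀ ∈ _
        rw [hw c (Nat.one_le_iff_ne_zero.2 hc), zero_div]
        exact zero_mem _
    exact hTRD k Ω f g u v hind (halg _ _ (hE hf)) (halg _ _ (hE hg))
  exact ⟨u, v, z / C / l, div_ne_zero hzC hl, huv, hfin, huE, hvE⟩

end Pool.Agent.SFS
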