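import Pool.Agent.SFS.Stmts

/-!
# IND: the local coordinates are independent
-/

set_option autoImplicit false

noncomputable section

namespace Pool.Agent.SFS

open scoped Classical
open Pool.Agent.SFB

theorem ind_proof (hTRD : Stmt_TRD) (hUVX : Stmt_UVX) : Stmt_IND := by
  intro k Ω _ _ _ u v h π
  have hmem := hUVX k Ω u v (pk_ne h) π
    (IntermediateField.adjoin k {sx (bk u v π), sy (bk u v π)})
    (IntermediateField.subset_adjoin _ _ (Set.mem_insert _ _))
    (IntermediateField.subset_adjoin _ _ (Set.mem_insert_of_mem _ rfl))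
  refine hTRD k Ω u v _ _ h ?_ ?_
  · exact isAlgebraic_algebraMap
      (⟨u, hmem.1⟩ : IntermediateField.adjoin k {sx (bk u v π), sy (bk u v π)})
  · exact isAlgebraic_algebraMap
      (⟨v, hmem.2⟩ : IntermediateField.adjoin k {sx (bk u v π), sy (bk u v π)})

end Pool.Agent.SFS
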