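import Pool.Agent.SFS.Stmts

/-!
# LOC: monomials in local coordinates
-/

set_option autoImplicit false

noncomputable section

namespace Pool.Agent.SFS

open scoped Classical
open Pool.Agent.SFB

namespace LOC_

theorem prod10 {Ω : Type} [Field Ω] (P : Fin 10 → Ω) (e : Fin 10 → ℕ) : mP P e =
    P 0 ^ e 0 * P 1 ^ e 1 * P 2 ^ e 2 * P 3 ^ e 3 * P 4 ^ e 4 * P 5 ^ e 5 * P 6 ^ e 6 *
      P 7 ^ e 7 * P 8 ^ e 8 * P 9 ^ e 9 := by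
  unfold mP
  rw [Fin.prod_univ_castSucc, Fin.prod_univ_castSucc, Fin.prod_univ_castSucc,
    Fin.prod_univ_castSucc, Fin.prod_univ_castSucc, Fin.prod_univ_castSucc,
    Fin.prod_univ_castSucc, Fin.prod_univ_castSucc, Fin.prod_univ_castSucc,
    Fin.prod_univ_castSucc, Fin.prod_univ_zero, one_mul]
  rfl

theorem key {Ω : Type} [Field Ω] (p0 p1 p2 p3 p4 p5 p6 p7 p8 p9 : Ω) (h1 : p1 ≠ 0) (h2 : p2 ≠ 0)
    (h3 : p3 ≠ 0) (h5 : p5 ≠ 0) (h9 : p9 ≠ 0) (e0 e1 e2 e3 e4 e5 e6 e7 e8 e9 : ℕ) :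
    p0 ^ e0 * p1 ^ e1 * p2 ^ e2 * p3 ^ e3 * p4 ^ e4 * p5 ^ e5 * p6 ^ e6 * p7 ^ e7 * p8 ^ e8 *
      p9 ^ e9 =
    (p1 ^ (e1 + e4 + e7 + e8) * p5 ^ (e0 + e4 + e5 + e6) *
      p2 ^ ((e2 : ℤ) - e4 - e6 - e8) * p3 ^ ((e0 : ℤ) + e3 + e6 - e7) *
      p9 ^ ((e7 : ℤ) + e8 + e9 - e0)) * (p0 * p9 / (p3 * p5)) ^ e0 * (p7 * p3 / (p1 * p9)) ^ e7 *
      (p2 * p6 / (p3 * p5)) ^ e6 * (p2 * p8 / (p1 * p9)) ^ e8 * (p2 * p4 / (p1 * p5)) ^ e4 := by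
  rw [zpow_sub₀ h2, zpow_sub₀ h2, zpow_sub₀ h2, zpow_sub₀ h3, zpow_add₀ h3, zpow_add₀ h3,
    zpow_sub₀ h9, zpow_add₀ h9, zpow_add₀ h9]
  simp only [zpow_natCast, div_pow, mul_pow, pow_add]
  field_simp

end LOC_

open LOC_ in
theorem loc_proof : Stmt_LOC := by
  intro Ω _ P hP hne d
  have h1 := hne 1
  have h2 := hne 2
  have h3 := hne 3
  have h5 := hne 5
  have h9 := hne 9
  refine ⟨P 1 ^ d 2 * P 5 ^ d 1 * P 2 ^ (((d 0 : ℤ) + d 3 - d 1 - d 2 - d 4) / 2) *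
    P 3 ^ (((d 0 : ℤ) + d 1 + d 4 - d 2 - d 3) / 2) *
    P 9 ^ (((d 2 : ℤ) + d 3 + d 4 - d 0 - d 1) / 2), ?_, ?_⟩
  · exact mul_ne_zero (mul_ne_zero (mul_ne_zero (mul_ne_zero (pow_ne_zero _ h1) (pow_ne_zero _ h5))
      (zpow_ne_zero _ h2)) (zpow_ne_zero _ h3)) (zpow_ne_zero _ h9)
  · intro e he
    obtain ⟨a0, a1, a2, a3, a4⟩ := (mon_iff d e).1 he
    have hs : 1 + sx P = P 2 * P 6 / (P 3 * P 5) := by
      have := hP.r2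
      unfold sx
      field_simp
      linear_combination this
    have ht : 1 + sy P = P 2 * P 8 / (P 1 * P 9) := by
      have := hP.r1
      unfold sy
      field_simp
      linear_combination this
    have hst : 1 - sx P * sy P = P 2 * P 4 / (P 1 * P 5) := by
      have := hP.r4
      unfold sx sy
      field_simp
      linear_combination -this
    have b1 : ((d 0 : ℤ) + d 3 - d 1 - d 2 - d 4) / 2 = (e 2 : ℤ) - e 4 - e 6 - e 8 := by omega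
    have b2 : ((d 0 : ℤ) + d 1 + d 4 - d 2 - d 3) / 2 = (e 0 : ℤ) + e 3 + e 6 - e 7 := by omega
    have b3 : ((d 2 : ℤ) + d 3 + d 4 - d 0 - d 1) / 2 = (e 7 : ℤ) + e 8 + e 9 - e 0 := by omega
    rw [hs, ht, hst, b1, b2, b3, prod10, ← a2, ← a1]
    unfold sx sy
    exact key _ _ _ _ _ _ _ _ _ _ h1 h2 h3 h5 h9 _ _ _ _ _ _ _ _ _ _

end Pool.Agent.SFS
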