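import Pool.Agent.SFS.Stmts

/-!
# LOW: many independent sections

The monomials of degree `4n` with `e 0 = s`, `e 7 = t` have distinct lowest terms in the local
coordinates.
-/

set_option autoImplicit false

noncomputable section

namespace Pool.Agent.SFS

open scoped Classical
open Pool.Agent.SFB

namespace LOW_

/-- The pairs of exponents. -/
def S (n : ℕ) : Finset (Σ _ : ℕ, ℕ) :=
  (Finset.range (4 * n)).sigma fun s => Finset.Ico (s - 2 * n) (min (s + 2 * n) (6 * n - s))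

theorem sum1 (m : ℕ) : 2 * ∑ j ∈ Finset.range m, j + m = m ^ 2 := by
  induction m with
  | zero => simp
  | succ m ih => rw [Finset.sum_range_succ]; nlinarith [ih]

theorem sum2 (n : ℕ) :
    ∑ j ∈ Finset.range (2 * n), (6 * n - j) + ∑ j ∈ Finset.range (2 * n), j = 12 * n ^ 2 := by
  rw [← Finset.sum_add_distrib]
  have h : ∀ j ∈ Finset.range (2 * n), 6 * n - j + j = 6 * n := by
    intro j hj
    rw [Finset.mem_range] at hj
    omega
  rw [Finset.sum_congr rfl h, Finset.sum_const, Finset.card_range, smul_eq_mul]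
  ring

theorem S_card (n : ℕ) : 10 * n ^ 2 ≤ (S n).card := by
  unfold S
  rw [Finset.card_sigma]
  have h4 : 4 * n = 2 * n + 2 * n := by ring
  rw [h4, Finset.sum_range_add, ← Finset.sum_add_distrib]
  have h1 : ∀ s ∈ Finset.range (2 * n),
      (Finset.Ico (s - 2 * n) (min (s + 2 * n) (6 * n - s))).card +
      (Finset.Ico (2 * n + s - 2 * n)
        (min (2 * n + s + 2 * n) (6 * n - (2 * n + s)))).card = 6 * n - s := by
    intro s hs
    rw [Finset.mem_range] at hs
    rw [Nat.card_Ico, Nat.card_Ico]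
    omega
  rw [Finset.sum_congr rfl h1]
  have h2 := sum1 (2 * n)
  have h3 := sum2 n
  nlinarith

/-- The exponent. -/
def ex (p : Σ _ : ℕ, ℕ) : Fin 2 →₀ ℕ := Finsupp.single 0 p.1 + Finsupp.single 1 p.2

theorem ex_le {p q : Σ _ : ℕ, ℕ} (h : ex p ≤ ex q) : p.1 ≤ q.1 ∧ p.2 ≤ q.2 := by
  have h0 := h 0
  have h1 := h 1
  simp [ex] at h0 h1
  exact ⟨h0, h1⟩

variable {k : Type} [Field k]

theorem li {S : Finset (Σ _ : ℕ, ℕ)} (U : S → MvPolynomial (Fin 2) k)
    (hU : ∀ p, MvPolynomial.coeff 0 (U p) = 1) :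
    LinearIndependent k (fun p : S => MvPolynomial.monomial (ex p) (1 : k) * U p) := by
  rw [Fintype.linearIndependent_iff]
  intro c hc
  by_contra hne
  push Not at hne
  obtain ⟨i₀, hi₀⟩ := hne
  obtain ⟨i, hi, hmin⟩ := Finset.exists_min_image (Finset.univ.filter fun i : S => c i ≠ 0)
    (fun i => i.1.1 + i.1.2) ⟨i₀, by simpa using hi₀⟩
  have hi' : c i ≠ 0 := by simpa using hi
  have h := congrArg (MvPolynomial.coeff (ex i)) hc
  rw [MvPolynomial.coeff_sum, MvPolynomial.coeff_zero] at h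
  rw [Finset.sum_eq_single i] at h
  · rw [MvPolynomial.coeff_smul, MvPolynomial.coeff_monomial_mul', if_pos le_rfl, one_mul,
      tsub_self, hU, smul_eq_mul, mul_one] at h
    exact hi' h
  · intro j _ hj
    rw [MvPolynomial.coeff_smul, MvPolynomial.coeff_monomial_mul']
    by_cases hcj : c j = 0
    · rw [hcj, zero_smul]
    · rw [if_neg, smul_zero]
      intro hle
      obtain ⟨h1, h2⟩ := ex_le hle
      have h3 := hmin j (by simpa using hcj)
      apply hj
      have e1 : j.1.1 = i.1.1 := by omega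
      have e2 : j.1.2 = i.1.2 := by omega
      exact Subtype.ext (Sigma.ext e1 (heq_of_eq e2))
  · simp

theorem exm (hNFX : Stmt_NFX) (n : ℕ) (p : S n) :
    ∃ e, Mon (fun _ => 4 * n) e ∧ e 0 = p.1.1 ∧ e 7 = p.1.2 := by
  obtain ⟨⟨s, t⟩, hp⟩ := p
  simp only [S, Finset.mem_sigma, Finset.mem_range, Finset.mem_Ico] at hp
  obtain ⟨h1, h2, h3⟩ := hp
  obtain ⟨e, he, h0, h7⟩ := hNFX ![4 * n - s, 4 * n - s, 4 * n - t, 4 * n - t, 4 * n]
    (by
      simp only [Fin.sum_univ_succ, Fin.isValue, Matrix.cons_val_zero, Matrix.cons_val_succ,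
        Finset.univ_eq_empty, Finset.sum_empty, add_zero]
      refine ⟨(4 * n - s) + (4 * n - t) + 2 * n, ?_⟩
      ring)
    (by
      show 4 * n - s + (4 * n - s) ≤ 4 * n - t + (4 * n - t) + 4 * n
      omega)
    (by
      show 4 * n - t + (4 * n - t) ≤ 4 * n - s + (4 * n - s) + 4 * n
      omega)
    (by
      show 4 * n ≤ 4 * n - s + (4 * n - s) + (4 * n - t) + (4 * n - t)
      omega)
  rw [mon_iff] at he
  obtain ⟨e0, e1, e2, e3, e4⟩ := he
  simp only [Matrix.cons_val_zero] at e0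
  have e1' : e 0 + e 4 + e 5 + e 6 = 4 * n - s := e1
  have e2' : e 1 + e 4 + e 7 + e 8 = 4 * n - t := e2
  have e3' : e 2 + e 5 + e 7 + e 9 = 4 * n - t := e3
  have e4' : e 3 + e 6 + e 8 + e 9 = 4 * n := e4
  refine ⟨![s, e 1, e 2, e 3, e 4, e 5, e 6, t, e 8, e 9], ?_, rfl, rfl⟩
  rw [mon_iff]
  refine ⟨?_, ?_, ?_, ?_, ?_⟩
  · show s + e 1 + e 2 + e 3 = 4 * n
    omega
  · show s + e 4 + e 5 + e 6 = 4 * n
    omega
  · show e 1 + e 4 + t + e 8 = 4 * n
    omega
  · show e 2 + e 5 + t + e 9 = 4 * n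
    omega
  · show e 3 + e 6 + e 8 + e 9 = 4 * n
    omega

end LOW_

open MvPolynomial in
theorem low_proof (hLOC : Stmt_LOC) (hNFX : Stmt_NFX) : Stmt_LOW := by
  intro k Ω _ _ _ P hP hne hind n
  obtain ⟨C, hC, hmP⟩ := hLOC Ω P hP hne (fun _ => 4 * n)
  choose e he h0 h7 using LOW_.exm hNFX n
  let U : LOW_.S n → MvPolynomial (Fin 2) k := fun p =>
    (1 + X 0) ^ (e p 6) * (1 + X 1) ^ (e p 8) * (1 - X 0 * X 1) ^ (e p 4)
  have hU : ∀ p, coeff 0 (U p) = 1 := by
    intro p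
    rw [← constantCoeff_eq]
    simp [U]
  have hli := LOW_.li U hU
  let L : MvPolynomial (Fin 2) k →ₗ[k] Ω :=
    (LinearMap.mulLeft k C) ∘ₗ (aeval ![sx P, sy P]).toLinearMap
  have hL : LinearMap.ker L = ⊥ := by
    rw [LinearMap.ker_eq_bot]
    intro x y hxy
    have h1 : C * aeval ![sx P, sy P] x = C * aeval ![sx P, sy P] y := hxy
    exact hind (mul_left_cancel₀ hC h1)
  have hli2 := hli.map' L hL
  have hL2 : ∀ p : LOW_.S n, L (monomial (LOW_.ex p) (1 : k) * U p) = mP P (e p) := by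
    intro p
    rw [hmP (e p) (he p), h0, h7]
    show C * aeval ![sx P, sy P] (monomial (LOW_.ex p) (1 : k) * U p) = _
    have h1 : monomial (LOW_.ex p) (1 : k) = X 0 ^ p.1.1 * X 1 ^ p.1.2 := by
      unfold LOW_.ex
      rw [X_pow_eq_monomial, X_pow_eq_monomial, monomial_mul, one_mul]
    rw [h1]
    simp [U]
    ring
  have hle : Submodule.span k (Set.range (L ∘ fun p : LOW_.S n =>
      monomial (LOW_.ex p) (1 : k) * U p)) ≤ SP k P fun _ => 4 * n := by
    rw [Submodule.span_le]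
    rintro _ ⟨p, rfl⟩
    show L (monomial (LOW_.ex p) (1 : k) * U p) ∈ _
    rw [hL2]
    exact mP_mem k P (he p)
  have h1 := Submodule.finrank_mono hle
  rw [finrank_span_eq_card hli2, Fintype.card_coe] at h1
  exact (LOW_.S_card n).trans h1

end Pool.Agent.SFS
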