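import Pool.Agent.SFS.Stmts

/-!
# NFB: decomposition of big nef classes
-/

set_option autoImplicit false

namespace Pool.Agent.SFS

open scoped Classical
open Pool.Agent.SFB

namespace NFB_

theorem nef_add {d d' : Fin 5 → ℕ} (h : Nef d) (h' : Nef d') : Nef (d + d') := by
  rw [nef_iff] at h h' ⊢
  simp only [Pi.add_apply]
  obtain ⟨⟨a, ha⟩, h1, h2, h3, h4, h5, h6, h7, h8, h9, h10⟩ := h
  obtain ⟨⟨b, hb⟩, k1, k2, k3, k4, k5, k6, k7, k8, k9, k10⟩ := h'
  refine ⟨⟨a + b, by omega⟩, ?_, ?_, ?_, ?_, ?_, ?_, ?_, ?_, ?_, ?_⟩ <;> omega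

theorem nef_zero : Nef (0 : Fin 5 → ℕ) := by
  rw [nef_iff]
  simp

theorem nef_fF (i : Fin 5) : Nef (fF i) := by
  rw [nef_iff]
  fin_cases i <;> simp [fF] <;> decide

theorem nef_smul (a : ℕ) (i : Fin 5) : Nef (a • fF i) := by
  induction a with
  | zero => rw [zero_smul]; exact nef_zero
  | succ a ih => rw [succ_nsmul]; exact nef_add ih (nef_fF i)

theorem sum_fF (i : Fin 5) : ∑ j, fF i j = 4 := by
  fin_cases i <;> decide

theorem sum_fF_sq (i : Fin 5) : ∑ j, fF i j ^ 2 = 4 := by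
  fin_cases i <;> decide

/-- The wanted decomposition. -/
def Dec (d : Fin 5 → ℕ) : Prop :=
  ∃ d', Nef d' ∧ ((∃ i, d = d' + hH i) ∨ ∃ i j, i ≠ j ∧ d = d' + fF i + fF j)

theorem dec_add {d : Fin 5 → ℕ} (h : Dec d) (i : Fin 5) : Dec (d + fF i) := by
  obtain ⟨d', hd', h | h⟩ := h
  · obtain ⟨j, rfl⟩ := h
    exact ⟨d' + fF i, nef_add hd' (nef_fF i), Or.inl ⟨j, by abel⟩⟩
  · obtain ⟨j, l, hjl, rfl⟩ := h
    exact ⟨d' + fF i, nef_add hd' (nef_fF i), Or.inr ⟨j, l, hjl, by abel⟩⟩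

theorem main (hNFD : Stmt_NFD) : ∀ (n : ℕ) (d : Fin 5 → ℕ), ∑ i, d i ≤ n → Nef d →
    (∃ (i : Fin 5) (a : ℕ), d = a • fF i) ∨ Dec d := by
  intro n
  induction n with
  | zero =>
    intro d hn _
    left
    refine ⟨0, 0, ?_⟩
    rw [zero_smul]
    funext j
    have h1 : d j ≤ ∑ i, d i := Finset.single_le_sum (fun i _ => Nat.zero_le _) (Finset.mem_univ j)
    simp only [Pi.zero_apply]
    omega
  | succ n ih =>
    intro d hn hd
    rcases hNFD d hd with h0 | ⟨d', hd', i, h | h⟩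
    · left
      exact ⟨0, 0, by rw [h0, zero_smul]⟩
    · have hs : ∑ j, d j = ∑ j, d' j + 4 := by
        rw [h, ← sum_fF i, ← Finset.sum_add_distrib]
        rfl
      rcases ih d' (by omega) hd' with ⟨j, a, ha⟩ | hD
      · by_cases hij : i = j
        · left
          subst hij
          exact ⟨i, a + 1, by rw [h, ha, succ_nsmul]⟩
        · rcases a with _ | a
          · left
            refine ⟨i, 1, ?_⟩
            rw [h, ha, zero_smul, one_smul, zero_add]
          · right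
            exact ⟨a • fF j, nef_smul a j, Or.inr ⟨j, i, fun h => hij h.symm, by
              rw [h, ha, succ_nsmul]⟩⟩
      · right
        rw [h]
        exact dec_add hD i
    · right
      exact ⟨d', hd', Or.inl ⟨i, h⟩⟩

end NFB_

theorem nfb_proof (hNFD : Stmt_NFD) : Stmt_NFB := by
  intro d hd hbig
  rcases NFB_.main hNFD _ d le_rfl hd with ⟨i, a, ha⟩ | h
  · exfalso
    have h1 : ∑ j, d j = a * 4 := by
      rw [ha, ← NFB_.sum_fF i, Finset.mul_sum]
      rfl
    have h2 : ∑ j, d j ^ 2 = a ^ 2 * 4 := by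
      rw [ha, ← NFB_.sum_fF_sq i, Finset.mul_sum]
      refine Finset.sum_congr rfl fun j _ => ?_
      show (a * fF i j) ^ 2 = _
      rw [mul_pow]
    rw [h1, h2] at hbig
    have h3 : (a * 4) ^ 2 = 4 * (a ^ 2 * 4) := by ring
    omega
  · exact h

end Pool.Agent.SFS
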