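import Pool.Agent.SFS.Stmts

/-!
# SFS, module NFD: decomposition of nef classes
-/

set_option autoImplicit false

namespace Pool.Agent.SFS

open scoped Classical

open Pool.Agent.SFB

namespace NFD_

/-- the inequalities of a nef class, `s` half of the sum -/
def Q (a b c e f s : ℕ) : Prop :=
  a + b + c + e + f = 2 * s ∧ a + b ≤ s ∧ a + c ≤ s ∧ a + e ≤ s ∧ a + f ≤ s ∧ b + c ≤ s ∧
    b + e ≤ s ∧ b + f ≤ s ∧ c + e ≤ s ∧ c + f ≤ s ∧ e + f ≤ s

theorem nef_of_Q (d : Fin 5 → ℕ) (s : ℕ) (h : Q (d 0) (d 1) (d 2) (d 3) (d 4) s) : Nef d := by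
  rw [nef_iff]
  unfold Q at h
  refine ⟨?_, ?_⟩
  · rw [Nat.even_iff]; omega
  · omega

theorem Q_of_nef (d : Fin 5 → ℕ) (h : Nef d) : ∃ s, Q (d 0) (d 1) (d 2) (d 3) (d 4) s := by
  rw [nef_iff, Nat.even_iff] at h
  refine ⟨(d 0 + d 1 + d 2 + d 3 + d 4) / 2, ?_⟩
  unfold Q
  omega

/-- subtraction of a conic -/
theorem subF (d : Fin 5 → ℕ) (s : ℕ) (i : Fin 5) (hle : ∀ j, fF i j ≤ d j)
    (h : Q (d 0 - fF i 0) (d 1 - fF i 1) (d 2 - fF i 2) (d 3 - fF i 3) (d 4 - fF i 4) s) :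
    d = 0 ∨ ∃ d', Nef d' ∧ ∃ i, d = d' + fF i ∨ d = d' + hH i := by
  right
  refine ⟨fun j => d j - fF i j, nef_of_Q _ s h, i, Or.inl ?_⟩
  funext j
  have := hle j
  change d j = d j - fF i j + fF i j
  omega

/-- subtraction of a line -/
theorem subH (d : Fin 5 → ℕ) (s : ℕ) (i : Fin 5) (hle : ∀ j, hH i j ≤ d j)
    (h : Q (d 0 - hH i 0) (d 1 - hH i 1) (d 2 - hH i 2) (d 3 - hH i 3) (d 4 - hH i 4) s) :
    d = 0 ∨ ∃ d', Nef d' ∧ ∃ i, d = d' + fF i ∨ d = d' + hH i := by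
  right
  refine ⟨fun j => d j - hH i j, nef_of_Q _ s h, i, Or.inr ?_⟩
  funext j
  have := hle j
  change d j = d j - hH i j + hH i j
  omega

/-- conics, in terms of the remaining inequalities -/
theorem stepF (d : Fin 5 → ℕ) (s : ℕ) (hQ : Q (d 0) (d 1) (d 2) (d 3) (d 4) s) (i : Fin 5)
    (h1 : ∀ j, j ≠ i → 1 ≤ d j) (h2 : ∀ j, j ≠ i → d i + d j + 1 ≤ s) (hs : 2 ≤ s) :
    d = 0 ∨ ∃ d', Nef d' ∧ ∃ i, d = d' + fF i ∨ d = d' + hH i := by
  refine subF d (s - 2) i (fun j => ?_) ?_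
  · unfold fF
    split_ifs with h
    · exact Nat.zero_le _
    · exact h1 j h
  · unfold Q at hQ ⊢
    have a0 := h1 0; have a1 := h1 1; have a2 := h1 2; have a3 := h1 3; have a4 := h1 4
    have b0 := h2 0; have b1 := h2 1; have b2 := h2 2; have b3 := h2 3; have b4 := h2 4
    fin_cases i <;> simp [fF] at a0 a1 a2 a3 a4 b0 b1 b2 b3 b4 ⊢ <;> omega

/-- lines -/
theorem stepH (d : Fin 5 → ℕ) (s : ℕ) (hQ : Q (d 0) (d 1) (d 2) (d 3) (d 4) s) (i : Fin 5)
    (h0 : 2 ≤ d i) (h1 : ∀ j, 1 ≤ d j)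
    (h2 : ∀ j l, j ≠ i → l ≠ i → j ≠ l → d j + d l + 1 ≤ s) :
    d = 0 ∨ ∃ d', Nef d' ∧ ∃ i, d = d' + fF i ∨ d = d' + hH i := by
  refine subH d (s - 3) i (fun j => ?_) ?_
  · unfold hH
    split_ifs with h
    · rw [h]; exact h0
    · exact h1 j
  · unfold Q at hQ ⊢
    have a0 := h1 0; have a1 := h1 1; have a2 := h1 2; have a3 := h1 3; have a4 := h1 4
    have b01 := h2 0 1; have b02 := h2 0 2; have b03 := h2 0 3; have b04 := h2 0 4
    have b12 := h2 1 2; have b13 := h2 1 3; have b14 := h2 1 4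
    have b23 := h2 2 3; have b24 := h2 2 4; have b34 := h2 3 4
    fin_cases i <;>
      simp [hH] at h0 b01 b02 b03 b04 b12 b13 b14 b23 b24 b34 ⊢ <;> omega

theorem pair_le (d : Fin 5 → ℕ) (s : ℕ) (hQ : Q (d 0) (d 1) (d 2) (d 3) (d 4) s) :
    ∀ j l, j ≠ l → d j + d l ≤ s := by
  unfold Q at hQ
  intro j l h
  fin_cases j <;> fin_cases l <;> simp at h ⊢ <;> omega

theorem sum_eq (d : Fin 5 → ℕ) (s : ℕ) (hQ : Q (d 0) (d 1) (d 2) (d 3) (d 4) s) :
    ∀ i j l p q : Fin 5, i ≠ j → i ≠ l → i ≠ p → i ≠ q → j ≠ l → j ≠ p → j ≠ q → l ≠ p → l ≠ q →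
      p ≠ q → d i + d j + d l + d p + d q = 2 * s := by
  intro i j l p q h1 h2 h3 h4 h5 h6 h7 h8 h9 h10
  have h : ∑ x, d x = 2 * s := by
    rw [← hQ.1]
    simp [Fin.sum_univ_succ]
    ring
  have hu : (Finset.univ : Finset (Fin 5)) = {i, j, l, p, q} := by
    symm
    rw [Finset.eq_univ_iff_forall]
    have hcard : ({i, j, l, p, q} : Finset (Fin 5)).card = 5 := by
      rw [Finset.card_insert_of_notMem, Finset.card_insert_of_notMem,
        Finset.card_insert_of_notMem, Finset.card_insert_of_notMem, Finset.card_singleton]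
      · simpa using h10
      · simp [h8, h9]
      · simp [h5, h6, h7]
      · simp [h1, h2, h3, h4]
    have : ({i, j, l, p, q} : Finset (Fin 5)) = Finset.univ :=
      (Finset.card_eq_iff_eq_univ _).1 (by rw [hcard]; rfl)
    intro x
    rw [this]; exact Finset.mem_univ x
  rw [hu, Finset.sum_insert, Finset.sum_insert, Finset.sum_insert, Finset.sum_insert,
    Finset.sum_singleton] at h
  · omega
  · simpa using h10
  · simp [h8, h9]
  · simp [h5, h6, h7]
  · simp [h1, h2, h3, h4]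

theorem exists_others (i a b : Fin 5) (h1 : a ≠ i) (h2 : b ≠ i) (h3 : a ≠ b) :
    ∃ j l : Fin 5, i ≠ a ∧ i ≠ b ∧ i ≠ j ∧ i ≠ l ∧ a ≠ b ∧ a ≠ j ∧ a ≠ l ∧ b ≠ j ∧ b ≠ l ∧
      j ≠ l ∧ ∀ x, x = j ∨ x = i ∨ x = a ∨ x = b ∨ x = l := by
  revert i a b
  decide

theorem exists_four (j : Fin 5) : ∃ a b c e : Fin 5, j ≠ a ∧ j ≠ b ∧ j ≠ c ∧ j ≠ e ∧ a ≠ b ∧
    a ≠ c ∧ a ≠ e ∧ b ≠ c ∧ b ≠ e ∧ c ≠ e ∧ ∀ x, x = j ∨ x = a ∨ x = b ∨ x = c ∨ x = e := by
  revert j
  decide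

end NFD_

open NFD_ in
theorem nfd_proof : Stmt_NFD := by
  intro d hd
  obtain ⟨s, hQ⟩ := Q_of_nef d hd
  have hp := pair_le d s hQ
  have hsum := sum_eq d s hQ
  by_cases h0 : ∃ j, d j = 0
  · obtain ⟨j, hj⟩ := h0
    obtain ⟨a, b, c, e, n1, n2, n3, n4, n5, n6, n7, n8, n9, n10, hall⟩ := exists_four j
    have e0 := hsum j a b c e n1 n2 n3 n4 n5 n6 n7 n8 n9 n10
    have p1 := hp a b n5; have p2 := hp a c n6; have p3 := hp a e n7
    have p4 := hp b c n8; have p5 := hp b e n9; have p6 := hp c e n10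
    by_cases hz : d a = 0
    · left
      funext x
      change d x = 0
      rcases hall x with rfl | rfl | rfl | rfl | rfl <;> omega
    · refine stepF d s hQ j (fun x hx => ?_) (fun x hx => ?_) (by omega)
      · rcases hall x with rfl | rfl | rfl | rfl | rfl
        · exact absurd rfl hx
        all_goals omega
      · rcases hall x with rfl | rfl | rfl | rfl | rfl
        · exact absurd rfl hx
        all_goals omega
  · push Not at h0
    have h1 : ∀ j, 1 ≤ d j := fun j => Nat.one_le_iff_ne_zero.2 (h0 j)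
    obtain ⟨i, -, hi⟩ := Finset.exists_max_image Finset.univ d Finset.univ_nonempty
    have hi' : ∀ j, d j ≤ d i := fun j => hi j (Finset.mem_univ j)
    have h2 : 2 ≤ d i := by
      by_contra hcon
      have a0 := hi' 0; have a1 := hi' 1; have a2 := hi' 2; have a3 := hi' 3; have a4 := hi' 4
      have b0 := h1 0; have b1 := h1 1; have b2 := h1 2; have b3 := h1 3; have b4 := h1 4
      have := hQ.1
      omega
    by_cases hpair : ∃ a b, a ≠ i ∧ b ≠ i ∧ a ≠ b ∧ d a + d b = s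
    · obtain ⟨a, b, na, nb, nab, hab⟩ := hpair
      obtain ⟨j, l, n1, n2, n3, n4, n5, n6, n7, n8, n9, n10, hall⟩ :=
        exists_others i a b na nb nab
      have e0 := hsum i a b j l n1 n2 n3 n4 n5 n6 n7 n8 n9 n10
      have p1 := hp i a n1; have p2 := hp i b n2
      have q1 := hi' a; have q2 := hi' b
      have r1 := h1 j; have r2 := h1 l
      refine stepF d s hQ j (fun x _ => h1 x) (fun x hx => ?_) (by omega)
      rcases hall x with rfl | rfl | rfl | rfl | rfl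
      · exact absurd rfl hx
      all_goals omega
    · push Not at hpair
      refine stepH d s hQ i h2 h1 fun j l hj hl hjl => ?_
      have := hp j l hjl
      have := hpair j l hj hl hjl
      omega

end Pool.Agent.SFS
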