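import Pool.Agent.SFS.Stmts

/-!
SFS, module NFX (helper49): complete tripartite multigraphs.
-/

set_option autoImplicit false

namespace Pool.Agent.SFS

open scoped Classical
open Pool.Agent.SFB

theorem nfx_proof : Stmt_NFX := by
  intro d hd h1 h2 h3
  have hs : ∑ i, d i = d 0 + d 1 + d 2 + d 3 + d 4 := by
    simp [Fin.sum_univ_succ]; ring_nf
  rw [hs] at hd
  obtain ⟨k, hk⟩ := hd
  obtain ⟨a, ha⟩ : ∃ a, d 0 + d 1 + d 4 = 2 * a + (d 2 + d 3) := ⟨k - d 2 - d 3, by omega⟩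
  obtain ⟨b, hb⟩ : ∃ b, d 2 + d 3 + d 4 = 2 * b + (d 0 + d 1) := ⟨k - d 0 - d 1, by omega⟩
  obtain ⟨x, x', hx, hx0, hx1⟩ : ∃ x x', x + x' = a ∧ x ≤ d 0 ∧ x' ≤ d 1 :=
    ⟨min (d 0) a, a - min (d 0) a, by omega, by omega, by omega⟩
  obtain ⟨y, y', hy, hy0, hy1⟩ : ∃ y y', y + y' = b ∧ y ≤ d 2 ∧ y' ≤ d 3 :=
    ⟨min (d 2) b, b - min (d 2) b, by omega, by omega, by omega⟩
  obtain ⟨z1, z2, z4, z5, e1, e2, e3, e4⟩ : ∃ z1 z2 z4 z5, z1 + z2 + x = d 0 ∧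
      z4 + z5 + x' = d 1 ∧ z1 + z4 + y = d 2 ∧ z2 + z5 + y' = d 3 :=
    ⟨min (d 0 - x) (d 2 - y), d 0 - x - min (d 0 - x) (d 2 - y),
      d 2 - y - min (d 0 - x) (d 2 - y), d 1 - x' + min (d 0 - x) (d 2 - y) - (d 2 - y),
      by omega, by omega, by omega, by omega⟩
  refine ⟨![0, z1, z2, x, z4, z5, x', 0, y, y'], (mon_iff _ _).2 ?_, rfl, rfl⟩
  change 0 + z1 + z2 + x = d 0 ∧ 0 + z4 + z5 + x' = d 1 ∧ z1 + z4 + 0 + y = d 2 ∧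
    z2 + z5 + 0 + y' = d 3 ∧ x + x' + y + y' = d 4
  omega

end Pool.Agent.SFS
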