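import Pool.Agent.SFS.Stmts

/-!
# NOE: linear projections
-/

set_option autoImplicit false

noncomputable section

namespace Pool.Agent.SFS

open scoped Classical
open Pool.Agent.SFB

namespace NOE_

section

variable {k Ω : Type} [Field k] [Field Ω] [Algebra k Ω]

theorem const_le {V : ValuationSubring Ω} (hV : KV k V) (a : k) :
    V.valuation (algebraMap k Ω a) ≤ 1 :=
  (V.valuation_le_one_iff _).mpr (hV a)

theorem const_eq {V : ValuationSubring Ω} (hV : KV k V) {a : k} (ha : a ≠ 0) :
    V.valuation (algebraMap k Ω a) = 1 := by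
  refine le_antisymm (const_le hV a) ?_
  have h1 := const_le hV a⁻¹
  rw [map_inv₀, map_inv₀] at h1
  have h0 : 0 < V.valuation (algebraMap k Ω a) := by
    rw [zero_lt_iff, Valuation.ne_zero_iff, Ne, map_eq_zero]
    exact ha
  rwa [inv_le_one₀ h0] at h1

/-- the value of a polynomial at a point which is close to a constant point -/
theorem close {V : ValuationSubring Ω} (hV : KV k V) (x : Fin 3 → Ω) (c : Fin 3 → k)
    (hx : ∀ i, V.valuation (x i - algebraMap k Ω (c i)) < 1) (p : MvPolynomial (Fin 3) k) :
    V.valuation (MvPolynomial.aeval x p - algebraMap k Ω (MvPolynomial.eval c p)) < 1 := by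
  have hx1 : ∀ i, V.valuation (x i) ≤ 1 := by
    intro i
    have h : x i = (x i - algebraMap k Ω (c i)) + algebraMap k Ω (c i) := by ring
    rw [h]
    exact (V.valuation.map_add _ _).trans (max_le (hx i).le (const_le hV _))
  induction p using MvPolynomial.induction_on with
  | C a => rw [MvPolynomial.aeval_C, MvPolynomial.eval_C, sub_self, map_zero]; exact zero_lt_one
  | add p q hp hq =>
    have h : MvPolynomial.aeval x (p + q) - algebraMap k Ω (MvPolynomial.eval c (p + q)) =
        (MvPolynomial.aeval x p - algebraMap k Ω (MvPolynomial.eval c p)) +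
        (MvPolynomial.aeval x q - algebraMap k Ω (MvPolynomial.eval c q)) := by
      simp only [map_add]; ring
    rw [h]
    exact (V.valuation.map_add _ _).trans_lt (max_lt hp hq)
  | mul_X p i hp =>
    have h : MvPolynomial.aeval x (p * MvPolynomial.X i) -
        algebraMap k Ω (MvPolynomial.eval c (p * MvPolynomial.X i)) =
        (MvPolynomial.aeval x p - algebraMap k Ω (MvPolynomial.eval c p)) * x i +
        algebraMap k Ω (MvPolynomial.eval c p) * (x i - algebraMap k Ω (c i)) := by
      simp only [map_mul, MvPolynomial.aeval_X, MvPolynomial.eval_X]; ring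
    rw [h]
    refine (V.valuation.map_add _ _).trans_lt (max_lt ?_ ?_)
    · rw [map_mul]
      exact (mul_le_of_le_one_right' (hx1 i)).trans_lt hp
    · rw [map_mul]
      exact (mul_le_of_le_one_left' (const_le hV _)).trans_lt (hx i)

/-- one step: the last one of four elements is dropped -/
theorem step [Infinite k] (m : Fin 3 → Ω) (l : Ω) (hl : l ≠ 0)
    (h : ¬ AlgebraicIndependent k ![m 0 / l, m 1 / l, m 2 / l]) :
    ∃ c : Fin 3 → k, ∀ V : ValuationSubring Ω, KV k V →
      ∃ j, V.valuation l ≤ V.valuation (m j - algebraMap k Ω (c j) * l) := by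
  rw [algebraicIndependent_iff] at h
  push Not at h
  obtain ⟨p, hp, hp0⟩ := h
  obtain ⟨c, hc⟩ : ∃ c, MvPolynomial.eval c p ≠ 0 := by
    by_contra hcon
    push Not at hcon
    exact hp0 (MvPolynomial.funext fun x => by rw [hcon x, map_zero])
  refine ⟨c, fun V hV => ?_⟩
  by_contra hcon
  push Not at hcon
  have hl0 : 0 < V.valuation l := zero_lt_iff.mpr ((Valuation.ne_zero_iff _).mpr hl)
  have hx : ∀ i, V.valuation ((![m 0 / l, m 1 / l, m 2 / l] : Fin 3 → Ω) i -
      algebraMap k Ω (c i)) < 1 := by
    intro i
    have h1 : (![m 0 / l, m 1 / l, m 2 / l] : Fin 3 → Ω) i = m i / l := by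
      fin_cases i <;> rfl
    have h2 : m i / l - algebraMap k Ω (c i) = (m i - algebraMap k Ω (c i) * l) / l := by
      field_simp
    rw [h1, h2, map_div₀, div_lt_one₀ hl0]
    exact hcon i
  have h3 := close hV _ c hx p
  rw [hp, zero_sub, Valuation.map_neg, const_eq hV hc] at h3
  exact lt_irrefl _ h3

theorem list_case [Infinite k] (M : Submodule k Ω)
    (hM : ∀ f g h l : Ω, f ∈ M → g ∈ M → h ∈ M → l ∈ M →
      ¬ AlgebraicIndependent k ![f / l, g / l, h / l]) :
    ∀ (n : ℕ) (L : List Ω), L.length ≤ n → (∀ x ∈ L, x ∈ M) →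
    ∃ σ : Fin 3 → Ω, (∀ i, σ i ∈ M) ∧ ∀ V : ValuationSubring Ω, KV k V → ∀ x ∈ L,
      ∃ j, V.valuation x ≤ V.valuation (σ j) := by
  intro n
  induction n with
  | zero =>
    intro L hL _
    have : L = [] := List.eq_nil_of_length_eq_zero (Nat.le_zero.mp hL)
    subst this
    exact ⟨fun _ => 0, fun _ => zero_mem _, fun V _ x hx => absurd hx (List.not_mem_nil)⟩
  | succ n ih =>
    intro L hL hLM
    match L, hL, hLM with
    | [], _, _ =>
      exact ⟨fun _ => 0, fun _ => zero_mem _, fun V _ x hx => absurd hx (List.not_mem_nil)⟩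
    | [a], _, h =>
      refine ⟨fun _ => a, fun _ => h a (by simp), fun V _ x hx => ⟨0, ?_⟩⟩
      rw [List.mem_singleton.mp hx]
    | [a, b], _, h =>
      refine ⟨![a, b, b], ?_, fun V _ x hx => ?_⟩
      · intro i
        fin_cases i
        · exact h a (by simp)
        · exact h b (by simp)
        · exact h b (by simp)
      · simp only [List.mem_cons, List.not_mem_nil, or_false] at hx
        rcases hx with rfl | rfl
        · exact ⟨0, le_rfl⟩
        · exact ⟨1, le_rfl⟩
    | [a, b, c], _, h =>
      refine ⟨![a, b, c], ?_, fun V _ x hx => ?_⟩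
      · intro i
        fin_cases i
        · exact h a (by simp)
        · exact h b (by simp)
        · exact h c (by simp)
      · simp only [List.mem_cons, List.not_mem_nil, or_false] at hx
        rcases hx with rfl | rfl | rfl
        · exact ⟨0, le_rfl⟩
        · exact ⟨1, le_rfl⟩
        · exact ⟨2, le_rfl⟩
    | l :: a :: b :: c :: R, hlen, h =>
      have hl : l ∈ M := h l (by simp)
      have ha : a ∈ M := h a (by simp)
      have hb : b ∈ M := h b (by simp)
      have hc : c ∈ M := h c (by simp)
      have hR : ∀ x ∈ R, x ∈ M := fun x hx => h x (by simp [hx])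
      simp only [List.length_cons] at hlen
      by_cases hl0 : l = 0
      · obtain ⟨σ, h1, h2⟩ := ih (a :: b :: c :: R) (by simp only [List.length_cons]; omega)
          (fun x hx => h x (List.mem_cons_of_mem _ hx))
        refine ⟨σ, h1, fun V hV x hx => ?_⟩
        rcases List.mem_cons.mp hx with rfl | hx
        · exact ⟨0, by rw [hl0, map_zero]; exact zero_le⟩
        · exact h2 V hV x hx
      · obtain ⟨t, ht⟩ := step ![a, b, c] l hl0 (hM a b c l ha hb hc hl)
        have hsm : ∀ r : k, algebraMap k Ω r * l ∈ M := fun r => by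
          rw [← Algebra.smul_def]; exact Submodule.smul_mem _ _ hl
        obtain ⟨σ, h1, h2⟩ := ih ((a - algebraMap k Ω (t 0) * l) ::
          (b - algebraMap k Ω (t 1) * l) :: (c - algebraMap k Ω (t 2) * l) :: R)
          (by simp only [List.length_cons]; omega) (by
            intro x hx
            simp only [List.mem_cons] at hx
            rcases hx with rfl | rfl | rfl | hx
            · exact sub_mem ha (hsm _)
            · exact sub_mem hb (hsm _)
            · exact sub_mem hc (hsm _)
            · exact hR x hx)
        refine ⟨σ, h1, fun V hV x hx => ?_⟩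
        have key : ∀ j : Fin 3, ∃ i, V.valuation ((![a, b, c] : Fin 3 → Ω) j -
            algebraMap k Ω (t j) * l) ≤ V.valuation (σ i) := by
          intro j
          fin_cases j
          · exact h2 V hV _ (by simp)
          · exact h2 V hV _ (by simp)
          · exact h2 V hV _ (by simp)
        obtain ⟨j0, hj0⟩ := ht V hV
        obtain ⟨i0, hi0⟩ := key j0
        have hlσ : V.valuation l ≤ V.valuation (σ i0) := hj0.trans hi0
        have key2 : ∀ j : Fin 3, ∃ i, V.valuation ((![a, b, c] : Fin 3 → Ω) j) ≤
            V.valuation (σ i) := by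
          intro j
          obtain ⟨i1, hi1⟩ := key j
          have e1 : (![a, b, c] : Fin 3 → Ω) j = ((![a, b, c] : Fin 3 → Ω) j -
            algebraMap k Ω (t j) * l) + algebraMap k Ω (t j) * l := by ring
          have h3 : V.valuation ((![a, b, c] : Fin 3 → Ω) j) ≤
              max (V.valuation (σ i1)) (V.valuation (σ i0)) := by
            rw [e1]
            refine (V.valuation.map_add _ _).trans (max_le_max hi1 ?_)
            rw [map_mul]
            exact (mul_le_of_le_one_left' (const_le hV _)).trans hlσ
          rcases le_max_iff.mp h3 with h4 | h4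
          · exact ⟨i1, h4⟩
          · exact ⟨i0, h4⟩
        simp only [List.mem_cons] at hx
        rcases hx with rfl | rfl | rfl | rfl | hx
        · exact ⟨i0, hlσ⟩
        · exact key2 0
        · exact key2 1
        · exact key2 2
        · exact h2 V hV x (by simp [hx])

end

end NOE_

theorem noe_proof : Stmt_NOE := by
  intro k Ω _ _ _ _ M hfin hM
  obtain ⟨s, hs⟩ := (Module.Finite.iff_fg.mp hfin)
  obtain ⟨σ, h1, h2⟩ := NOE_.list_case M hM s.toList.length s.toList le_rfl (fun x hx => by
    rw [← hs]
    exact Submodule.subset_span (Finset.mem_toList.mp hx))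
  refine ⟨σ, h1, fun V hV f hf hf0 => ?_⟩
  obtain ⟨j0, -, hj0⟩ := Finset.exists_max_image Finset.univ (fun j => V.valuation (σ j))
    Finset.univ_nonempty
  have hle : V.valuation f ≤ V.valuation (σ j0) := by
    clear hf0
    rw [← hs] at hf
    induction hf using Submodule.span_induction with
    | mem x hx =>
      obtain ⟨j, hj⟩ := h2 V hV x (Finset.mem_toList.mpr hx)
      exact hj.trans (hj0 j (Finset.mem_univ _))
    | zero => rw [map_zero]; exact zero_le
    | add x y _ _ hx hy =>
      exact (V.valuation.map_add _ _).trans (max_le hx hy)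
    | smul a x _ hx =>
      rw [Algebra.smul_def, map_mul]
      exact (mul_le_of_le_one_left' (NOE_.const_le hV _)).trans hx
  have h0 : σ j0 ≠ 0 := by
    intro h0
    rw [h0, map_zero] at hle
    exact hf0 ((Valuation.zero_iff _).mp (le_antisymm hle zero_le))
  refine ⟨j0, h0, ?_⟩
  rw [← V.valuation_le_one_iff, map_div₀]
  exact div_le_one_of_le₀ hle zero_le

end Pool.Agent.SFS
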