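import Pool.Agent.SFS.Stmts

/-!
# SFS / NTE: the norm trick in an intermediate field
-/

set_option autoImplicit false

noncomputable section

namespace Pool.Agent.SFS

open scoped Classical
open Pool.Agent.SFB

namespace NTE_

theorem int_desc {k Ω : Type} [Field k] [Field Ω] [Algebra k Ω] (E : IntermediateField k Ω)
    (S : Subalgebra k E) (x : E) (h : IsIntegral (S.map E.val) (E.val x)) : IsIntegral S x := by
  obtain ⟨p, hp, hpx⟩ := h
  let e : S ≃ₐ[k] S.map E.val := S.equivMapOfInjective E.val E.val.injective
  refine ⟨p.map (e.symm : S.map E.val →+* S), hp.map _, ?_⟩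
  apply E.val.injective
  rw [map_zero, Polynomial.eval₂_map, ← hpx]
  have h := Polynomial.hom_eval₂ p ((algebraMap S E).comp (e.symm : S.map E.val →+* S))
    (E.val : E →+* Ω) x
  have h2 : (E.val : E →+* Ω).comp ((algebraMap S E).comp (e.symm : S.map E.val →+* S)) =
      algebraMap (S.map E.val) Ω := by
    ext y
    obtain ⟨z, rfl⟩ := e.surjective y
    simp only [RingHom.comp_apply]
    have : (e.symm : S.map E.val →+* S) (e z) = z := e.symm_apply_apply z
    rw [this]
    rfl
  rw [h2] at h
  exact h

theorem pf_map {k Ω : Type} [Field k] [Field Ω] [Algebra k Ω] (E : IntermediateField k Ω)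
    (σ : Fin 3 → E) : (PF k σ).map E.val = PF k (fun i => (σ i : Ω)) := by
  unfold PF
  rw [IntermediateField.adjoin_map, Set.image_pair]
  rfl

theorem relfin {k Ω : Type} [Field k] [Field Ω] [Algebra k Ω] (E : IntermediateField k Ω)
    (σ : Fin 3 → E) :
    (PF k (fun i => (σ i : Ω))).relfinrank E = Module.finrank (PF k σ) E := by
  have h : E = (⊤ : IntermediateField k E).map E.val := by
    rw [← AlgHom.fieldRange_eq_map, IntermediateField.fieldRange_val]
  rw [← pf_map, ← IntermediateField.relfinrank_top_right,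
    ← IntermediateField.relfinrank_map_map _ _ E.val, ← h]

end NTE_

open NTE_ in
theorem nte_proof (hNT : SFB.Stmt_NT) : Stmt_NTE := by
  intro k Ω _ _ _ _ σ hσ E hE hD U hU hUE n hn
  have := hU
  obtain ⟨τ, rfl⟩ : ∃ τ : Fin 3 → E, σ = fun i => (τ i : Ω) := ⟨fun i => ⟨σ i, hE i⟩, rfl⟩
  rw [relfin] at hD ⊢
  have hτ : IsPl k τ := by
    refine ⟨fun i h => hσ.ne i (by rw [h]; rfl), ?_⟩
    have h := hσ.indep
    refine AlgebraicIndependent.of_comp E.val ?_
    convert h using 1
    funext i
    fin_cases i <;> rfl
  have hfd : FiniteDimensional (PF k τ) E := Module.finite_of_finrank_pos (Nat.pos_of_ne_zero hD)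
  let U' : Submodule k E := U.comap E.val.toLinearMap
  have hinj : Function.Injective E.val.toLinearMap := E.val.injective
  have hmap : U'.map E.val.toLinearMap = U := by
    refine Submodule.map_comap_eq_self ?_
    intro f hf
    exact ⟨⟨f, hUE f hf⟩, rfl⟩
  let e : U' ≃ₗ[k] U'.map E.val.toLinearMap := Submodule.equivMapOfInjective _ hinj U'
  have hfr : Module.finrank k U' = Module.finrank k U := by
    rw [e.finrank_eq, hmap]
  have : FiniteDimensional k (U'.map E.val.toLinearMap) := by
    rw [hmap]; exact hU
  have hU' : FiniteDimensional k U' := Module.Finite.equiv e.symm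
  have key := hNT k E τ hτ hfd ⊤ U' hU' (fun _ _ => Submodule.mem_top) n 1 one_pos ?_
  · rw [finrank_top, Nat.div_one, hfr] at key
    exact key
  · intro f hf i
    have hi := hn (E.val f) hf i
    refine int_desc E _ _ ?_
    rw [AlgHom.map_adjoin, ← Set.range_comp]
    exact hi

end Pool.Agent.SFS
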