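import Pool.Agent.SFS.Stmts

/-!
# SFS, module ONC: the two curves of a chart
-/

set_option autoImplicit false

noncomputable section

namespace Pool.Agent.SFS

open scoped Classical
open Pool.Agent.SFB

namespace ONC_

theorem mon_pe {E : Fin 10 → ℕ} (hE : Mon (fun _ => 4) E) (π : Equiv.Perm (Fin 5)) :
    Mon (fun _ => 4) (fun k => E (XV.pe π⁻¹ k)) := fun i => by
  rw [XV.mdeg_pe]
  exact hE _

/-- a multigraph without the edges `01` and `23` -/
def EA : Fin 10 → ℕ := ![0, 1, 2, 1, 2, 1, 1, 0, 1, 1]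
/-- a multigraph with the edge `01` -/
def EB : Fin 10 → ℕ := ![1, 1, 1, 1, 1, 2, 0, 0, 2, 1]
/-- a multigraph with the edge `23` -/
def EC : Fin 10 → ℕ := ![0, 2, 1, 1, 1, 1, 2, 1, 0, 1]

theorem monA : Mon (fun _ => 4) EA := by
  rw [mon_iff]; decide
theorem monB : Mon (fun _ => 4) EB := by
  rw [mon_iff]; decide
theorem monC : Mon (fun _ => 4) EC := by
  rw [mon_iff]; decide

theorem posA : ∀ j : Fin 10, j ≠ 0 → j ≠ 7 → EA j ≠ 0 := by decide

theorem nef4 : Nef (fun _ => 4) := by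
  rw [nef_iff]
  exact ⟨⟨10, rfl⟩, by norm_num, by norm_num, by norm_num, by norm_num, by norm_num, by norm_num,
    by norm_num, by norm_num, by norm_num, by norm_num⟩

theorem pe_cancel (π : Equiv.Perm (Fin 5)) (j : Fin 10) : XV.pe π⁻¹ (XV.pe π j) = j := by
  rw [← XV.pe_mul, inv_mul_cancel, XV.pe_one]

end ONC_

open ONC_ in
theorem onc_proof (_hPLB : Stmt_PLB) (hTPC : Stmt_TPC) : Stmt_ONC := by
  intro Ω _ u v hne V π hC i
  have hT := hTPC Ω u v hne V π hC (fun _ => 4) nef4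
  constructor
  · intro h
    obtain ⟨j, rfl⟩ : ∃ j, i = XV.pe π j := ⟨XV.pe π⁻¹ i, by
      rw [← XV.pe_mul, mul_inv_cancel, XV.pe_one]⟩
    by_cases h0 : j = 0
    · subst h0
      left
      refine ⟨rfl, fun hx => ?_⟩
      have h1 := h (fun k => EB (XV.pe π⁻¹ k)) ((hT _).2 ⟨mon_pe monB π, Or.inr hx, Or.inl (by
        show EB (XV.pe π⁻¹ (XV.pe π 7)) = 0
        rw [pe_cancel]; decide)⟩)
      have h2 : EB (XV.pe π⁻¹ (XV.pe π 0)) = 0 := h1
      rw [pe_cancel] at h2
      exact absurd h2 (by decide)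
    · by_cases h7 : j = 7
      · subst h7
        right
        refine ⟨rfl, fun hx => ?_⟩
        have h1 := h (fun k => EC (XV.pe π⁻¹ k)) ((hT _).2 ⟨mon_pe monC π, Or.inl (by
          show EC (XV.pe π⁻¹ (XV.pe π 0)) = 0
          rw [pe_cancel]; decide), Or.inr hx⟩)
        have h2 : EC (XV.pe π⁻¹ (XV.pe π 7)) = 0 := h1
        rw [pe_cancel] at h2
        exact absurd h2 (by decide)
      · exfalso
        have h1 := h (fun k => EA (XV.pe π⁻¹ k)) ((hT _).2 ⟨mon_pe monA π, Or.inl (by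
          show EA (XV.pe π⁻¹ (XV.pe π 0)) = 0
          rw [pe_cancel]; decide), Or.inl (by
          show EA (XV.pe π⁻¹ (XV.pe π 7)) = 0
          rw [pe_cancel]; decide)⟩)
        have h2 : EA (XV.pe π⁻¹ (XV.pe π j)) = 0 := h1
        rw [pe_cancel] at h2
        exact posA j h0 h7 h2
  · rintro (⟨rfl, hx⟩ | ⟨rfl, hx⟩) e he
    · exact (((hT e).1 he).2.1).resolve_right hx
    · exact (((hT e).1 he).2.2).resolve_right hx

end Pool.Agent.SFS

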