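import Pool.Agent.SFS.Stmts

/-!
# SCA: scaling
-/

set_option autoImplicit false

noncomputable section

namespace Pool.Agent.SFS

open scoped Classical
open Pool.Agent.SFB

theorem sca_proof : Stmt_SCA := by
  intro Ω _ A B κ μ hκ hμ hA d
  refine ⟨κ ^ ((d 0 + d 1 + d 2 + d 3 + d 4) / 2) *
    (μ 0 ^ d 0 * μ 1 ^ d 1 * μ 2 ^ d 2 * μ 3 ^ d 3 * μ 4 ^ d 4), ?_, ?_⟩
  · exact mul_ne_zero (pow_ne_zero _ hκ) (mul_ne_zero (mul_ne_zero (mul_ne_zero (mul_ne_zero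
      (pow_ne_zero _ (hμ 0)) (pow_ne_zero _ (hμ 1))) (pow_ne_zero _ (hμ 2)))
      (pow_ne_zero _ (hμ 3))) (pow_ne_zero _ (hμ 4)))
  · intro e he
    obtain ⟨h0, h1, h2, h3, h4⟩ := (mon_iff d e).1 he
    have hs : (d 0 + d 1 + d 2 + d 3 + d 4) / 2 =
        e 0 + e 1 + e 2 + e 3 + e 4 + e 5 + e 6 + e 7 + e 8 + e 9 := by omega
    rw [hs, ← h0, ← h1, ← h2, ← h3, ← h4]
    have a0 : A 0 = κ * μ 0 * μ 1 * B 0 := hA 0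
    have a1 : A 1 = κ * μ 0 * μ 2 * B 1 := hA 1
    have a2 : A 2 = κ * μ 0 * μ 3 * B 2 := hA 2
    have a3 : A 3 = κ * μ 0 * μ 4 * B 3 := hA 3
    have a4 : A 4 = κ * μ 1 * μ 2 * B 4 := hA 4
    have a5 : A 5 = κ * μ 1 * μ 3 * B 5 := hA 5
    have a6 : A 6 = κ * μ 1 * μ 4 * B 6 := hA 6
    have a7 : A 7 = κ * μ 2 * μ 3 * B 7 := hA 7
    have a8 : A 8 = κ * μ 2 * μ 4 * B 8 := hA 8
    have a9 : A 9 = κ * μ 3 * μ 4 * B 9 := hA 9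
    have e1 : ∀ P : Fin 10 → Ω, mP P e = P 0 ^ e 0 * (P 1 ^ e 1 * (P 2 ^ e 2 * (P 3 ^ e 3 *
        (P 4 ^ e 4 * (P 5 ^ e 5 * (P 6 ^ e 6 * (P 7 ^ e 7 * (P 8 ^ e 8 * P 9 ^ e 9)))))))) := by
      intro P
      unfold mP
      simp [Fin.prod_univ_succ]
    rw [e1, e1, a0, a1, a2, a3, a4, a5, a6, a7, a8, a9]
    simp only [mul_pow, pow_add]
    ring

end Pool.Agent.SFS
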