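import Pool.Agent.SFS.Stmts

/-!
# STD: normal form of five points
-/

set_option autoImplicit false

noncomputable section

namespace Pool.Agent.SFS

open scoped Classical
open Pool.Agent.SFB

theorem std_proof : Stmt_STD := by
  intro Ω _ B hB hn
  have b0 := hn 0
  have b1 := hn 1
  have b4 := hn 4
  have b7 := hn 7
  have b8 := hn 8
  have r4 := hB.r4
  have r3 := hB.r3
  have r1 := hB.r1
  refine ⟨-1 / (B 0 * B 1 * B 4), ![B 4, B 1, B 0, -(B 1 * B 4) / B 7, -(B 1 * B 4) / B 8],
    div_ne_zero (neg_ne_zero.2 one_ne_zero) (mul_ne_zero (mul_ne_zero b0 b1) b4), ?_, ?_⟩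
  · intro i
    fin_cases i
    · exact b4
    · exact b1
    · exact b0
    · exact div_ne_zero (neg_ne_zero.2 (mul_ne_zero b1 b4)) b7
    · exact div_ne_zero (neg_ne_zero.2 (mul_ne_zero b1 b4)) b8
  · intro k
    fin_cases k
    · simp [pk, pa, pb, XV.eS, XV.eT]
      field_simp
    · simp [pk, pa, pb, XV.eS, XV.eT]
      field_simp
    · simp [pk, pa, pb, XV.eS, XV.eT]
      field_simp
    · simp [pk, pa, pb, XV.eS, XV.eT]
      field_simp
    · simp [pk, pa, pb, XV.eS, XV.eT]
      field_simp
    · simp [pk, pa, pb, XV.eS, XV.eT]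
      field_simp
      linear_combination r4
    · simp [pk, pa, pb, XV.eS, XV.eT]
      field_simp
      linear_combination r3
    · simp [pk, pa, pb, XV.eS, XV.eT]
      field_simp
    · simp [pk, pa, pb, XV.eS, XV.eT]
      field_simp
    · simp [pk, pa, pb, XV.eS, XV.eT]
      field_simp
      linear_combination r1

end Pool.Agent.SFS
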