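import Pool.Agent.SFS.Stmts

/-!
# STP: sections modulo the sections vanishing on the curve `01`
-/

set_option autoImplicit false

noncomputable section

namespace Pool.Agent.SFS

open scoped Classical
open Pool.Agent.SFB

namespace STP_

variable {Ω : Type} [Field Ω]

theorem mP_ind (P : Fin 10 → Ω) (k : Fin 10) : mP P (XV.ind k) = P k := by
  unfold mP XV.ind
  rw [Finset.prod_eq_single k]
  · simp
  · intro b _ hb
    simp [hb]
  · simp

theorem mP3 (P : Fin 10 → Ω) (f : Fin 10 → ℕ) (i j : Fin 10) :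
    mP P (f + XV.ind i + XV.ind j) = mP P f * (P i * P j) := by
  rw [mP_add, mP_add, mP_ind, mP_ind, mul_assoc]

theorem split {e : Fin 10 → ℕ} {i j : Fin 10} (hij : i ≠ j) (hi : 0 < e i) (hj : 0 < e j) :
    ∃ f, e = f + XV.ind i + XV.ind j := by
  refine ⟨fun k => e k - XV.ind i k - XV.ind j k, ?_⟩
  funext k
  simp only [Pi.add_apply, XV.ind]
  by_cases h1 : k = i
  · subst h1
    simp only [if_true, if_neg hij]
    omega
  · by_cases h2 : k = j
    · subst h2
      simp only [if_true, if_neg h1]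
      omega
    · simp only [if_neg h1, if_neg h2]
      omega

theorem mon_move {d : Fin 5 → ℕ} {f : Fin 10 → ℕ} {i j : Fin 10} (i' j' : Fin 10)
    (h : Mon d (f + XV.ind i + XV.ind j)) (hc : ∀ x, chi i x + chi j x = chi i' x + chi j' x) :
    Mon d (f + XV.ind i' + XV.ind j') := by
  intro x
  have := h x
  rw [mdeg_add, mdeg_add, mon_ind, mon_ind] at this ⊢
  rw [← this, add_assoc, add_assoc, hc]

/-- Normal forms. -/
structure Nrm (d : Fin 5 → ℕ) (e : Fin 10 → ℕ) : Prop where
  mon : Mon d e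
  h0 : e 0 = 0
  h9 : e 9 = 0
  a : e 2 = 0 ∨ e 4 = 0
  b : e 3 = 0 ∨ e 4 = 0
  c : e 3 = 0 ∨ e 5 = 0

theorem Nrm.uniq {d : Fin 5 → ℕ} {e e' : Fin 10 → ℕ} (h : Nrm d e) (h' : Nrm d e')
    (h7 : e 7 = e' 7) : e = e' := by
  obtain ⟨h1, h2, h3, h4, h5⟩ := (mon_iff d e).mp h.mon
  obtain ⟨h1', h2', h3', h4', h5'⟩ := (mon_iff d e').mp h'.mon
  have ha := h.a
  have hb := h.b
  have hc := h.c
  have ha' := h'.a
  have hb' := h'.b
  have hc' := h'.c
  have g0 := h.h0
  have g9 := h.h9
  have g0' := h'.h0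
  have g9' := h'.h9
  have g8 : e 8 = e' 8 := by omega
  have key : e 1 = e' 1 ∧ e 2 = e' 2 ∧ e 3 = e' 3 := by omega
  obtain ⟨k1, k2, k3⟩ := key
  have k4 : e 4 = e' 4 := by omega
  have k5 : e 5 = e' 5 := by omega
  have k6 : e 6 = e' 6 := by omega
  funext k
  fin_cases k
  · exact g0.trans g0'.symm
  · exact k1
  · exact k2
  · exact k3
  · exact k4
  · exact k5
  · exact k6
  · exact h7
  · exact g8
  · exact g9.trans g9'.symm

variable {k : Type} [Field k] [Algebra k Ω]

section

variable {P : Fin 10 → Ω} {d' d : Fin 5 → ℕ} {W : Submodule k Ω}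

/-- Monomials which contain the edge `01`. -/
theorem stepA (hd : d = d' + chi 0) (hA : ∀ f ∈ SP k P d', P 0 * f ∈ W) {e : Fin 10 → ℕ}
    (he : Mon d e) (h0 : 0 < e 0) : mP P e ∈ W := by
  obtain ⟨f, rfl⟩ : ∃ f, e = f + XV.ind 0 := by
    refine ⟨fun k => e k - XV.ind 0 k, ?_⟩
    funext k
    simp only [Pi.add_apply, XV.ind]
    by_cases h1 : k = 0
    · subst h1
      simp only [if_true]
      omega
    · simp only [if_neg h1]
      omega
  rw [mP_add, mP_ind, mul_comm]
  apply hA
  apply mP_mem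
  intro x
  have := he x
  rw [mdeg_add, mon_ind, hd, Pi.add_apply] at this
  omega

theorem stepB (hP : Plk P) (hd : d = d' + chi 0) (hA : ∀ f ∈ SP k P d', P 0 * f ∈ W)
    (hB : ∀ e, Nrm d e → mP P e ∈ W) :
    ∀ (n : ℕ) (e : Fin 10 → ℕ), Mon d e → e 9 = 0 → e 2 + 2 * e 3 = n → mP P e ∈ W := by
  intro n
  induction n using Nat.strong_induction_on with
  | _ n ih =>
    intro e he h9 hn
    by_cases h0 : 0 < e 0
    · exact stepA hd hA he h0
    by_cases c1 : 0 < e 2 ∧ 0 < e 4
    · obtain ⟨f, rfl⟩ := split (by decide) c1.1 c1.2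
      have m1 := mon_move 1 5 he (by decide)
      have m2 := mon_move 0 7 he (by decide)
      simp only [Pi.add_apply, XV.ind] at h9 hn
      have q1 := ih (f 2 + 2 * f 3) (by simp at hn; omega) _ m1
        (by simp at h9; simp [XV.ind, h9]) (by simp [XV.ind])
      have q2 := stepA hd hA m2 (by simp [XV.ind])
      rw [mP3] at q1 q2 ⊢
      have : mP P f * (P 2 * P 4) = mP P f * (P 1 * P 5) - mP P f * (P 0 * P 7) := by
        linear_combination mP P f * hP.r4
      rw [this]
      exact sub_mem q1 q2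
    by_cases c2 : 0 < e 3 ∧ 0 < e 4
    · obtain ⟨f, rfl⟩ := split (by decide) c2.1 c2.2
      have m1 := mon_move 1 6 he (by decide)
      have m2 := mon_move 0 8 he (by decide)
      simp only [Pi.add_apply, XV.ind] at h9 hn
      have q1 := ih (f 2 + 2 * f 3) (by simp at hn; omega) _ m1
        (by simp at h9; simp [XV.ind, h9]) (by simp [XV.ind])
      have q2 := stepA hd hA m2 (by simp [XV.ind])
      rw [mP3] at q1 q2 ⊢
      have : mP P f * (P 3 * P 4) = mP P f * (P 1 * P 6) - mP P f * (P 0 * P 8) := by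
        linear_combination mP P f * hP.r3
      rw [this]
      exact sub_mem q1 q2
    by_cases c3 : 0 < e 3 ∧ 0 < e 5
    · obtain ⟨f, rfl⟩ := split (by decide) c3.1 c3.2
      have m1 := mon_move 2 6 he (by decide)
      have m2 := mon_move 0 9 he (by decide)
      simp only [Pi.add_apply, XV.ind] at h9 hn
      have q1 := ih (f 2 + 1 + 2 * f 3) (by simp at hn; omega) _ m1
        (by simp at h9; simp [XV.ind, h9]) (by simp [XV.ind])
      have q2 := stepA hd hA m2 (by simp [XV.ind])
      rw [mP3] at q1 q2 ⊢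
      have : mP P f * (P 3 * P 5) = mP P f * (P 2 * P 6) - mP P f * (P 0 * P 9) := by
        linear_combination mP P f * hP.r2
      rw [this]
      exact sub_mem q1 q2
    exact hB e ⟨he, by omega, h9, by omega, by omega, by omega⟩

theorem stepC (hP : Plk P) (hd : d = d' + chi 0) (h34 : 2 * (d 3 + d 4) ≤ ∑ i, d i)
    (hA : ∀ f ∈ SP k P d', P 0 * f ∈ W) (hB : ∀ e, Nrm d e → mP P e ∈ W) :
    ∀ (n : ℕ) (e : Fin 10 → ℕ), Mon d e → e 9 = n → mP P e ∈ W := by
  intro n
  induction n with
  | zero => intro e he h9; exact stepB hP hd hA hB _ e he h9 rfl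
  | succ n ih =>
    intro e he h9
    by_cases h0 : 0 < e 0
    · exact stepA hd hA he h0
    have hs : ∑ i, d i = d 0 + d 1 + d 2 + d 3 + d 4 := by
      simp [Fin.sum_univ_succ]; ring_nf
    rw [hs] at h34
    obtain ⟨h1, h2, h3, h4, h5⟩ := (mon_iff d e).mp he
    have hc : 0 < e 1 ∨ 0 < e 4 := by omega
    rcases hc with hc | hc
    · obtain ⟨f, rfl⟩ := split (i := 1) (j := 9) (by decide) hc (by omega)
      have m1 := mon_move 2 8 he (by decide)
      have m2 := mon_move 3 7 he (by decide)
      simp only [Pi.add_apply, XV.ind] at h9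
      have q1 := ih _ m1 (by simp at h9; simp [XV.ind, h9])
      have q2 := ih _ m2 (by simp at h9; simp [XV.ind, h9])
      rw [mP3] at q1 q2 ⊢
      have : mP P f * (P 1 * P 9) = mP P f * (P 2 * P 8) - mP P f * (P 3 * P 7) := by
        linear_combination mP P f * hP.r1
      rw [this]
      exact sub_mem q1 q2
    · obtain ⟨f, rfl⟩ := split (i := 4) (j := 9) (by decide) hc (by omega)
      have m1 := mon_move 5 8 he (by decide)
      have m2 := mon_move 6 7 he (by decide)
      simp only [Pi.add_apply, XV.ind] at h9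
      have q1 := ih _ m1 (by simp at h9; simp [XV.ind, h9])
      have q2 := ih _ m2 (by simp at h9; simp [XV.ind, h9])
      rw [mP3] at q1 q2 ⊢
      have : mP P f * (P 4 * P 9) = mP P f * (P 5 * P 8) - mP P f * (P 6 * P 7) := by
        linear_combination mP P f * hP.r0
      rw [this]
      exact sub_mem q1 q2

end

end STP_

open STP_ in
theorem stp_proof : Stmt_STP := by
  intro k Ω _ _ _ P hP d' d hd hev h01 _ _ h34
  set S := ∑ i, d i with hSdef
  have hs : S = d 0 + d 1 + d 2 + d 3 + d 4 := by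
    rw [hSdef]; simp [Fin.sum_univ_succ]; ring_nf
  -- the normal monomials
  let m : ℕ := S / 2 + 1 - (d 0 + d 1)
  let z : Fin m → Ω := fun t => if h : ∃ e, Nrm d e ∧ e 7 = t then mP P h.choose else 0
  let A : Submodule k Ω := (SP k P d').map (LinearMap.mulLeft k (P 0))
  let W : Submodule k Ω := A ⊔ Submodule.span k (Set.range z)
  have hA : ∀ f ∈ SP k P d', P 0 * f ∈ W := fun f hf =>
    Submodule.mem_sup_left ⟨f, hf, rfl⟩
  have hB : ∀ e, Nrm d e → mP P e ∈ W := by
    intro e he
    apply Submodule.mem_sup_right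
    apply Submodule.subset_span
    obtain ⟨h1, h2, h3, h4, h5⟩ := (mon_iff d e).mp he.mon
    have g0 := he.h0
    have g9 := he.h9
    have hlt : e 7 < m := by
      show e 7 < S / 2 + 1 - (d 0 + d 1)
      omega
    refine ⟨⟨e 7, hlt⟩, ?_⟩
    have hex : ∃ e', Nrm d e' ∧ e' 7 = e 7 := ⟨e, he, rfl⟩
    show (if h : ∃ e', Nrm d e' ∧ e' 7 = e 7 then mP P h.choose else 0) = mP P e
    rw [dif_pos hex, hex.choose_spec.1.uniq he hex.choose_spec.2]
  have hle : SP k P d ≤ W := by
    unfold SP
    rw [Submodule.span_le]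
    rintro _ ⟨e, he, rfl⟩
    exact stepC hP hd h34 hA hB _ e he rfl
  have : FiniteDimensional k (Submodule.span k (Set.range z)) :=
    FiniteDimensional.span_of_finite k (Set.finite_range z)
  have hAfd : FiniteDimensional k A := inferInstance
  have h1 : Module.finrank k (SP k P d) ≤ Module.finrank k W := Submodule.finrank_mono hle
  have h2 : Module.finrank k W ≤ Module.finrank k A +
      Module.finrank k (Submodule.span k (Set.range z)) := Submodule.finrank_add_le_finrank_add_finrank _ _
  have h3 : Module.finrank k A ≤ Module.finrank k (SP k P d') := Submodule.finrank_map_le _ _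
  have h4 : Module.finrank k (Submodule.span k (Set.range z)) ≤ m := by
    have := finrank_range_le_card (R := k) z
    rwa [Fintype.card_fin] at this
  have h5 : m = S / 2 + 1 - (d 0 + d 1) := rfl
  omega

end Pool.Agent.SFS
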