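import Pool.Agent.SFS.Stmts

/-!
SFS, module TD3: three elements of `k(u, v)` are algebraically dependent.
-/

set_option autoImplicit false

namespace Pool.Agent.SFS

open scoped Classical

open Pool.Agent.SFB

theorem td3_proof : Stmt_TD3 := by
  intro k Ω _ _ _ u v a b c ha hb hc hind
  have hu : u ∈ UV u v k := IntermediateField.subset_adjoin _ _ (by simp)
  have hv : v ∈ UV u v k := IntermediateField.subset_adjoin _ _ (by simp)
  let s : Set (UV u v k) := {⟨u, hu⟩, ⟨v, hv⟩}
  have h1 : ∀ x (hx : x ∈ UV u v k),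
      IsAlgebraic (Algebra.adjoin k s) (⟨x, hx⟩ : UV u v k) := by
    intro x hx
    refine IntermediateField.adjoin_induction (p := fun x hx =>
      IsAlgebraic (Algebra.adjoin k s) (⟨x, hx⟩ : UV u v k)) k ?_ ?_ ?_ ?_ ?_ hx
    · intro x hx
      have h2 : (⟨x, IntermediateField.subset_adjoin _ _ hx⟩ : UV u v k) ∈ Algebra.adjoin k s := by
        apply Algebra.subset_adjoin
        rcases hx with hx | hx
        · subst hx; exact Or.inl rfl
        · cases hx; exact Or.inr rfl
      exact isAlgebraic_algebraMap (A := UV u v k) (⟨_, h2⟩ : Algebra.adjoin k s)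
    · intro x
      exact isAlgebraic_algebraMap (A := UV u v k) (algebraMap k (Algebra.adjoin k s) x)
    · intro x y hx hy h3 h4
      exact h3.add h4
    · intro x hx h3
      exact h3.inv
    · intro x y hx hy h3 h4
      exact h3.mul h4
  have : Algebra.IsAlgebraic (Algebra.adjoin k s) (UV u v k) := ⟨fun x => h1 x.1 x.2⟩
  have h2 := Algebra.IsAlgebraic.trdeg_le_cardinalMk (R := k) (A := UV u v k) (s := s)
  have h3 : Cardinal.mk s ≤ 2 := by
    refine (Cardinal.mk_insert_le).trans ?_
    rw [Cardinal.mk_singleton]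
    norm_num
  let w : Fin 3 → UV u v k := ![⟨a, ha⟩, ⟨b, hb⟩, ⟨c, hc⟩]
  have h4 : AlgebraicIndependent k w := by
    have h5 : (algebraMap (UV u v k) Ω) ∘ w = ![a, b, c] := by
      funext i
      fin_cases i <;> rfl
    rw [← h5] at hind
    exact AlgebraicIndependent.of_comp (IsScalarTower.toAlgHom k (UV u v k) Ω) hind
  have h5 := h4.lift_cardinalMk_le_trdeg
  simp only [Cardinal.mk_fin] at h5
  have h6 : (3 : Cardinal) ≤ 2 := by
    refine le_trans ?_ (h2.trans h3)
    simpa using h5
  norm_num at h6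

end Pool.Agent.SFS
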