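import Pool.Agent.SFS.Stmts

/-!
Module TNF of squad SFS: the charts cover the moduli space of five points.
-/

set_option autoImplicit false

noncomputable section

namespace Pool.Agent.SFS

open scoped Classical
open Pool.Agent.SFB

namespace TNF_

variable {Ω : Type} [Field Ω] {Γ : Type} [LinearOrderedCommGroupWithZero Γ] (v : Valuation Ω Γ)

lemma tri {a b c : Ω} (h : a - b + c = 0) :
    v a ≤ max (v b) (v c) ∧ v b ≤ max (v a) (v c) ∧ v c ≤ max (v a) (v b) := by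
  have ha : a = b - c := by linear_combination h
  have hb : b = a + c := by linear_combination -h
  have hc : c = b - a := by linear_combination h
  refine ⟨?_, ?_, ?_⟩
  · conv_lhs => rw [ha]
    exact v.map_sub b c
  · conv_lhs => rw [hb]
    exact v.map_add a c
  · conv_lhs => rw [hc]
    rw [max_comm]
    exact v.map_sub b a

lemma quad : ∀ i j k l : Fin 5, i < j → j < k → k < l →
    (i = 0 ∧ j = 1 ∧ k = 2 ∧ l = 3) ∨ (i = 0 ∧ j = 1 ∧ k = 2 ∧ l = 4) ∨
    (i = 0 ∧ j = 1 ∧ k = 3 ∧ l = 4) ∨ (i = 0 ∧ j = 2 ∧ k = 3 ∧ l = 4) ∨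
    (i = 1 ∧ j = 2 ∧ k = 3 ∧ l = 4) := by
  decide

lemma four {P : Fin 10 → Ω} (h : Plk P) (i j k l : Fin 5) (h1 : i < j) (h2 : j < k) (h3 : k < l) :
    P (XV.ed i j) * P (XV.ed k l) - P (XV.ed i k) * P (XV.ed j l) +
      P (XV.ed i l) * P (XV.ed j k) = 0 := by
  rcases quad i j k l h1 h2 h3 with ⟨rfl, rfl, rfl, rfl⟩ | ⟨rfl, rfl, rfl, rfl⟩ |
    ⟨rfl, rfl, rfl, rfl⟩ | ⟨rfl, rfl, rfl, rfl⟩ | ⟨rfl, rfl, rfl, rfl⟩
  · exact h.r4
  · exact h.r3
  · exact h.r2
  · exact h.r1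
  · exact h.r0

end TNF_

open TNF_ in
theorem tnf_proof (hPLB : Stmt_PLB) (hTre : XV.Stmt_Tre) : Stmt_TNF := by
  intro Ω _ u v hpk V
  have hP1 : Plk (pk u v) := (hPLB Ω u v 1).1
  have hA : ∀ k, V.valuation (pk u v k) ≠ 0 := fun k => (Valuation.ne_zero_iff _).2 (hpk k)
  obtain ⟨π, g1, g2, g3, g4, g5⟩ := hTre V.ValueGroup (fun k => V.valuation (pk u v k)) hA (by
    intro i j k l h1 h2 h3
    have h := tri V.valuation (four hP1 i j k l h1 h2 h3)
    rw [map_mul, map_mul, map_mul] at h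
    exact h)
  refine ⟨π, ?_⟩
  obtain ⟨hP, hpm, -⟩ := hPLB Ω u v π
  generalize hQ : bk u v π = P at hP hpm
  have hne : ∀ k, P k ≠ 0 := by
    intro k h0
    rcases hpm k with h | h
    · exact hpk _ (h.symm.trans h0)
    · exact hpk _ (neg_eq_zero.1 (h.symm.trans h0))
  have hv : ∀ k, V.valuation (P k) = V.valuation (pk u v (XV.pe π k)) := by
    intro k
    rcases hpm k with h | h
    · rw [h]
    · rw [h, Valuation.map_neg]
  simp only [← hv, ← map_mul] at g1 g2 g3 g4 g5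
  have h35 : P 3 * P 5 ≠ 0 := mul_ne_zero (hne 3) (hne 5)
  have h19 : P 1 * P 9 ≠ 0 := mul_ne_zero (hne 1) (hne 9)
  have h15 : P 1 * P 5 ≠ 0 := mul_ne_zero (hne 1) (hne 5)
  have ex : 1 + sx P = P 2 * P 6 / (P 3 * P 5) := by
    unfold sx
    rw [eq_div_iff h35, add_mul, div_mul_cancel₀ _ h35]
    linear_combination hP.r2
  have ey : 1 + sy P = P 2 * P 8 / (P 1 * P 9) := by
    unfold sy
    rw [eq_div_iff h19, add_mul, div_mul_cancel₀ _ h19]
    linear_combination hP.r1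
  have exy : 1 - sx P * sy P = P 2 * P 4 / (P 1 * P 5) := by
    have h1 : sx P * sy P = P 0 * P 7 / (P 1 * P 5) := by
      unfold sx sy
      have := hne 3
      have := hne 9
      have := hne 5
      have := hne 1
      field_simp
    rw [h1, eq_div_iff h15, sub_mul, div_mul_cancel₀ _ h15]
    linear_combination -hP.r4
  refine ⟨?_, ?_, ?_, ?_, ?_⟩
  · exact mem_of_val_le V h35 g4
  · refine mem_of_val_le V h19 ?_
    rw [mul_comm (P 7) (P 3)]
    exact g5
  · rw [ex, inv_div]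
    exact mem_of_val_le V (mul_ne_zero (hne 2) (hne 6)) g1.ge
  · rw [ey, inv_div]
    exact mem_of_val_le V (mul_ne_zero (hne 2) (hne 8)) g2.ge
  · rw [exy, inv_div]
    exact mem_of_val_le V (mul_ne_zero (hne 2) (hne 4)) g3.ge

end Pool.Agent.SFS
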