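import Pool.Agent.SFS.Stmts

/-!
# SFS, module TOP: products of maximal monomials are maximal
-/

set_option autoImplicit false

namespace Pool.Agent.SFS

open scoped Classical
open Pool.Agent.SFB

theorem top_proof (hTNF : Stmt_TNF) (hTPC : Stmt_TPC) : Pool.Agent.SFB.Stmt_TOP := by
  intro Ω _ u v hne V d d' e e' hd hd' he he'
  obtain ⟨π, hπ⟩ := hTNF Ω u v hne V
  have hdd : Nef (d + d') := by
    rw [nef_iff] at hd hd' ⊢
    obtain ⟨⟨a, ha⟩, h1⟩ := hd
    obtain ⟨⟨b, hb⟩, h2⟩ := hd'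
    simp only [Pi.add_apply]
    refine ⟨⟨a + b, by omega⟩, ?_⟩
    omega
  obtain ⟨m1, x1, y1⟩ := (hTPC Ω u v hne V π hπ d hd e).1 he
  obtain ⟨m2, x2, y2⟩ := (hTPC Ω u v hne V π hπ d' hd' e').1 he'
  refine (hTPC Ω u v hne V π hπ (d + d') hdd (e + e')).2 ⟨mon_add m1 m2, ?_, ?_⟩
  · rcases x1 with x1 | x1
    · rcases x2 with x2 | x2
      · left
        rw [Pi.add_apply, x1, x2]
      · exact Or.inr x2
    · exact Or.inr x1
  · rcases y1 with y1 | y1
    · rcases y2 with y2 | y2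
      · left
        rw [Pi.add_apply, y1, y2]
      · exact Or.inr y2
    · exact Or.inr y1

end Pool.Agent.SFS
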