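import Pool.Agent.SFS.Stmts

/-! TPC: maximal monomials in a chart. -/

set_option autoImplicit false

noncomputable section

namespace Pool.Agent.SFS

open scoped Classical
open Pool.Agent.SFB

namespace TPC_

variable {Ω : Type} [Field Ω]

theorem val_unit (V : ValuationSubring Ω) {x : Ω} (h0 : x ≠ 0) (h : x ∈ V) (h' : x⁻¹ ∈ V) :
    V.valuation x = 1 := by
  apply le_antisymm
  · exact (V.valuation_le_one_iff x).2 h
  · have h1 := (V.valuation_le_one_iff x⁻¹).2 h'
    rw [map_inv₀] at h1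
    exact (inv_le_one₀ (zero_lt_iff.2 ((Valuation.ne_zero_iff _).2 h0))).1 h1

theorem rel (P : Fin 10 → Ω) (hP : Plk P) (h : ∀ k, P k ≠ 0) :
    1 + sx P ≠ 0 ∧ 1 + sy P ≠ 0 ∧ 1 - sx P * sy P ≠ 0 ∧ sx P ≠ 0 ∧ sy P ≠ 0 := by
  have e1 : 1 + sx P = P 2 * P 6 / (P 3 * P 5) := by
    unfold sx
    have h3 := h 3
    have h5 := h 5
    field_simp
    linear_combination hP.r2
  have e2 : 1 + sy P = P 2 * P 8 / (P 1 * P 9) := by
    unfold sy
    have h3 := h 1
    have h5 := h 9
    field_simp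
    linear_combination hP.r1
  have e3 : 1 - sx P * sy P = P 2 * P 4 / (P 1 * P 5) := by
    unfold sx sy
    have h1 := h 1
    have h3 := h 3
    have h5 := h 5
    have h9 := h 9
    field_simp
    linear_combination (-1) * hP.r4
  refine ⟨?_, ?_, ?_, ?_, ?_⟩
  · rw [e1]
    exact div_ne_zero (mul_ne_zero (h _) (h _)) (mul_ne_zero (h _) (h _))
  · rw [e2]
    exact div_ne_zero (mul_ne_zero (h _) (h _)) (mul_ne_zero (h _) (h _))
  · rw [e3]
    exact div_ne_zero (mul_ne_zero (h _) (h _)) (mul_ne_zero (h _) (h _))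
  · exact div_ne_zero (mul_ne_zero (h _) (h _)) (mul_ne_zero (h _) (h _))
  · exact div_ne_zero (mul_ne_zero (h _) (h _)) (mul_ne_zero (h _) (h _))

/-- powers of elements of valuation at most one -/
theorem pw {Γ : Type} [LinearOrderedCommGroupWithZero Γ] {x y c : Γ} (hx : x ≤ 1) (hy : y ≤ 1)
    (hc : c ≠ 0) {a b : ℕ} (h : c ≤ c * x ^ a * y ^ b) : (a = 0 ∨ x = 1) ∧ (b = 0 ∨ y = 1) := by
  have hxa : x ^ a ≤ 1 := pow_le_one₀ zero_le hx
  have hyb : y ^ b ≤ 1 := pow_le_one₀ zero_le hy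
  have h1 : 1 ≤ x ^ a * y ^ b := by
    rw [mul_assoc] at h
    have h2 : c * 1 ≤ c * (x ^ a * y ^ b) := by rwa [mul_one]
    exact (mul_le_mul_iff_right₀ (zero_lt_iff.2 hc)).1 h2
  have h3 : x ^ a = 1 := le_antisymm hxa (h1.trans (mul_le_of_le_one_right' hyb))
  have h4 : y ^ b = 1 := le_antisymm hyb (h1.trans (mul_le_of_le_one_left' hxa))
  constructor
  · by_cases ha : a = 0
    · exact Or.inl ha
    · exact Or.inr ((pow_eq_one_iff.1 h3).resolve_right ha)
  · by_cases hb : b = 0
    · exact Or.inl hb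
    · exact Or.inr ((pow_eq_one_iff.1 h4).resolve_right hb)

end TPC_

open TPC_ in
theorem tpc_proof (hPLB : Stmt_PLB) (hLOC : Stmt_LOC) (hNFX : Stmt_NFX) : Stmt_TPC := by
  intro Ω _ u v hpk V π hch d hd e
  obtain ⟨hplk, hsg, hmo, hMon, hNef, -⟩ := hPLB Ω u v π
  set P := bk u v π with hPdef
  have hP0 : ∀ k, P k ≠ 0 := by
    intro k
    rcases hsg k with h | h
    · rw [h]; exact hpk _
    · rw [h]; exact neg_ne_zero.2 (hpk _)
  obtain ⟨n1, n2, n3, n4, n5⟩ := rel P hplk hP0
  have v1 : V.valuation (1 + sx P) = 1 := val_unit V n1 (add_mem (one_mem _) hch.x) hch.ux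
  have v2 : V.valuation (1 + sy P) = 1 := val_unit V n2 (add_mem (one_mem _) hch.y) hch.uy
  have v3 : V.valuation (1 - sx P * sy P) = 1 :=
    val_unit V n3 (sub_mem (one_mem _) (mul_mem hch.x hch.y)) hch.uxy
  have vx : V.valuation (sx P) ≤ 1 := (V.valuation_le_one_iff _).2 hch.x
  have vy : V.valuation (sy P) ≤ 1 := (V.valuation_le_one_iff _).2 hch.y
  obtain ⟨C, hC0, hC⟩ := hLOC Ω P hplk hP0 (fun i => d (π i))
  have vC : V.valuation C ≠ 0 := (Valuation.ne_zero_iff _).2 hC0
  -- valuations of the monomials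
  have key : ∀ e, Mon d e → V.valuation (mo u v e) =
      V.valuation C * V.valuation (sx P) ^ e (XV.pe π 0) * V.valuation (sy P) ^ e (XV.pe π 7) := by
    intro e he
    have h1 := hC _ ((hMon d e).1 he)
    have h2 : V.valuation (mo u v e) = V.valuation (mP P (fun k => e (XV.pe π k))) := by
      rcases hmo e with h | h
      · rw [h]
      · rw [h, Valuation.map_neg]
    rw [h2, h1]
    simp only [map_mul, map_pow, v1, v2, v3, one_pow, mul_one]
  have hsxi : (sx P)⁻¹ ∈ V ↔ V.valuation (sx P) = 1 := by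
    constructor
    · intro h
      exact val_unit V n4 hch.x h
    · intro h
      rw [← V.valuation_le_one_iff, map_inv₀, h, inv_one]
  have hsyi : (sy P)⁻¹ ∈ V ↔ V.valuation (sy P) = 1 := by
    constructor
    · intro h
      exact val_unit V n5 hch.y h
    · intro h
      rw [← V.valuation_le_one_iff, map_inv₀, h, inv_one]
  rw [hsxi, hsyi]
  constructor
  · rintro ⟨he, htop⟩
    refine ⟨he, ?_⟩
    -- a monomial of valuation `val C`
    have hn := (nef_iff _).1 ((hNef d).1 hd)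
    obtain ⟨e0, he0, h00, h07⟩ := hNFX (fun i => d (π i)) (by
        have hs : ∑ i, d (π i) = d (π 0) + d (π 1) + d (π 2) + d (π 3) + d (π 4) := by
          simp [Fin.sum_univ_succ]; ring_nf
        rw [hs]; exact hn.1)
      hn.2.1 hn.2.2.2.2.2.2.2.2.1 (by have := ((hNef d).1 hd).1; omega)
    have hinv : ∀ k, XV.pe π⁻¹ (XV.pe π k) = k := by
      intro k
      rw [← XV.pe_mul, inv_mul_cancel, XV.pe_one]
    have hm' : Mon d (fun k => e0 (XV.pe π⁻¹ k)) := by
      rw [hMon d]
      simp only [hinv]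
      exact he0
    have h1 := key _ hm'
    simp only [hinv] at h1
    rw [h00, h07, pow_zero, pow_zero, mul_one, mul_one] at h1
    have h2 := (V.valuation_le_one_iff _).2 (htop _ hm')
    rw [map_div₀] at h2
    have h3 := (div_le_one₀ (zero_lt_iff.2 ((Valuation.ne_zero_iff _).2 (mP_ne hpk e)))).1 h2
    rw [h1, key e he] at h3
    exact pw vx vy vC h3
  · rintro ⟨he, ha, hb⟩
    refine ⟨he, fun e' he' => mem_of_val_le V (mP_ne hpk e) ?_⟩
    rw [key e he, key e' he']
    have h1 : V.valuation (sx P) ^ e (XV.pe π 0) = 1 := by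
      rcases ha with h | h
      · rw [h, pow_zero]
      · rw [h, one_pow]
    have h2 : V.valuation (sy P) ^ e (XV.pe π 7) = 1 := by
      rcases hb with h | h
      · rw [h, pow_zero]
      · rw [h, one_pow]
    rw [h1, h2, mul_one, mul_one]
    exact (mul_le_of_le_one_right' (pow_le_one₀ zero_le vy)).trans
      (mul_le_of_le_one_right' (pow_le_one₀ zero_le vx))

end Pool.Agent.SFS
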