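import Pool.Agent.SFS.Stmts

set_option autoImplicit false

noncomputable section

namespace Pool.Agent.SFS

open scoped Classical
open Pool.Agent.SFB

namespace TR1_

variable {k Ω : Type} [Field k] [Field Ω] [Algebra k Ω]

theorem fin3 : ∀ i j : Fin 3, i = j ∨ i = j + 1 ∨ i = j + 2 := by decide

/-- Integral elements over a subalgebra of `F` are algebraic over `F`. -/
theorem alg_of_int (F : IntermediateField k Ω) (A : Subalgebra k Ω) (h : A ≤ F.toSubalgebra)
    {x : Ω} (hx : IsIntegral A x) : IsAlgebraic F x := by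
  obtain ⟨p, hp, hp0⟩ := hx
  have h1 : IsIntegral F x := by
    refine ⟨p.map (Subalgebra.inclusion h).toRingHom, hp.map _, ?_⟩
    rw [Polynomial.eval₂_map]
    exact hp0
  exact h1.isAlgebraic

theorem key (hUVG : Stmt_UVG) (hTRD : Stmt_TRD) (hVCR : Stmt_VCR) {u v : Ω}
    (huv : AlgebraicIndependent k ![u, v]) {d : Fin 5 → ℕ} (hd : Nef d)
    (hb : 4 * ∑ i, d i ^ 2 < (∑ i, d i) ^ 2) (σ : Fin 3 → Ω)
    (hσ : ∀ V : ValuationSubring Ω, KV k V → ∀ f ∈ Sec u v k d, f ≠ 0 →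
      ∃ i, σ i ≠ 0 ∧ f / σ i ∈ V) (j : Fin 3) (hj : σ j ≠ 0) :
    AlgebraicIndependent k ![σ (j + 1) / σ j, σ (j + 2) / σ j] := by
  have hint : ∀ f ∈ Sec u v k d, IntS k σ 1 1 f := by
    intro f hf
    refine hVCR k Ω σ 1 f fun V hV i hi => ?_
    rw [pow_one]
    by_cases h0 : σ i = 0
    · rw [h0, div_zero]; exact zero_mem _
    by_cases hf0 : f = 0
    · rw [hf0, zero_div]; exact zero_mem _
    obtain ⟨l, hl, hl'⟩ := hσ V hV f hf hf0
    have : f / σ i = (f / σ l) * (σ l / σ i) := by field_simp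
    rw [this]
    exact mul_mem hl' (hi l)
  set F := IntermediateField.adjoin k {σ (j + 1) / σ j, σ (j + 2) / σ j} with hF
  have m1 : σ (j + 1) / σ j ∈ F := IntermediateField.mem_adjoin_pair_left k _ _
  have m2 : σ (j + 2) / σ j ∈ F := IntermediateField.mem_adjoin_pair_right k _ _
  have m0 : σ j / σ j ∈ F := by rw [div_self hj]; exact one_mem _
  have hm : ∀ i, σ i / σ j ∈ F := by
    intro i
    have := fin3 i j
    rcases this with rfl | rfl | rfl
    · exact m0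
    · exact m1
    · exact m2
  have halg : ∀ f ∈ Sec u v k d, IsAlgebraic F (f / σ j) := by
    intro f hf
    have h := hint f hf j
    rw [pow_one, pow_one] at h
    refine alg_of_int F _ ?_ h
    rw [Algebra.adjoin_le_iff]
    rintro _ ⟨i, rfl⟩
    exact hm i
  let E : IntermediateField k Ω := (algebraicClosure F Ω).restrictScalars k
  have hE : ∀ x : Ω, x ∈ E ↔ IsAlgebraic F x := by
    intro x
    show x ∈ algebraicClosure F Ω ↔ _
    rw [mem_algebraicClosure_iff']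
    exact isAlgebraic_iff_isIntegral.symm
  have h2 := hUVG k Ω u v (pk_ne huv) d hd hb E (by
    intro e e' he he'
    have h3 : mo u v e / σ j ∈ E := (hE _).2 (halg _ (mo_mem k u v he))
    have h4 : mo u v e' / σ j ∈ E := (hE _).2 (halg _ (mo_mem k u v he'))
    have h5 : mo u v e' / mo u v e = (mo u v e' / σ j) / (mo u v e / σ j) := by
      have := mo_ne huv e
      field_simp
    rw [h5]
    exact div_mem h4 h3)
  exact hTRD k Ω u v _ _ huv ((hE _).1 h2.1) ((hE _).1 h2.2)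

theorem ne_zero {a b : Ω} (h : AlgebraicIndependent k ![a, b]) : a ≠ 0 ∧ b ≠ 0 := by
  obtain ⟨h1, h2, -⟩ := ne_alg h
  have h3 := h1 0
  have h4 := h2 0
  rw [map_zero] at h3 h4
  exact ⟨h3, h4⟩

theorem tr1_proof (hNOE : Stmt_NOE) (hTD3 : Stmt_TD3) (hUVG : Stmt_UVG) (hTRD : Stmt_TRD)
    (hVCR : Stmt_VCR) : Stmt_TR1 := by
  intro k Ω _ _ _ _ u v huv d hd hb
  obtain ⟨σ, hσ, hσ'⟩ := hNOE k Ω (Sec u v k d) inferInstance (by
    intro f g h l hf hg hh hl
    exact hTD3 k Ω u v _ _ _ (div_mem (Sec_le_UV hf) (Sec_le_UV hl))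
      (div_mem (Sec_le_UV hg) (Sec_le_UV hl)) (div_mem (Sec_le_UV hh) (Sec_le_UV hl)))
  have hk := key hUVG hTRD hVCR huv hd hb σ hσ'
  have hex : ∃ e, Mon d e := by
    by_contra hne
    push Not at hne
    have h := hUVG k Ω u v (pk_ne huv) d hd hb ⊥ (fun e e' he => absurd he (hne e))
    obtain ⟨a, ha⟩ := IntermediateField.mem_bot.1 h.1
    exact (ne_alg huv).1 a ha.symm
  obtain ⟨e, he⟩ := hex
  obtain ⟨j, hj, -⟩ := hσ' ⊤ (fun a => ValuationSubring.mem_top _) _ (mo_mem k u v he)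
    (mo_ne huv e)
  have hall : ∀ i, σ i ≠ 0 := by
    obtain ⟨h1, h2⟩ := ne_zero (hk j hj)
    intro i
    have := fin3 i j
    rcases this with rfl | rfl | rfl
    · exact hj
    · intro h0; rw [h0, zero_div] at h1; exact h1 rfl
    · intro h0; rw [h0, zero_div] at h2; exact h2 rfl
  exact ⟨σ, ⟨hσ, fun V hV e he => hσ' V hV _ (mo_mem k u v he.1) (mo_ne huv e)⟩,
    ⟨hall, hk 0 (hall 0)⟩⟩

end TR1_

theorem tr1_proof (hNOE : Stmt_NOE) (hTD3 : Stmt_TD3) (hUVG : Stmt_UVG) (hTRD : Stmt_TRD)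
    (hVCR : Stmt_VCR) : Stmt_TR1 := TR1_.tr1_proof hNOE hTD3 hUVG hTRD hVCR

end Pool.Agent.SFS
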