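import Pool.Agent.SFS.Stmts

set_option autoImplicit false

noncomputable section

namespace Pool.Agent.SFS

open scoped Classical
open Pool.Agent.SFB

namespace TRD_

open AlgebraicIndependent

theorem trd_proof : Stmt_TRD := by
  intro k Ω _ _ _ u v a b huv hu hv
  have inj := huv.injective
  have hne : u ≠ v := by
    intro h
    have := inj (a₁ := 0) (a₂ := 1) (by simpa using h)
    exact absurd this (by decide)
  have hinj : Function.Injective (algebraMap k Ω) := (algebraMap k Ω).injective
  have i1 : (matroid k Ω).Indep {u, v} := by
    rw [matroid_indep_iff]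
    have h := huv.to_subtype_range
    have hr : Set.range ![u, v] = {u, v} := by simp [Set.pair_comm]
    rw [hr] at h
    exact h
  have c : ∀ w, IsAlgebraic (IntermediateField.adjoin k {a, b}) w →
      w ∈ (matroid k Ω).closure {a, b} := by
    intro w hw
    rw [matroid_closure_eq]
    exact (IntermediateField.isAlgebraic_adjoin_iff).1 hw
  have hsub : ({u, v} : Set Ω) ⊆ (matroid k Ω).closure {a, b} := by
    rintro w (rfl | rfl)
    · exact c _ hu
    · exact c _ hv
  have h1 : (2 : ℕ∞) ≤ (matroid k Ω).eRk {a, b} := by
    have h2 := (matroid k Ω).eRk_mono hsub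
    rw [Matroid.eRk_closure_eq, i1.eRk_eq_encard, Set.encard_pair hne] at h2
    exact h2
  have hab : a ≠ b := by
    rintro rfl
    have h2 := (matroid k Ω).eRk_le_encard {a, a}
    simp only [Set.pair_eq_singleton, Set.encard_singleton] at h2 h1
    have h3 := h1.trans h2
    exact absurd h3 (by decide)
  have i2 : (matroid k Ω).Indep {a, b} := by
    rw [Matroid.indep_iff_eRk_eq_encard_of_finite (by simp)]
    refine le_antisymm ((matroid k Ω).eRk_le_encard _) ?_
    rw [Set.encard_pair hab]
    exact h1
  rw [matroid_indep_iff] at i2
  have hin : Function.Injective ![a, b] := by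
    intro i j
    fin_cases i <;> fin_cases j <;> simp [hab, hab.symm]
  refine (algebraicIndependent_subtype_range hin).1 ?_
  have hr : Set.range ![a, b] = {a, b} := by simp [Set.pair_comm]
  rw [hr]
  exact i2

end TRD_

theorem trd_proof : Stmt_TRD := TRD_.trd_proof

end Pool.Agent.SFS
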