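import Pool.Agent.SFS.Stmts

/-!
# The moduli space of five points on the line, module TRP: coordinates of planes
-/

set_option autoImplicit false

noncomputable section

namespace Pool.Agent.SFS

open scoped Classical
open Pool.Agent.SFB

namespace TRP_

theorem nef_smul (n : ℕ) {d : Fin 5 → ℕ} (h : Nef d) : Nef (fun i => n * d i) := by
  refine ⟨?_, fun k => ?_⟩
  · rw [← Finset.mul_sum]
    exact h.1.mul_left n
  · rw [← Finset.mul_sum]
    have h1 := Nat.mul_le_mul_left n (h.2 k)
    calc 2 * (n * d (XV.eS k) + n * d (XV.eT k)) = n * (2 * (d (XV.eS k) + d (XV.eT k))) := by ring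
      _ ≤ _ := h1

end TRP_

open TRP_

/-- TRP: coordinates of planes. -/
theorem trp_proof (hTR1 : Stmt_TR1) (hUVG : Stmt_UVG) (hDUP : Stmt_DUP) (hDGU : Stmt_DGU) :
    SFB.Stmt_TRP := by
  intro k Ω _ _ _ _ u v huv d hd hbig
  have : Infinite k := IsAlgClosed.instInfinite
  obtain ⟨σ, hF, hP⟩ := hTR1 k Ω u v huv d hd hbig
  refine ⟨σ, hF, hP, ?_⟩
  obtain ⟨m, hm⟩ := hd.1
  have hle : ∑ i, d i ^ 2 ≤ m ^ 2 := by
    rw [hm] at hbig
    nlinarith
  obtain ⟨c, hc⟩ := Nat.exists_eq_add_of_le hle
  have e1 : (fun i => 1 * d i) = d := by funext i; rw [one_mul]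
  have e0 : (fun i => 0 * d i) = (0 : Fin 5 → ℕ) := by funext i; rw [zero_mul]; rfl
  have hσ : ∀ i, σ i ∈ Sec u v k (fun i => 1 * d i) := by
    intro i
    rw [e1]
    exact hF.sec i
  have key := hDGU k Ω σ hP (fun n => Sec u v k (fun i => n * d i))
    (fun n => Sec_fd k u v _) (by
      show (1 : Ω) ∈ Sec u v k (fun i => 0 * d i)
      rw [e0]
      exact one_mem_Sec u v) hσ (by
      intro a b f g hf hg
      have h := Sec_mul hf hg
      have e2 : (fun i => a * d i) + (fun i => b * d i) = (fun i => (a + b) * d i) := by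
        funext i
        show a * d i + b * d i = (a + b) * d i
        ring
      rwa [e2] at h) (UV u v k) (by
      apply le_antisymm
      · have h := hUVG k Ω u v (pk_ne huv) d hd hbig
          (IntermediateField.adjoin k {g | ∃ f ∈ Sec u v k (fun i => 1 * d i), g = f / σ 0}) (by
            intro e e' he he'
            rw [e1]
            have h1 : mo u v e / σ 0 ∈
                IntermediateField.adjoin k {g | ∃ f ∈ Sec u v k d, g = f / σ 0} :=
              IntermediateField.subset_adjoin _ _ ⟨_, mo_mem k u v he, rfl⟩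
            have h2 : mo u v e' / σ 0 ∈
                IntermediateField.adjoin k {g | ∃ f ∈ Sec u v k d, g = f / σ 0} :=
              IntermediateField.subset_adjoin _ _ ⟨_, mo_mem k u v he', rfl⟩
            have h3 := div_mem h2 h1
            rwa [div_div_div_cancel_right₀ (hP.ne 0)] at h3)
        unfold UV
        rw [IntermediateField.adjoin_le_iff]
        rintro x (rfl | rfl)
        · exact h.1
        · exact h.2
      · rw [IntermediateField.adjoin_le_iff]
        rintro x ⟨f, hf, rfl⟩
        exact div_mem (Sec_le_UV hf) (Sec_le_UV (hF.sec 0))) c (m + 2) (by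
      intro n
      have h := hDUP k Ω u v (fun i => n * d i) (nef_smul n hd)
      have h1 : ∑ i, (n * d i) ^ 2 = n ^ 2 * ∑ i, d i ^ 2 := by
        rw [Finset.mul_sum]
        exact Finset.sum_congr rfl fun i _ => by ring
      rw [h1, ← Finset.mul_sum, hm] at h
      show 2 * Module.finrank k (Sec u v k (fun i => n * d i)) ≤ _
      have h2 : n ^ 2 * m ^ 2 = n ^ 2 * (∑ i, d i ^ 2) + n ^ 2 * c := by rw [hc]; ring
      nlinarith)
  rw [hm]
  nlinarith

end Pool.Agent.SFS
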