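import Pool.Agent.SFS.Stmts

/-!
# UVG: the sections of a big nef class generate the function field
-/

set_option autoImplicit false

noncomputable section

namespace Pool.Agent.SFS

open scoped Classical
open Pool.Agent.SFB

namespace UVG_

theorem exists_mon (hNFX : Stmt_NFX) {d : Fin 5 → ℕ} (hd : Nef d) : ∃ e, Mon d e := by
  have h := (nef_iff d).1 hd
  obtain ⟨e, he, _⟩ := hNFX d hd.1 h.2.1 (by omega) (by omega)
  exact ⟨e, he⟩

theorem exists_perm (i j : Fin 5) (h : i ≠ j) : ∃ π : Equiv.Perm (Fin 5), π 2 = i ∧ π 1 = j := by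
  refine ⟨Equiv.swap 2 i * Equiv.swap 1 (Equiv.swap 2 i j), ?_, ?_⟩
  · have h2 : (Equiv.swap 1 (Equiv.swap 2 i j)) 2 = 2 := by
      refine Equiv.swap_apply_of_ne_of_ne (by decide) ?_
      intro h2
      have h3 := congrArg (Equiv.swap 2 i) h2
      rw [Equiv.swap_apply_left, Equiv.swap_apply_self] at h3
      exact h h3
    rw [Equiv.Perm.mul_apply, h2, Equiv.swap_apply_left]
  · rw [Equiv.Perm.mul_apply, Equiv.swap_apply_left, Equiv.swap_apply_self]

theorem key (hPLB : Stmt_PLB) {k Ω : Type} [Field k] [Field Ω] [Algebra k Ω] {u v : Ω}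
    {d : Fin 5 → ℕ} {E : IntermediateField k Ω}
    (hE : ∀ e e', Mon d e → Mon d e' → mo u v e' / mo u v e ∈ E) (π : Equiv.Perm (Fin 5))
    {f g : Fin 10 → ℕ} (hf : Mon (fun i => d (π i)) f) (hg : Mon (fun i => d (π i)) g) :
    mP (bk u v π) f / mP (bk u v π) g ∈ E := by
  obtain ⟨-, -, h3, h4, -, -⟩ := hPLB Ω u v π
  have hc : ∀ f : Fin 10 → ℕ, (fun k => (fun l => f (XV.pe π⁻¹ l)) (XV.pe π k)) = f := by
    intro f
    funext k
    show f (XV.pe π⁻¹ (XV.pe π k)) = f k
    rw [← XV.pe_mul, inv_mul_cancel, XV.pe_one]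
  have hf' : Mon d (fun l => f (XV.pe π⁻¹ l)) := (h4 d _).2 (by rw [hc f]; exact hf)
  have hg' : Mon d (fun l => g (XV.pe π⁻¹ l)) := (h4 d _).2 (by rw [hc g]; exact hg)
  have h := hE _ _ hg' hf'
  have a := h3 (fun l => f (XV.pe π⁻¹ l))
  have b := h3 (fun l => g (XV.pe π⁻¹ l))
  rw [hc f] at a
  rw [hc g] at b
  rcases a with a | a <;> rcases b with b | b <;> rw [a, b]
  · exact h
  · rw [div_neg]; exact neg_mem h
  · rw [neg_div]; exact neg_mem h
  · rw [neg_div_neg_eq]; exact h

theorem bk_ne (hPLB : Stmt_PLB) {Ω : Type} [Field Ω] {u v : Ω} (h : ∀ κ, pk u v κ ≠ 0)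
    (π : Equiv.Perm (Fin 5)) (k : Fin 10) : bk u v π k ≠ 0 := by
  obtain ⟨-, h2, -⟩ := hPLB Ω u v π
  rcases h2 k with h' | h' <;> rw [h']
  · exact h _
  · exact neg_ne_zero.2 (h _)

theorem mP_ind {Ω : Type} [Field Ω] (P : Fin 10 → Ω) (k : Fin 10) : mP P (XV.ind k) = P k := by
  unfold mP XV.ind
  rw [Finset.prod_eq_single k]
  · simp
  · intro b _ hb
    simp [hb]
  · simp

end UVG_

open UVG_ in
theorem uvg_proof (hPLB : Stmt_PLB) (hNFX : Stmt_NFX) (hUVX : Stmt_UVX) (hNFB : Stmt_NFB) :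
    Stmt_UVG := by
  intro k Ω _ _ _ u v hk d hd hbig E hE
  obtain ⟨d', hd', hcase⟩ := hNFB d hd hbig
  obtain ⟨e1, he1⟩ := exists_mon hNFX hd'
  have main : ∀ π : Equiv.Perm (Fin 5), ∀ a b : Fin 10 → ℕ, ∀ c : Fin 5 → ℕ,
      (∀ i, d i = d' i + c i) → Mon (fun i => c (π i)) a → Mon (fun i => c (π i)) b →
      mP (bk u v π) a / mP (bk u v π) b ∈ E := by
    intro π a b c hc ha hb
    have he1' : Mon (fun i => d' (π i)) (fun l => e1 (XV.pe π l)) :=
      ((hPLB Ω u v π).2.2.2.1 d' e1).1 he1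
    have hdc : (fun i => d (π i)) = (fun i => d' (π i)) + fun i => c (π i) := by
      funext i; exact hc _
    have hf : Mon (fun i => d (π i)) ((fun l => e1 (XV.pe π l)) + a) := by
      rw [hdc]; exact mon_add he1' ha
    have hg : Mon (fun i => d (π i)) ((fun l => e1 (XV.pe π l)) + b) := by
      rw [hdc]; exact mon_add he1' hb
    have h := key hPLB hE π hf hg
    rwa [mP_add, mP_add, mul_div_mul_left _ _ (mP_ne (bk_ne hPLB hk π) _)] at h
  rcases hcase with ⟨i, hi⟩ | ⟨i, j, hij, hi⟩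
  · -- class of lines
    have hc : ∀ l, d l = d' l + hH i l := fun l => by rw [hi]; rfl
    have hπ : ∀ l, hH i ((Equiv.swap 0 i) l) = hH 0 l := by
      intro l
      unfold hH
      have : (Equiv.swap 0 i) l = i ↔ l = 0 := by
        constructor
        · intro h
          have h3 := congrArg (Equiv.swap 0 i) h
          rwa [Equiv.swap_apply_self, Equiv.swap_apply_right] at h3
        · rintro rfl
          exact Equiv.swap_apply_left _ _
      by_cases hl : l = 0
      · rw [if_pos hl, if_pos (this.2 hl)]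
      · rw [if_neg hl, if_neg (fun h => hl (this.1 h))]
    have hfun : (fun l => hH i ((Equiv.swap 0 i) l)) = hH 0 := funext hπ
    refine hUVX k Ω u v hk (Equiv.swap 0 i) E ?_ ?_
    · have h := main (Equiv.swap 0 i) (XV.ind 0 + XV.ind 9 + XV.ind 1)
        (XV.ind 3 + XV.ind 5 + XV.ind 1) (hH i) hc (by rw [hfun]; intro l; revert l; decide)
        (by rw [hfun]; intro l; revert l; decide)
      rw [mP_add, mP_add _ _ (XV.ind 1), mul_div_mul_right _ _ (mP_ne (bk_ne hPLB hk _) _), mP_add,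
        mP_add, mP_ind, mP_ind, mP_ind, mP_ind] at h
      exact h
    · have h := main (Equiv.swap 0 i) (XV.ind 7 + XV.ind 3 + XV.ind 0)
        (XV.ind 1 + XV.ind 9 + XV.ind 0) (hH i) hc (by rw [hfun]; intro l; revert l; decide)
        (by rw [hfun]; intro l; revert l; decide)
      rw [mP_add, mP_add _ _ (XV.ind 0), mul_div_mul_right _ _ (mP_ne (bk_ne hPLB hk _) _), mP_add,
        mP_add, mP_ind, mP_ind, mP_ind, mP_ind] at h
      exact h
  · -- two classes of conics
    have hc : ∀ l, d l = d' l + (fF i l + fF j l) := fun l => by rw [hi]; simp [add_assoc]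
    obtain ⟨π, hπ2, hπ1⟩ := exists_perm i j hij
    have hfun : (fun l => fF i (π l) + fF j (π l)) = fun l => fF 2 l + fF 1 l := by
      funext l
      unfold fF
      have h1 : π l = i ↔ l = 2 := by rw [← hπ2, π.injective.eq_iff]
      have h2 : π l = j ↔ l = 1 := by rw [← hπ1, π.injective.eq_iff]
      rw [if_congr h1 rfl rfl, if_congr h2 rfl rfl]
    refine hUVX k Ω u v hk π E ?_ ?_
    · have h := main π (XV.ind 0 + XV.ind 9 + (XV.ind 7 + XV.ind 3))
        (XV.ind 3 + XV.ind 5 + (XV.ind 7 + XV.ind 3)) (fun l => fF i l + fF j l) hc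
        (by
          show Mon (fun l => fF i (π l) + fF j (π l)) _
          rw [hfun]; intro l; revert l; decide)
        (by
          show Mon (fun l => fF i (π l) + fF j (π l)) _
          rw [hfun]; intro l; revert l; decide)
      rw [mP_add, mP_add _ _ (XV.ind 7 + XV.ind 3),
        mul_div_mul_right _ _ (mP_ne (bk_ne hPLB hk _) _), mP_add,
        mP_add, mP_ind, mP_ind, mP_ind, mP_ind] at h
      exact h
    · have h := main π (XV.ind 7 + XV.ind 3 + (XV.ind 0 + XV.ind 9))
        (XV.ind 1 + XV.ind 9 + (XV.ind 0 + XV.ind 9)) (fun l => fF i l + fF j l) hc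
        (by
          show Mon (fun l => fF i (π l) + fF j (π l)) _
          rw [hfun]; intro l; revert l; decide)
        (by
          show Mon (fun l => fF i (π l) + fF j (π l)) _
          rw [hfun]; intro l; revert l; decide)
      rw [mP_add, mP_add _ _ (XV.ind 0 + XV.ind 9),
        mul_div_mul_right _ _ (mP_ne (bk_ne hPLB hk _) _), mP_add,
        mP_add, mP_ind, mP_ind, mP_ind, mP_ind] at h
      exact h

end Pool.Agent.SFS
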