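import Pool.Agent.SFS.Stmts

/-!
# The local coordinates generate the function field
-/

set_option autoImplicit false

noncomputable section

namespace Pool.Agent.SFS

open scoped Classical
open Pool.Agent.SFB

namespace UVX_

variable {Ω : Type} [Field Ω]

lemma mo_ind (u v : Ω) (κ : Fin 10) : mo u v (XV.ind κ) = pk u v κ := by
  unfold mo XV.ind
  rw [Finset.prod_eq_single κ]
  · simp
  · intro l _ hl
    simp [hl]
  · simp

lemma mo_two (u v : Ω) (κ l : Fin 10) :
    mo u v (XV.ind κ + XV.ind l) = pk u v κ * pk u v l := by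
  have h := mP_add (pk u v) (XV.ind κ) (XV.ind l)
  rw [mP_pk, mP_pk, mP_pk, mo_ind, mo_ind] at h
  exact h

end UVX_

theorem uvx_proof (hPLB : Stmt_PLB) (hLOC : Stmt_LOC) : Stmt_UVX := by
  intro k Ω _ _ _ u v hpk π E hx hy
  obtain ⟨h1, h2, h3, h4, -, -⟩ := hPLB Ω u v π
  have hne : ∀ κ, bk u v π κ ≠ 0 := by
    intro κ
    rcases h2 κ with h | h
    · rw [h]; exact hpk _
    · rw [h]; exact neg_ne_zero.mpr (hpk _)
  -- ratios of monomials of equal degrees are in `E`
  have key : ∀ (d : Fin 5 → ℕ) (e e' : Fin 10 → ℕ), Mon d e → Mon d e' →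
      mo u v e' / mo u v e ∈ E := by
    intro d e e' he he'
    obtain ⟨C, hC, hl⟩ := hLOC Ω (bk u v π) h1 hne (fun i => d (π i))
    have a := hl _ ((h4 d e).mp he)
    have a' := hl _ ((h4 d e').mp he')
    have hq : mP (bk u v π) (fun κ => e' (XV.pe π κ)) / mP (bk u v π) (fun κ => e (XV.pe π κ)) ∈
        E := by
      set x := sx (bk u v π) with hxd
      set y := sy (bk u v π) with hyd
      have m1 : 1 + x ∈ E := add_mem (one_mem _) hx
      have m2 : 1 + y ∈ E := add_mem (one_mem _) hy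
      have m3 : 1 - x * y ∈ E := sub_mem (one_mem _) (mul_mem hx hy)
      have m : ∀ f : Fin 10 → ℕ, x ^ f 0 * y ^ f 7 * (1 + x) ^ f 6 * (1 + y) ^ f 8 *
          (1 - x * y) ^ f 4 ∈ E := fun f =>
        mul_mem (mul_mem (mul_mem (mul_mem (pow_mem hx _) (pow_mem hy _)) (pow_mem m1 _))
          (pow_mem m2 _)) (pow_mem m3 _)
      have b : ∀ f : Fin 10 → ℕ, C * x ^ f 0 * y ^ f 7 * (1 + x) ^ f 6 * (1 + y) ^ f 8 *
          (1 - x * y) ^ f 4 = C * (x ^ f 0 * y ^ f 7 * (1 + x) ^ f 6 * (1 + y) ^ f 8 *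
          (1 - x * y) ^ f 4) := fun f => by ring
      rw [a.trans (b fun κ => e (XV.pe π κ)), a'.trans (b fun κ => e' (XV.pe π κ)),
        mul_div_mul_left _ _ hC]
      exact div_mem (m fun κ => e' (XV.pe π κ)) (m fun κ => e (XV.pe π κ))
    rcases h3 e with h | h <;> rcases h3 e' with h' | h' <;> rw [h, h'] at hq
    · exact hq
    · rw [neg_div] at hq
      simpa using neg_mem hq
    · rw [div_neg] at hq
      simpa using neg_mem hq
    · rw [neg_div_neg_eq] at hq
      exact hq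
  have c1 : chi 0 + chi 7 = chi 2 + chi 4 := by
    ext i
    fin_cases i <;> simp [chi, XV.eS, XV.eT]
  have c2 : chi 0 + chi 8 = chi 3 + chi 4 := by
    ext i
    fin_cases i <;> simp [chi, XV.eS, XV.eT]
  have k1 := key (chi 2 + chi 4) (XV.ind 0 + XV.ind 7) (XV.ind 2 + XV.ind 4)
    (by rw [← c1]; exact mon_add (mon_ind 0) (mon_ind 7)) (mon_add (mon_ind 2) (mon_ind 4))
  have k2 := key (chi 3 + chi 4) (XV.ind 0 + XV.ind 8) (XV.ind 3 + XV.ind 4)
    (by rw [← c2]; exact mon_add (mon_ind 0) (mon_ind 8)) (mon_add (mon_ind 3) (mon_ind 4))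
  rw [UVX_.mo_two, UVX_.mo_two] at k1 k2
  have e1 : pk u v 2 * pk u v 4 / (pk u v 0 * pk u v 7) = -u := by
    simp [pk, pa, pb, XV.eS, XV.eT, div_neg]
  have e2 : pk u v 3 * pk u v 4 / (pk u v 0 * pk u v 8) = -v := by
    simp [pk, pa, pb, XV.eS, XV.eT, div_neg]
  rw [e1] at k1
  rw [e2] at k2
  exact ⟨by simpa using neg_mem k1, by simpa using neg_mem k2⟩

end Pool.Agent.SFS
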