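import Pool.Agent.SFS.Stmts

/-!
SFS, module VCR: the valuative criterion of integrality.
-/

set_option autoImplicit false

namespace Pool.Agent.SFS

open scoped Classical

open Pool.Agent.SFB

theorem vcr_proof : Stmt_VCR := by
  intro k Ω _ _ _ σ n f h i
  set s : Set Ω := Set.range (algebraMap k Ω) ∪ Set.range (fun j => σ j / σ i) with hs
  have h1 : f / σ i ^ n ∈ (integralClosure (Subring.closure s) Ω).toSubring := by
    rw [← iInf_valuationSubring_superset]
    rw [Subring.mem_iInf]
    rintro ⟨V, hV⟩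
    refine h V (fun a => hV (Or.inl ⟨a, rfl⟩)) i (fun j => hV (Or.inr ⟨j, rfl⟩))
  have h2 : IsIntegral (Subring.closure s) (f / σ i ^ n) := h1
  obtain ⟨p, hp, hpx⟩ := h2
  have h3 : ∀ x ∈ Subring.closure s, x ∈ Algebra.adjoin k (Set.range fun j => σ j / σ i) := by
    intro x hx
    rw [← Subalgebra.mem_toSubring, Algebra.adjoin_eq_ring_closure]
    exact hx
  let g : Subring.closure s →+* Algebra.adjoin k (Set.range fun j => σ j / σ i) :=
    { toFun := fun x => ⟨x.1, h3 x.1 x.2⟩
      map_one' := rfl
      map_mul' := fun _ _ => rfl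
      map_zero' := rfl
      map_add' := fun _ _ => rfl }
  refine ⟨p.map g, hp.map g, ?_⟩
  rw [Polynomial.eval₂_map, pow_one]
  exact hpx

end Pool.Agent.SFS
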