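import Pool.Agent.SFS.Stmts

/-!
# SFS / ZE1: sections with small order along the curve `01`
-/

set_option autoImplicit false

noncomputable section

namespace Pool.Agent.SFS

open scoped Classical
open Pool.Agent.SFB

namespace ZE1_

section

variable {k Ω : Type} [Field k] [Field Ω] [Algebra k Ω]

theorem ne_zero {σ τ : Ω} (h : AlgebraicIndependent k ![σ, τ]) (f : Polynomial k) (hf : f ≠ 0)
    (g : Ω) (hg : g ∈ Algebra.adjoin k {σ, τ}) : Polynomial.aeval τ f + σ * g ≠ 0 := by
  intro h0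
  have hr : Set.range ![σ, τ] = {σ, τ} := by
    simp [Matrix.range_cons, Set.pair_comm]
  rw [← hr, Algebra.adjoin_range_eq_range_aeval] at hg
  obtain ⟨G, rfl⟩ := hg
  have h1 : MvPolynomial.aeval ![σ, τ] (Polynomial.aeval (MvPolynomial.X 1) f +
      MvPolynomial.X 0 * G : MvPolynomial (Fin 2) k) = 0 := by
    rw [map_add, map_mul, MvPolynomial.aeval_X, ← Polynomial.aeval_algHom_apply,
      MvPolynomial.aeval_X]
    exact h0
  have h2 := h.eq_zero_of_aeval_eq_zero _ h1
  have h3 := congrArg (MvPolynomial.aeval ![0, (Polynomial.X : Polynomial k)]) h2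
  rw [map_add, map_mul, MvPolynomial.aeval_X, ← Polynomial.aeval_algHom_apply,
    MvPolynomial.aeval_X, map_zero] at h3
  simp only [Matrix.cons_val_zero, Matrix.cons_val_one, zero_mul, add_zero,
    Polynomial.aeval_X_left_apply] at h3
  exact hf h3

theorem split {σ τ : Ω} {r : ℕ} (F : Fin r → Polynomial k) (hF : ∃ i, F i ≠ 0) :
    ∃ i < r, ∃ f : Polynomial k, f ≠ 0 ∧ ∃ g ∈ Algebra.adjoin k {σ, τ},
      ∑ i : Fin r, σ ^ (i : ℕ) * Polynomial.aeval τ (F i) = σ ^ i * (Polynomial.aeval τ f + σ * g) := by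
  obtain ⟨i, hi, hmin⟩ := WellFounded.has_min (wellFounded_lt (α := Fin r)) {i | F i ≠ 0} hF
  have hz : ∀ j < i, F j = 0 := by
    intro j hj
    by_contra h
    exact hmin j h hj
  have hσ : σ ∈ Algebra.adjoin k {σ, τ} := Algebra.subset_adjoin (by simp)
  have hτ : τ ∈ Algebra.adjoin k {σ, τ} := Algebra.subset_adjoin (by simp)
  have hpol : ∀ p : Polynomial k, Polynomial.aeval τ p ∈ Algebra.adjoin k {σ, τ} := by
    intro p
    have h1 : Polynomial.aeval τ p ∈ Algebra.adjoin k {τ} :=
      Polynomial.aeval_mem_adjoin_singleton k τ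
    exact Algebra.adjoin_mono (by simp) h1
  refine ⟨i, i.2, F i, hi, ∑ j : Fin r, if i < j then σ ^ ((j : ℕ) - (i : ℕ) - 1) *
    Polynomial.aeval τ (F j) else 0, ?_, ?_⟩
  · refine sum_mem fun j _ => ?_
    split_ifs with h
    · exact mul_mem (pow_mem hσ _) (hpol _)
    · exact zero_mem _
  · rw [Finset.mul_sum, mul_add, Finset.mul_sum, ← Finset.sum_erase_add _ _ (Finset.mem_univ i),
      ← Finset.sum_erase_add (a := i) _ (fun j : Fin r => σ ^ (i : ℕ) * (σ *
        if i < j then σ ^ ((j : ℕ) - (i : ℕ) - 1) * Polynomial.aeval τ (F j) else 0))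
        (Finset.mem_univ i)]
    rw [if_neg (lt_irrefl i), mul_zero, mul_zero, add_zero, add_comm]
    congr 1
    refine Finset.sum_congr rfl fun j hj => ?_
    have hji : j ≠ i := Finset.ne_of_mem_erase hj
    rcases lt_or_gt_of_ne hji with h | h
    · rw [hz j h, if_neg (by omega)]
      simp
    · rw [if_pos h]
      have h1 : (j : ℕ) = i + (1 + ((j : ℕ) - (i : ℕ) - 1)) := by
        have : (i : ℕ) < j := h
        omega
      conv_lhs => rw [h1, pow_add, pow_add, pow_one]
      ring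

/-- the multigraph -/
def ee (n i s : ℕ) : Fin 10 → ℕ :=
  ![i, 2 * n - s, 2 * n, 2 * n - i + s, 2 * n, 2 * n - i, 2 * n, s, 0, i - s]

theorem mon_ee {n i s : ℕ} (hs : s ≤ i) (hi : i ≤ n) :
    Mon ![6 * n, 6 * n, 4 * n, 4 * n, 4 * n] (ee n i s) := by
  rw [mon_iff]
  simp only [ee]
  refine ⟨?_, ?_, ?_, ?_, ?_⟩ <;>
    simp [Matrix.cons_val_zero, Matrix.cons_val_one, Matrix.cons_val] <;> omega

theorem mP_ee {P : Fin 10 → Ω} (hP : ∀ κ, P κ ≠ 0) {n i s : ℕ} (hs : s ≤ i) (hi : i ≤ n) :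
    mP P (ee n i s) = mP P (ee n 0 0) * sx P ^ i * sy P ^ s := by
  obtain ⟨c, rfl⟩ := Nat.exists_eq_add_of_le hs
  obtain ⟨b, hb⟩ := Nat.exists_eq_add_of_le (show s + c ≤ 2 * n by omega)
  have h1 : 2 * n - s = c + b := by omega
  have h2 : 2 * n - (s + c) = b := by omega
  have h3 : s + c - s = c := by omega
  have h0 := hP 0
  have h01 := hP 1
  have h03 := hP 3
  have h05 := hP 5
  have h09 := hP 9
  unfold mP sx sy ee
  simp only [Fin.prod_univ_succ, Fin.prod_univ_zero]
  simp [Matrix.cons_val]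
  rw [h1, h2, hb]
  have a1 : P 0 ^ (s + c) = P 0 ^ s * P 0 ^ c := pow_add _ _ _
  rw [div_pow, div_pow, mul_pow, mul_pow, mul_pow, mul_pow]
  have h01' := pow_ne_zero s h01
  have h03' := pow_ne_zero (s + c) h03
  have h05' := pow_ne_zero (s + c) h05
  have h09' := pow_ne_zero s h09
  rw [← mul_div_assoc, ← mul_div_assoc, div_mul_eq_mul_div, div_div, eq_div_iff
    (mul_ne_zero (mul_ne_zero h03' h05') (mul_ne_zero h01' h09'))]
  ring

end

end ZE1_

open ZE1_ in
theorem ze1_proof : Stmt_ZE1 := by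
  intro k Ω _ _ _ P _ hP hind n r hr
  have hm : mP P (ee n 0 0) ≠ 0 := mP_ne hP _
  let φ : ((i : Fin r) → Polynomial.degreeLT k ((i : ℕ) + 1)) →ₗ[k] Ω :=
    { toFun := fun F => mP P (ee n 0 0) *
        ∑ i : Fin r, sx P ^ (i : ℕ) * Polynomial.aeval (sy P) (F i : Polynomial k)
      map_add' := by
        intro F G
        rw [← mul_add, ← Finset.sum_add_distrib]
        congr 1
        refine Finset.sum_congr rfl fun i _ => ?_
        rw [← mul_add, Pi.add_apply, Submodule.coe_add, map_add]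
      map_smul' := by
        intro a F
        rw [RingHom.id_apply, ← mul_smul_comm, Finset.smul_sum]
        congr 1
        refine Finset.sum_congr rfl fun i _ => ?_
        rw [Pi.smul_apply, Submodule.coe_smul, map_smul, mul_smul_comm] }
  have hφ : ∀ F, φ F = mP P (ee n 0 0) *
      ∑ i : Fin r, sx P ^ (i : ℕ) * Polynomial.aeval (sy P) (F i : Polynomial k) := fun F => rfl
  have hsplit : ∀ F, F ≠ 0 → ∃ i < r, ∃ f : Polynomial k, f ≠ 0 ∧
      ∃ g ∈ Algebra.adjoin k {sx P, sy P},
        φ F = mP P (ee n 0 0) * sx P ^ i * (Polynomial.aeval (sy P) f + sx P * g) := by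
    intro F hF
    have h1 : ∃ i, (F i : Polynomial k) ≠ 0 := by
      by_contra hc
      push Not at hc
      apply hF
      funext i
      exact Subtype.ext (hc i)
    obtain ⟨i, hi, f, hf, g, hg, h2⟩ := split (σ := sx P) (τ := sy P)
      (fun i => (F i : Polynomial k)) h1
    exact ⟨i, hi, f, hf, g, hg, by rw [hφ, h2, mul_assoc]⟩
  have hx : sx P ≠ 0 := by
    unfold sx
    exact div_ne_zero (mul_ne_zero (hP _) (hP _)) (mul_ne_zero (hP _) (hP _))
  have hinj : Function.Injective φ := by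
    rw [← LinearMap.ker_eq_bot, LinearMap.ker_eq_bot']
    intro F h0
    by_contra hF
    obtain ⟨i, _, f, hf, g, hg, h1⟩ := hsplit F hF
    rw [h0] at h1
    exact mul_ne_zero (mul_ne_zero hm (pow_ne_zero _ hx)) (ne_zero hind f hf g hg) h1.symm
  refine ⟨ee n 0 0, LinearMap.range φ, mon_ee le_rfl (Nat.zero_le _), rfl, ?_, ?_, ?_, ?_⟩
  · haveI : ∀ m : ℕ, Module.Finite k (Polynomial.degreeLT k m) := fun m =>
      Module.Finite.equiv (Polynomial.degreeLTEquiv k m).symm
    infer_instance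
  · haveI : ∀ m : ℕ, Module.Finite k (Polynomial.degreeLT k m) := fun m =>
      Module.Finite.equiv (Polynomial.degreeLTEquiv k m).symm
    rw [LinearMap.finrank_range_of_inj hinj, Module.finrank_pi_fintype]
    have h1 : ∀ i : Fin r, Module.finrank k (Polynomial.degreeLT k ((i : ℕ) + 1)) = (i : ℕ) + 1 :=
      fun i => by
        rw [(Polynomial.degreeLTEquiv k _).finrank_eq, Module.finrank_fin_fun]
    rw [Finset.sum_congr rfl fun i _ => h1 i, Fin.sum_univ_eq_sum_range (fun i => i + 1) r]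
    have h2 : ∀ m : ℕ, m * (m + 1) ≤ 2 * ∑ i ∈ Finset.range m, (i + 1) := by
      intro m
      induction m with
      | zero => simp
      | succ m ih =>
        rw [Finset.sum_range_succ]
        nlinarith
    exact h2 r
  · rintro _ ⟨F, rfl⟩
    rw [hφ, Finset.mul_sum]
    refine sum_mem fun i _ => ?_
    have h1 : (F i : Polynomial k).natDegree < (i : ℕ) + 1 := by
      have h2 := Polynomial.mem_degreeLT.1 (F i).2
      by_cases h3 : (F i : Polynomial k) = 0
      · rw [h3]
        simp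
      · exact (Polynomial.natDegree_lt_iff_degree_lt h3).2 h2
    rw [Polynomial.aeval_eq_sum_range' h1, Finset.mul_sum, Finset.mul_sum]
    refine sum_mem fun s hs => ?_
    have hs' : s ≤ i := by
      have := Finset.mem_range.1 hs
      omega
    have hi' : (i : ℕ) ≤ n := le_trans (le_of_lt i.2) hr
    have h4 : mP P (ee n 0 0) * (sx P ^ (i : ℕ) * ((F i : Polynomial k).coeff s • sy P ^ s)) =
        (F i : Polynomial k).coeff s • mP P (ee n i s) := by
      rw [mP_ee hP hs' hi', mul_smul_comm, mul_smul_comm, mul_assoc]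
    rw [h4]
    exact Submodule.smul_mem _ _ (mP_mem k P (mon_ee hs' hi'))
  · rintro _ ⟨F, rfl⟩ hz
    have hF : F ≠ 0 := by
      rintro rfl
      exact hz (map_zero φ)
    exact hsplit F hF

end Pool.Agent.SFS
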