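import Pool.Agent.SFS.Stmts

/-!
# SFS, module ZED: sections of the multiples of `L + 2 D_j` with large poles on `D_j`
-/

set_option autoImplicit false

noncomputable section

namespace Pool.Agent.SFS

open scoped Classical
open Pool.Agent.SFB

namespace ZED_

section

variable {Ω : Type} [Field Ω]

theorem val_one_of (V : ValuationSubring Ω) {x : Ω} (h1 : x ∈ V) (h2 : x ∉ V.nonunits) :
    V.valuation x = 1 := by
  rw [V.mem_nonunits_iff] at h2
  exact le_antisymm ((V.valuation_le_one_iff x).2 h1) (not_lt.1 h2)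

theorem val_one_of_inv (V : ValuationSubring Ω) {x : Ω} (h0 : x ≠ 0) (h1 : x ∈ V)
    (h2 : x⁻¹ ∈ V) : V.valuation x = 1 := by
  have h3 := (V.valuation_le_one_iff _).2 h1
  have h4 := (V.valuation_le_one_iff _).2 h2
  rw [map_inv₀] at h4
  have h5 : V.valuation x ≠ 0 := by
    rw [ne_eq, map_eq_zero]
    exact h0
  exact le_antisymm h3 ((inv_le_one₀ (zero_lt_iff.2 h5)).1 h4)

variable {k : Type} [Field k] [Algebra k Ω]

theorem val_const (V : ValuationSubring Ω) (hk : KV k V) {a : k} (ha : a ≠ 0) :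
    V.valuation (algebraMap k Ω a) = 1 := by
  refine val_one_of_inv V ?_ (hk a) ?_
  · rw [ne_eq, map_eq_zero]
    exact ha
  · rw [← map_inv₀]
    exact hk a⁻¹

theorem val_gen [IsAlgClosed k] (V : ValuationSubring Ω) (hk : KV k V) {t : Ω} (ht : t ∈ V)
    (hg : ∀ a : k, t - algebraMap k Ω a ∉ V.nonunits) {f : Polynomial k} (hf : f ≠ 0) :
    V.valuation (Polynomial.aeval t f) = 1 := by
  have h := (IsAlgClosed.splits f).eq_prod_roots
  have h1 : Polynomial.aeval t f = algebraMap k Ω f.leadingCoeff *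
      (f.roots.map (fun a => t - algebraMap k Ω a)).prod := by
    conv_lhs => rw [h]
    rw [map_mul, Polynomial.aeval_C, map_multiset_prod, Multiset.map_map]
    congr 2
    refine Multiset.map_congr rfl fun a _ => ?_
    simp
  rw [h1, map_mul, val_const V hk (Polynomial.leadingCoeff_ne_zero.2 hf), one_mul,
    map_multiset_prod, Multiset.map_map]
  refine Multiset.prod_eq_one fun x hx => ?_
  obtain ⟨a, -, rfl⟩ := Multiset.mem_map.1 hx
  exact val_one_of V (sub_mem ht (hk a)) (hg a)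

/-- `k[a, b]` is contained in `V` -/
theorem adjoin_le (V : ValuationSubring Ω) (hk : KV k V) {a b : Ω} (ha : a ∈ V) (hb : b ∈ V)
    {g : Ω} (hg : g ∈ Algebra.adjoin k {a, b}) : g ∈ V := by
  induction hg using Algebra.adjoin_induction with
  | mem x hx =>
    rcases hx with rfl | hx
    · exact ha
    · rw [Set.mem_singleton_iff] at hx
      rw [hx]
      exact hb
  | algebraMap r => exact hk r
  | add x y _ _ hx hy => exact add_mem hx hy
  | mul x y _ _ hx hy => exact mul_mem hx hy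

end

/-- values of the monomials in a chart -/
theorem val_mo (hPLB : Stmt_PLB) (hLOC : Stmt_LOC) {Ω : Type} [Field Ω] (u v : Ω)
    (hne : ∀ k, pk u v k ≠ 0) (V : ValuationSubring Ω) (π : Equiv.Perm (Fin 5))
    (hch : Chart V (bk u v π)) (h0x : 1 + sx (bk u v π) ≠ 0) (h0y : 1 + sy (bk u v π) ≠ 0)
    (h0xy : 1 - sx (bk u v π) * sy (bk u v π) ≠ 0) (hy : V.valuation (sy (bk u v π)) = 1)
    (d : Fin 5 → ℕ) : ∃ c : V.ValueGroup, c ≠ 0 ∧ ∀ e, Mon d e →
      V.valuation (mo u v e) = c * V.valuation (sx (bk u v π)) ^ e (XV.pe π 0) := by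
  obtain ⟨p1, p2, p3, p4, -, -⟩ := hPLB Ω u v π
  have hP : ∀ κ, bk u v π κ ≠ 0 := by
    intro κ
    rcases p2 κ with h | h
    · rw [h]; exact hne _
    · rw [h]; exact neg_ne_zero.2 (hne _)
  obtain ⟨C, hC, hCm⟩ := hLOC Ω (bk u v π) p1 hP (fun i => d (π i))
  refine ⟨V.valuation C, by rw [ne_eq, map_eq_zero]; exact hC, fun e he => ?_⟩
  have h1 := hCm _ ((p4 d e).1 he)
  have h2 : V.valuation (mo u v e) = V.valuation (mP (bk u v π) fun k => e (XV.pe π k)) := by
    rcases p3 e with h | h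
    · rw [h]
    · rw [h, Valuation.map_neg]
  have v1 : V.valuation (1 + sx (bk u v π)) = 1 :=
    val_one_of_inv V h0x (add_mem (one_mem _) hch.x) hch.ux
  have v2 : V.valuation (1 + sy (bk u v π)) = 1 :=
    val_one_of_inv V h0y (add_mem (one_mem _) hch.y) hch.uy
  have v3 : V.valuation (1 - sx (bk u v π) * sy (bk u v π)) = 1 :=
    val_one_of_inv V h0xy (sub_mem (one_mem _) (mul_mem hch.x hch.y)) hch.uxy
  rw [h2, h1]
  simp only [map_mul, map_pow, hy, v1, v2, v3, one_pow, mul_one]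

theorem exists_pi : ∀ j : Fin 10, ∃ π : Equiv.Perm (Fin 5), XV.pe π 0 = j := by
  decide +kernel

theorem chi_pe (π : Equiv.Perm (Fin 5)) (i : Fin 5) :
    chi (XV.pe π 0) (π i) = if i = 0 ∨ i = 1 then 1 else 0 := by
  unfold chi
  have h := XV.pe_end π 0 i
  have h1 : (XV.eS 0 = i ∨ XV.eT 0 = i) ↔ (i = 0 ∨ i = 1) := by
    show ((0 : Fin 5) = i ∨ (1 : Fin 5) = i) ↔ _
    rw [eq_comm, eq_comm (a := (1 : Fin 5))]
  rw [h1] at h
  by_cases hi : i = 0 ∨ i = 1
  · rw [if_pos hi, if_pos (h.2 hi)]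
  · rw [if_neg hi, if_neg (fun h' => hi (h.1 h'))]

theorem mo_add {Ω : Type} [Field Ω] (u v : Ω) (e e' : Fin 10 → ℕ) :
    mo u v (e + e') = mo u v e * mo u v e' := mP_add (pk u v) e e'

theorem mo_ind {Ω : Type} [Field Ω] (u v : Ω) (j : Fin 10) : mo u v (XV.ind j) = pk u v j := by
  unfold mo XV.ind
  rw [Finset.prod_eq_single j]
  · simp
  · intro b _ hb
    simp [hb]
  · simp

theorem mon_smul {d : Fin 5 → ℕ} {e : Fin 10 → ℕ} (h : Mon d e) (n : ℕ) :
    Mon (n • d) (n • e) := by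
  induction n with
  | zero =>
    rw [zero_smul, zero_smul]
    exact mon_zero
  | succ n ih =>
    rw [succ_nsmul, succ_nsmul]
    exact mon_add ih h

theorem mo_smul {Ω : Type} [Field Ω] (u v : Ω) (e : Fin 10 → ℕ) (n : ℕ) :
    mo u v (n • e) = mo u v e ^ n := by
  induction n with
  | zero =>
    rw [zero_smul, pow_zero]
    exact mP_zero (pk u v)
  | succ n ih => rw [succ_nsmul, mo_add, ih, pow_succ]

end ZED_

open ZED_ in
theorem zed_proof (hPLB : Stmt_PLB) (hLOC : Stmt_LOC) (_hNFX : Stmt_NFX) (hTPC : Stmt_TPC)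
    (_hTOP : SFB.Stmt_TOP) (hGEP : Stmt_GEP) (hIND : Stmt_IND) (hZE1 : Stmt_ZE1) :
    SFB.Stmt_ZED := by
  intro k Ω _ _ _ _ u v huv j n r hr
  obtain ⟨π, rfl⟩ := exists_pi j
  have hne := pk_ne huv
  obtain ⟨p1, p2, p3, p4, -, p6⟩ := hPLB Ω u v π
  obtain ⟨P, hP⟩ : ∃ P, P = bk u v π := ⟨_, rfl⟩
  rw [← hP] at p1 p2 p3 p6
  have hPne : ∀ κ, P κ ≠ 0 := by
    intro κ
    rcases p2 κ with h | h
    · rw [h]; exact hne _
    · rw [h]; exact neg_ne_zero.2 (hne _)
  have hind := hIND k Ω u v huv π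
  rw [← hP] at hind
  obtain ⟨e₀, Z, he₀, he00, hZf, hZr, hZs, hZ⟩ := hZE1 k Ω P p1 hPne hind n r hr
  obtain ⟨d, hd⟩ : ∃ d : Fin 5 → ℕ, d = fun i => n * (4 + 2 * chi (XV.pe π 0) i) := ⟨_, rfl⟩
  have hdπ : (fun i => d (π i)) = ![6 * n, 6 * n, 4 * n, 4 * n, 4 * n] := by
    funext i
    rw [hd]
    show n * (4 + 2 * chi (XV.pe π 0) (π i)) = _
    rw [chi_pe]
    fin_cases i <;> simp <;> ring
  refine ⟨Z, hZf, hZr, ?_, ?_⟩
  · intro z hz
    have h1 := p6 k d
    rw [hdπ] at h1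
    rw [← hd, ← h1]
    exact hZs z hz
  intro z hz hz0 V hV hOn e e' hTe hTe'
  obtain ⟨g1, g2, g3⟩ := hGEP k Ω u v huv V hV _ hOn π rfl
  have hch := g3
  rw [← hP] at g1 g2 g3
  have hKV := hV.kv
  have hsx : sx P ∈ V := g3.x
  have hsy : sy P ∈ V := g3.y
  have hy1 : V.valuation (sy P) = 1 := by
    refine val_one_of V hsy ?_
    have := g2 0
    rwa [map_zero, sub_zero] at this
  have hxlt : V.valuation (sx P) < 1 := V.mem_nonunits_iff.1 g1
  have hsx0 : sx P ≠ 0 := by
    unfold sx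
    exact div_ne_zero (mul_ne_zero (hPne _) (hPne _)) (mul_ne_zero (hPne _) (hPne _))
  have hvx0 : V.valuation (sx P) ≠ 0 := by
    rw [ne_eq, map_eq_zero]
    exact hsx0
  have hxi : (sx P)⁻¹ ∉ V := by
    intro h
    have h1 := val_one_of_inv V hsx0 hsx h
    rw [h1] at hxlt
    exact lt_irrefl _ hxlt
  -- the denominators do not vanish
  have h0x : 1 + sx P ≠ 0 := by
    intro h
    have h1 : sx P = -1 := by linear_combination h
    rw [h1, Valuation.map_neg, map_one] at hxlt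
    exact lt_irrefl _ hxlt
  have h0y : 1 + sy P ≠ 0 := by
    intro h
    have h1 : sy P - algebraMap k Ω (-1) = 0 := by
      rw [map_neg, map_one]
      linear_combination h
    have h2 := g2 (-1)
    rw [h1] at h2
    exact h2 (V.mem_nonunits_iff.2 (by rw [map_zero]; exact zero_lt_one))
  have h0xy : 1 - sx P * sy P ≠ 0 := by
    intro h
    have h1 : sx P * sy P = 1 := by linear_combination -h
    have h2 : V.valuation (sx P * sy P) = 1 := by rw [h1, map_one]
    rw [map_mul, hy1, mul_one] at h2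
    rw [h2] at hxlt
    exact lt_irrefl _ hxlt
  have hval : ∀ d : Fin 5 → ℕ, ∃ c : V.ValueGroup, c ≠ 0 ∧ ∀ e, Mon d e →
      V.valuation (mo u v e) = c * V.valuation (sx P) ^ e (XV.pe π 0) := by
    intro d
    have := val_mo hPLB hLOC u v hne V π hch (by rw [← hP]; exact h0x) (by rw [← hP]; exact h0y)
      (by rw [← hP]; exact h0xy) (by rw [← hP]; exact hy1) d
    rw [← hP] at this
    exact this
  -- exponents at `j`
  have hej : e (XV.pe π 0) = 0 := hOn e hTe
  have hnef : Nef (fun i => 4 + chi (XV.pe π 0) i) := by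
    generalize XV.pe π 0 = j
    rw [nef_iff]
    unfold chi
    fin_cases j <;> simp [XV.eS, XV.eT] <;> decide
  have he'j : e' (XV.pe π 0) = 0 := by
    have h1 := (hTPC Ω u v hne V π hch _ hnef e').1 hTe'
    rcases h1.2.1 with h | h
    · exact h
    · rw [← hP] at h
      exact absurd h hxi
  obtain ⟨c₁, hc₁, hc₁m⟩ := hval (fun _ => 4)
  obtain ⟨c₂, hc₂, hc₂m⟩ := hval (fun i => 4 + chi (XV.pe π 0) i)
  have a1 : V.valuation (mo u v e) = c₁ := by
    rw [hc₁m e hTe.1, hej, pow_zero, mul_one]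
  have a2 : V.valuation (mo u v e') = c₂ := by
    rw [hc₂m e' hTe'.1, he'j, pow_zero, mul_one]
  have a3 : V.valuation (pk u v (XV.pe π 0)) * c₁ = c₂ * V.valuation (sx P) := by
    have hm : Mon (fun i => 4 + chi (XV.pe π 0) i) (e + XV.ind (XV.pe π 0)) :=
      mon_add hTe.1 (mon_ind _)
    have h1 := hc₂m _ hm
    rw [mo_add, mo_ind, map_mul, a1, Pi.add_apply, hej] at h1
    have h2 : XV.ind (XV.pe π 0) (XV.pe π 0) = 1 := by simp [XV.ind]
    rw [h2, zero_add, pow_one] at h1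
    rw [mul_comm]
    exact h1
  -- the monomial `e₀`
  obtain ⟨E, hE⟩ : ∃ E : Fin 10 → ℕ, (fun κ => E (XV.pe π κ)) = e₀ := by
    refine ⟨fun κ => e₀ ((XV.peE π).symm κ), ?_⟩
    funext κ
    show e₀ ((XV.peE π).symm (XV.peE π κ)) = e₀ κ
    rw [Equiv.symm_apply_apply]
  have hEj : E (XV.pe π 0) = 0 := by
    have := congrFun hE 0
    rw [he00] at this
    exact this
  have hEm : Mon d E := by
    rw [p4 d E, hE, hdπ]
    exact he₀
  have hEv : V.valuation (mP P e₀) = V.valuation (mo u v E) := by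
    have h3 := p3 E
    rw [hE] at h3
    rcases h3 with h | h
    · rw [h]
    · rw [h, Valuation.map_neg]
  obtain ⟨c₄, hc₄, hc₄m⟩ := hval (n • (fun _ => 4) + d)
  have b1 : c₁ ^ n * V.valuation (mo u v E) = c₄ := by
    have h1 := hc₄m _ (mon_add (mon_smul hTe.1 n) hEm)
    rw [mo_add, mo_smul, map_mul, map_pow, a1, Pi.add_apply, Pi.smul_apply, hej, hEj, smul_zero,
      add_zero, pow_zero, mul_one] at h1
    exact h1
  have b2 : c₂ ^ (2 * n) = c₄ := by
    have hm : Mon (n • (fun _ => 4) + d) ((2 * n) • e') := by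
      have h1 := mon_smul hTe'.1 (2 * n)
      have h2 : (2 * n) • (fun i => 4 + chi (XV.pe π 0) i) = n • (fun _ => 4) + d := by
        funext i
        rw [hd]
        simp only [Pi.smul_apply, Pi.add_apply, smul_eq_mul]
        ring
      rw [h2] at h1
      exact h1
    have h1 := hc₄m _ hm
    rw [mo_smul, map_pow, a2, Pi.smul_apply, he'j, smul_zero, pow_zero, mul_one] at h1
    exact h1
  -- the value of `z`
  obtain ⟨i, hir, f, hf, g, hg, hzeq⟩ := hZ z hz hz0
  have hgV : g ∈ V := adjoin_le V hKV hsx hsy hg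
  have h5 : V.valuation (Polynomial.aeval (sy P) f) = 1 := val_gen V hKV hsy g2 hf
  have h6 : V.valuation (Polynomial.aeval (sy P) f + sx P * g) = 1 := by
    have h7 : V.valuation (sx P * g) < V.valuation (Polynomial.aeval (sy P) f) := by
      rw [h5, map_mul]
      exact mul_lt_one_of_lt_of_le hxlt ((V.valuation_le_one_iff g).2 hgV)
    rw [Valuation.map_add_eq_of_lt_left _ h7, h5]
  have hzv : V.valuation z = V.valuation (mo u v E) * V.valuation (sx P) ^ i := by
    rw [hzeq, map_mul, map_mul, h6, mul_one, hEv, map_pow]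
  have hE0 : V.valuation (mo u v E) ≠ 0 := by
    rw [ne_eq, map_eq_zero]
    exact mo_ne huv E
  rw [← V.valuation_le_one_iff]
  rw [map_div₀, map_mul, map_pow, map_pow, map_div₀, map_div₀, map_mul, map_pow, a1, a2, hzv, a3]
  have h8 : (c₂ ^ 2 / c₁) ^ n = V.valuation (mo u v E) := by
    rw [div_pow, ← pow_mul, b2, ← b1, mul_comm, mul_div_assoc, div_self (pow_ne_zero _ hc₁),
      mul_one]
  have h9 : c₂ * V.valuation (sx P) / c₂ = V.valuation (sx P) := by
    rw [mul_comm, mul_div_assoc, div_self hc₂, mul_one]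
  rw [h8, h9, mul_div_mul_left _ _ hE0]
  obtain ⟨s, rfl⟩ := Nat.exists_eq_add_of_lt hir
  have h10 : V.valuation (sx P) ^ (i + s + 1) / V.valuation (sx P) ^ i =
      V.valuation (sx P) ^ (s + 1) := by
    rw [add_assoc, pow_add, mul_comm, mul_div_assoc, div_self (pow_ne_zero _ hvx0), mul_one]
  rw [h10]
  exact pow_le_one₀ zero_le hxlt.le

end Pool.Agent.SFS
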