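import Pool.Agent.SFS.PLB
import Pool.Agent.SFS.LOC
import Pool.Agent.SFS.TNF
import Pool.Agent.SFS.NFX
import Pool.Agent.SFS.TPC
import Pool.Agent.SFS.ONC
import Pool.Agent.SFS.TOP
import Pool.Agent.SFS.CTR
import Pool.Agent.SFS.CRV
import Pool.Agent.SFS.GEP
import Pool.Agent.SFS.TRD
import Pool.Agent.SFS.TD3
import Pool.Agent.SFS.UVX
import Pool.Agent.SFS.IND
import Pool.Agent.SFS.ZE1
import Pool.Agent.SFS.ZED
import Pool.Agent.SFS.LOW
import Pool.Agent.SFS.VCR
import Pool.Agent.SFS.INT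
import Pool.Agent.SFS.NTE
import Pool.Agent.SFS.NFD
import Pool.Agent.SFS.NFB
import Pool.Agent.SFS.UVG
import Pool.Agent.SFS.FIN
import Pool.Agent.SFS.DEG
import Pool.Agent.SFS.STP
import Pool.Agent.SFS.DST
import Pool.Agent.SFS.DUP
import Pool.Agent.SFS.NOE
import Pool.Agent.SFS.TR1
import Pool.Agent.SFS.DGU
import Pool.Agent.SFS.TRP
import Pool.Agent.SFS.STD
import Pool.Agent.SFS.SCA
import Pool.Agent.SFS.FVP
import Pool.Agent.SFS.CHS
import Pool.Agent.SFS.GNS
import Pool.Agent.SFR.AllNT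
import Pool.Agent.XV.TRE
import Pool.Agent.XV.SYM
import Pool.Agent.XV.COV
import Pool.Agent.XV.CHV
import Pool.Agent.XV.CHR
import Pool.Agent.XV.HOM
import Pool.Agent.XV.BIN
import Pool.Agent.XV.TRI
import Pool.Agent.XV.FAN

/-!
# The moduli space of five points: assembly
-/

set_option autoImplicit false

noncomputable section

namespace Pool.Agent.SFS

theorem a_plb : Stmt_PLB := plb_proof
theorem a_loc : Stmt_LOC := loc_proof
theorem a_tnf : Stmt_TNF := tnf_proof a_plb XV.tre_proof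
theorem a_nfx : Stmt_NFX := nfx_proof
theorem a_tpc : Stmt_TPC := tpc_proof a_plb a_loc a_nfx
theorem a_onc : Stmt_ONC := onc_proof a_plb a_tpc
theorem a_top : SFB.Stmt_TOP := top_proof a_tnf a_tpc
theorem a_ctr : SFB.Stmt_CTR := ctr_proof a_plb a_loc a_tnf a_tpc a_onc
theorem a_crv : SFB.Stmt_CRV := crv_proof a_plb a_loc a_tnf a_tpc a_onc
theorem a_gep : Stmt_GEP := gep_proof a_plb a_loc a_tnf a_tpc a_onc a_crv
theorem a_trd : Stmt_TRD := trd_proof
theorem a_td3 : Stmt_TD3 := td3_proof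
theorem a_uvx : Stmt_UVX := uvx_proof a_plb a_loc
theorem a_ind : Stmt_IND := ind_proof a_trd a_uvx
theorem a_ze1 : Stmt_ZE1 := ze1_proof
theorem a_zed : SFB.Stmt_ZED := zed_proof a_plb a_loc a_nfx a_tpc a_top a_gep a_ind a_ze1
theorem a_low : Stmt_LOW := low_proof a_loc a_nfx
theorem a_vcr : Stmt_VCR := vcr_proof
theorem a_int : Stmt_INT := int_proof a_vcr a_top a_nfx
theorem a_nte : Stmt_NTE := nte_proof SFR.nt
theorem a_nfd : Stmt_NFD := nfd_proof
theorem a_nfb : Stmt_NFB := nfb_proof a_nfd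
theorem a_uvg : Stmt_UVG := uvg_proof a_plb a_nfx a_uvx a_nfb
theorem a_fin : Stmt_FIN := fin_proof a_uvg a_int
theorem a_deg : SFB.Stmt_DEG := deg_proof a_plb a_ind a_low a_int a_nte a_fin
theorem a_stp : Stmt_STP := stp_proof
theorem a_dst : Stmt_DST := dst_proof a_plb a_stp
theorem a_dup : Stmt_DUP := dup_proof a_nfd a_dst
theorem a_noe : Stmt_NOE := noe_proof
theorem a_tr1 : Stmt_TR1 := tr1_proof a_noe a_td3 a_uvg a_trd a_vcr
theorem a_dgu : Stmt_DGU := dgu_proof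
theorem a_trp : SFB.Stmt_TRP := trp_proof a_tr1 a_uvg a_dup a_dgu
theorem a_std : Stmt_STD := std_proof
theorem a_sca : Stmt_SCA := sca_proof
theorem a_fvp : Stmt_FVP := fvp_proof
theorem a_chs : Stmt_CHS :=
  chs_proof XV.sym_proof
    (XV.cov_proof XV.sym_proof XV.hom_proof (XV.chv_proof XV.bin_proof) XV.tre_proof XV.fan_proof)
    (XV.chv_proof XV.bin_proof) (XV.chr_proof XV.bin_proof XV.tri_proof)
theorem a_gns : SFB.Stmt_GNS := gns_proof a_plb a_loc a_chs a_fvp a_std a_sca a_trd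

end Pool.Agent.SFS
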