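import Pool.Agent.SFB.Stmts

/-!
# The moduli space of five points on the line: definitions and basic lemmas

Edges: `0 = 01`, `1 = 02`, `2 = 03`, `3 = 04`, `4 = 12`, `5 = 13`, `6 = 14`, `7 = 23`, `8 = 24`,
`9 = 34`.
-/

set_option autoImplicit false

noncomputable section

namespace Pool.Agent.SFS

open scoped Classical
open Pool.Agent.SFB

/-! ## Abstract brackets -/

section abstract

variable {Ω : Type} [Field Ω]

/-- The Plücker relations. -/
structure Plk (P : Fin 10 → Ω) : Prop where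
  r4 : P 0 * P 7 - P 1 * P 5 + P 2 * P 4 = 0
  r3 : P 0 * P 8 - P 1 * P 6 + P 3 * P 4 = 0
  r2 : P 0 * P 9 - P 2 * P 6 + P 3 * P 5 = 0
  r1 : P 1 * P 9 - P 2 * P 8 + P 3 * P 7 = 0
  r0 : P 4 * P 9 - P 5 * P 8 + P 6 * P 7 = 0

/-- The local equation of the curve `01` (in the chart `(01) 4 (23)`). -/
def sx (P : Fin 10 → Ω) : Ω := P 0 * P 9 / (P 3 * P 5)

/-- The local equation of the curve `23` (in the chart `(01) 4 (23)`). -/
def sy (P : Fin 10 → Ω) : Ω := P 7 * P 3 / (P 1 * P 9)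

/-- The monomial in the brackets `P`. -/
def mP (P : Fin 10 → Ω) (e : Fin 10 → ℕ) : Ω := ∏ k, P k ^ e k

/-- The span of the monomials with vertex degrees `d`. -/
def SP (k : Type) [Field k] [Algebra k Ω] (P : Fin 10 → Ω) (d : Fin 5 → ℕ) : Submodule k Ω :=
  Submodule.span k {f | ∃ e, Mon d e ∧ f = mP P e}

/-- `V` is centred on the chart `(01) 4 (23)`. -/
structure Chart (V : ValuationSubring Ω) (P : Fin 10 → Ω) : Prop where
  x : sx P ∈ V
  y : sy P ∈ V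
  ux : (1 + sx P)⁻¹ ∈ V
  uy : (1 + sy P)⁻¹ ∈ V
  uxy : (1 - sx P * sy P)⁻¹ ∈ V

/-- The brackets of the permuted points. -/
def bk (u v : Ω) (π : Equiv.Perm (Fin 5)) (k : Fin 10) : Ω :=
  pa u v (π (XV.eS k)) * pb (π (XV.eT k)) - pa u v (π (XV.eT k)) * pb (π (XV.eS k))

theorem bk_one (u v : Ω) : bk u v 1 = pk u v := rfl

theorem mP_pk (u v : Ω) (e : Fin 10 → ℕ) : mP (pk u v) e = mo u v e := rfl

theorem SP_pk (k : Type) [Field k] [Algebra k Ω] (u v : Ω) (d : Fin 5 → ℕ) :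
    SP k (pk u v) d = Sec u v k d := rfl

theorem mP_add (P : Fin 10 → Ω) (e e' : Fin 10 → ℕ) : mP P (e + e') = mP P e * mP P e' := by
  unfold mP
  rw [← Finset.prod_mul_distrib]
  exact Finset.prod_congr rfl fun k _ => by rw [Pi.add_apply, pow_add]

theorem mP_ne {P : Fin 10 → Ω} (h : ∀ k, P k ≠ 0) (e : Fin 10 → ℕ) : mP P e ≠ 0 :=
  Finset.prod_ne_zero_iff.2 fun k _ => pow_ne_zero _ (h k)

theorem mP_zero (P : Fin 10 → Ω) : mP P 0 = 1 := by simp [mP]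

end abstract

/-! ## Multigraphs -/

theorem mdeg_add (e e' : Fin 10 → ℕ) (i : Fin 5) :
    XV.mdeg (e + e') i = XV.mdeg e i + XV.mdeg e' i := by
  unfold XV.mdeg
  rw [← Finset.sum_add_distrib]
  refine Finset.sum_congr rfl fun k _ => ?_
  split_ifs <;> simp

theorem mon_add {d d' : Fin 5 → ℕ} {e e' : Fin 10 → ℕ} (h : Mon d e) (h' : Mon d' e') :
    Mon (d + d') (e + e') := fun i => by
  rw [mdeg_add, h i, h' i, Pi.add_apply]

theorem mon_zero : Mon 0 0 := fun i => by simp [XV.mdeg]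

/-- The degrees of a multigraph. -/
theorem mdeg_eq (e : Fin 10 → ℕ) :
    XV.mdeg e 0 = e 0 + e 1 + e 2 + e 3 ∧ XV.mdeg e 1 = e 0 + e 4 + e 5 + e 6 ∧
    XV.mdeg e 2 = e 1 + e 4 + e 7 + e 8 ∧ XV.mdeg e 3 = e 2 + e 5 + e 7 + e 9 ∧
    XV.mdeg e 4 = e 3 + e 6 + e 8 + e 9 := by
  refine ⟨?_, ?_, ?_, ?_, ?_⟩ <;>
    simp [XV.mdeg, Fin.sum_univ_succ, XV.eS, XV.eT] <;> ring

/-- The edge `k` as a multigraph has the degrees `chi k`. -/
theorem mon_ind (k : Fin 10) : Mon (chi k) (XV.ind k) := by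
  intro i
  unfold XV.mdeg XV.ind chi
  simp only [← ite_and]
  rw [Finset.sum_eq_single k]
  · simp
  · intro b _ hb
    simp [hb]
  · simp

theorem mon_iff (d : Fin 5 → ℕ) (e : Fin 10 → ℕ) : Mon d e ↔
    e 0 + e 1 + e 2 + e 3 = d 0 ∧ e 0 + e 4 + e 5 + e 6 = d 1 ∧ e 1 + e 4 + e 7 + e 8 = d 2 ∧
    e 2 + e 5 + e 7 + e 9 = d 3 ∧ e 3 + e 6 + e 8 + e 9 = d 4 := by
  obtain ⟨h0, h1, h2, h3, h4⟩ := mdeg_eq e
  unfold Mon
  rw [Fin.forall_fin_succ, Fin.forall_fin_succ, Fin.forall_fin_succ, Fin.forall_fin_succ,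
    Fin.forall_fin_succ]
  simp only [IsEmpty.forall_iff, and_true]
  show XV.mdeg e 0 = d 0 ∧ XV.mdeg e 1 = d 1 ∧ XV.mdeg e 2 = d 2 ∧ XV.mdeg e 3 = d 3 ∧
    XV.mdeg e 4 = d 4 ↔ _
  rw [h0, h1, h2, h3, h4]

theorem nef_iff (d : Fin 5 → ℕ) : Nef d ↔
    Even (d 0 + d 1 + d 2 + d 3 + d 4) ∧ d 0 + d 1 ≤ d 2 + d 3 + d 4 ∧ d 0 + d 2 ≤ d 1 + d 3 + d 4 ∧
    d 0 + d 3 ≤ d 1 + d 2 + d 4 ∧ d 0 + d 4 ≤ d 1 + d 2 + d 3 ∧ d 1 + d 2 ≤ d 0 + d 3 + d 4 ∧
    d 1 + d 3 ≤ d 0 + d 2 + d 4 ∧ d 1 + d 4 ≤ d 0 + d 2 + d 3 ∧ d 2 + d 3 ≤ d 0 + d 1 + d 4 ∧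
    d 2 + d 4 ≤ d 0 + d 1 + d 3 ∧ d 3 + d 4 ≤ d 0 + d 1 + d 2 := by
  have hs : ∑ i, d i = d 0 + d 1 + d 2 + d 3 + d 4 := by
    simp [Fin.sum_univ_succ]; ring_nf
  unfold Nef
  rw [hs]
  refine and_congr_right fun _ => ?_
  constructor
  · intro h
    have h0 := h 0; have h1 := h 1; have h2 := h 2; have h3 := h 3; have h4 := h 4
    have h5 := h 5; have h6 := h 6; have h7 := h 7; have h8 := h 8; have h9 := h 9
    simp [XV.eS, XV.eT] at h0 h1 h2 h3 h4 h5 h6 h7 h8 h9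
    refine ⟨?_, ?_, ?_, ?_, ?_, ?_, ?_, ?_, ?_, ?_⟩ <;> omega
  · rintro ⟨h0, h1, h2, h3, h4, h5, h6, h7, h8, h9⟩ k
    fin_cases k <;> simp [XV.eS, XV.eT] <;> omega

theorem mon_le {d : Fin 5 → ℕ} {e : Fin 10 → ℕ} (h : Mon d e) (k : Fin 10) :
    e k ≤ d (XV.eS k) := by
  rw [← h (XV.eS k)]
  exact XV.le_mdeg e k

theorem mon_finite (d : Fin 5 → ℕ) : {e | Mon d e}.Finite := by
  refine (Set.Finite.pi (t := fun k : Fin 10 => Set.Iic (d (XV.eS k)))
    (fun k => Set.finite_Iic _)).subset ?_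
  intro e he
  rw [Set.mem_pi]
  exact fun k _ => mon_le he k

theorem mem_of_val_le {Ω : Type} [Field Ω] (V : ValuationSubring Ω) {f g : Ω} (hg : g ≠ 0)
    (h : V.valuation f ≤ V.valuation g) : f / g ∈ V := by
  rw [← V.valuation_le_one_iff, map_div₀]
  exact div_le_one_of_le₀ h zero_le'

theorem exists_top {Ω : Type} [Field Ω] {u v : Ω} (h : ∀ k, pk u v k ≠ 0) (V : ValuationSubring Ω)
    {d : Fin 5 → ℕ} (hd : ∃ e, Mon d e) : ∃ e, Top u v V d e := by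
  obtain ⟨e, he, hm⟩ := Set.exists_max_image {e | Mon d e} (fun e => V.valuation (mo u v e))
    (mon_finite d) hd
  exact ⟨e, he, fun e' he' => mem_of_val_le V (mP_ne h e) (hm e' he')⟩

/-! ## Sections -/

section sec

variable (k : Type) {Ω : Type} [Field k] [Field Ω] [Algebra k Ω]

theorem mP_mem (P : Fin 10 → Ω) {d : Fin 5 → ℕ} {e : Fin 10 → ℕ} (h : Mon d e) :
    mP P e ∈ SP k P d := Submodule.subset_span ⟨e, h, rfl⟩

theorem mo_mem (u v : Ω) {d : Fin 5 → ℕ} {e : Fin 10 → ℕ} (h : Mon d e) :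
    mo u v e ∈ Sec u v k d := Submodule.subset_span ⟨e, h, rfl⟩

instance SP_fd (P : Fin 10 → Ω) (d : Fin 5 → ℕ) : FiniteDimensional k (SP k P d) := by
  have h : {f | ∃ e, Mon d e ∧ f = mP P e} = (fun e => mP P e) '' {e | Mon d e} := by
    ext f
    exact ⟨fun ⟨e, h, h'⟩ => ⟨e, h, h'.symm⟩, fun ⟨e, h, h'⟩ => ⟨e, h, h'.symm⟩⟩
  unfold SP
  rw [h]
  exact FiniteDimensional.span_of_finite k ((mon_finite d).image _)

instance Sec_fd (u v : Ω) (d : Fin 5 → ℕ) : FiniteDimensional k (Sec u v k d) :=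
  SP_fd k (pk u v) d

variable {k}

theorem SP_mul {P : Fin 10 → Ω} {d d' : Fin 5 → ℕ} {f g : Ω} (hf : f ∈ SP k P d)
    (hg : g ∈ SP k P d') : f * g ∈ SP k P (d + d') := by
  unfold SP at hf
  induction hf using Submodule.span_induction with
  | mem f hf =>
    obtain ⟨e, he, rfl⟩ := hf
    unfold SP at hg
    induction hg using Submodule.span_induction with
    | mem g hg =>
      obtain ⟨e', he', rfl⟩ := hg
      rw [← mP_add]
      exact mP_mem k P (mon_add he he')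
    | zero => rw [mul_zero]; exact zero_mem _
    | add x y _ _ hx hy => rw [mul_add]; exact add_mem hx hy
    | smul a x _ hx => rw [mul_smul_comm]; exact Submodule.smul_mem _ _ hx
  | zero => rw [zero_mul]; exact zero_mem _
  | add x y _ _ hx hy => rw [add_mul]; exact add_mem hx hy
  | smul a x _ hx => rw [smul_mul_assoc]; exact Submodule.smul_mem _ _ hx

theorem Sec_mul {u v : Ω} {d d' : Fin 5 → ℕ} {f g : Ω} (hf : f ∈ Sec u v k d)
    (hg : g ∈ Sec u v k d') : f * g ∈ Sec u v k (d + d') := SP_mul hf hg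

theorem one_mem_Sec (u v : Ω) : (1 : Ω) ∈ Sec u v k 0 := by
  have h := mo_mem k u v mon_zero
  have h1 : mo u v 0 = 1 := mP_zero (pk u v)
  rwa [h1] at h

theorem ne_alg {u v : Ω} (h : AlgebraicIndependent k ![u, v]) :
    (∀ a : k, u ≠ algebraMap k Ω a) ∧ (∀ a : k, v ≠ algebraMap k Ω a) ∧ u ≠ v := by
  have hu := h.transcendental 0
  have hv := h.transcendental 1
  have huv := h.injective
  refine ⟨fun a ha => hu ?_, fun a ha => hv ?_, fun huv' => ?_⟩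
  · show IsAlgebraic k u
    rw [ha]; exact isAlgebraic_algebraMap a
  · show IsAlgebraic k v
    rw [ha]; exact isAlgebraic_algebraMap a
  · have := huv (a₁ := 0) (a₂ := 1) (by simpa using huv')
    exact absurd this (by decide)

theorem pk_ne {u v : Ω} (h : AlgebraicIndependent k ![u, v]) (κ : Fin 10) : pk u v κ ≠ 0 := by
  obtain ⟨hu, hv, huv⟩ := ne_alg h
  have u0 := hu 0
  have u1 := hu 1
  have v0 := hv 0
  have v1 := hv 1
  simp only [map_zero, map_one] at u0 u1 v0 v1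
  have a1 : (1 : Ω) - u ≠ 0 := fun h => u1 (sub_eq_zero.1 h).symm
  have a2 : (1 : Ω) - v ≠ 0 := fun h => v1 (sub_eq_zero.1 h).symm
  have a3 : u - v ≠ 0 := fun h => huv (sub_eq_zero.1 h)
  fin_cases κ <;> simp [pk, pa, pb, XV.eS, XV.eT, u0, v0, a1, a2, a3]

theorem mo_ne {u v : Ω} (h : AlgebraicIndependent k ![u, v]) (e : Fin 10 → ℕ) : mo u v e ≠ 0 :=
  mP_ne (pk_ne h) e

theorem mo_mem_UV (u v : Ω) (e : Fin 10 → ℕ) : mo u v e ∈ UV u v k := by
  have hu : u ∈ UV u v k := IntermediateField.mem_adjoin_pair_left k u v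
  have hv : v ∈ UV u v k := IntermediateField.mem_adjoin_pair_right k u v
  have ha : ∀ i, pa u v i ∈ UV u v k := fun i => by
    fin_cases i
    · exact zero_mem _
    · exact one_mem _
    · exact one_mem _
    · exact hu
    · exact hv
  have hb : ∀ i, (pb i : Ω) ∈ UV u v k := fun i => by
    fin_cases i
    · exact one_mem _
    · exact one_mem _
    · exact zero_mem _
    · exact one_mem _
    · exact one_mem _
  refine prod_mem fun κ _ => pow_mem ?_ _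
  exact sub_mem (mul_mem (ha _) (hb _)) (mul_mem (ha _) (hb _))

theorem Sec_le_UV {u v : Ω} {d : Fin 5 → ℕ} {f : Ω} (hf : f ∈ Sec u v k d) : f ∈ UV u v k := by
  unfold Sec at hf
  induction hf using Submodule.span_induction with
  | mem f hf =>
    obtain ⟨e, he, rfl⟩ := hf
    exact mo_mem_UV u v e
  | zero => exact zero_mem _
  | add x y _ _ hx hy => exact add_mem hx hy
  | smul a x _ hx => exact (UV u v k).smul_mem hx

end sec

end Pool.Agent.SFS
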