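import Pool.Agent.SFS.Stmts

/-!
# SFS, module INT: sections are integral over triples without common zero
-/

set_option autoImplicit false

noncomputable section

namespace Pool.Agent.SFS

open scoped Classical
open Pool.Agent.SFB

namespace INT_

theorem ex_mon (hNFX : Stmt_NFX) {d : Fin 5 → ℕ} (hd : Nef d) : ∃ e, Mon d e := by
  have h := (nef_iff d).1 hd
  obtain ⟨h0, h1, h2, h3, h4, h5, h6, h7, h8, h9, h10⟩ := h
  obtain ⟨e, he, -, -⟩ := hNFX d hd.1 h1 (by omega) (by omega)
  exact ⟨e, he⟩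

theorem nef_smul {d : Fin 5 → ℕ} (hd : Nef d) (n : ℕ) : Nef (n • d) := by
  refine ⟨?_, fun k => ?_⟩
  · have h : ∑ i, (n • d) i = n * ∑ i, d i := by
      rw [Finset.mul_sum]; rfl
    rw [h]
    exact hd.1.mul_left n
  · have h : ∑ i, (n • d) i = n * ∑ i, d i := by
      rw [Finset.mul_sum]; rfl
    rw [h]
    have h2 := Nat.mul_le_mul_left n (hd.2 k)
    show 2 * (n * d (XV.eS k) + n * d (XV.eT k)) ≤ _
    calc 2 * (n * d (XV.eS k) + n * d (XV.eT k)) = n * (2 * (d (XV.eS k) + d (XV.eT k))) := by ring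
      _ ≤ _ := h2

variable {Ω : Type} [Field Ω] {u v : Ω}

theorem mo_zero : mo u v 0 = 1 := mP_zero (pk u v)

theorem mo_smul (n : ℕ) (e : Fin 10 → ℕ) : mo u v (n • e) = mo u v e ^ n := by
  unfold mo
  rw [← Finset.prod_pow]
  refine Finset.prod_congr rfl fun k _ => ?_
  rw [← pow_mul, mul_comm]
  rfl

theorem top_zero (V : ValuationSubring Ω) : Top u v V 0 0 := by
  refine ⟨mon_zero, fun e' he' => ?_⟩
  have h : e' = 0 := by
    funext k
    have := mon_le he' k
    simpa using this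
  rw [h, mo_zero, div_one]
  exact one_mem _

theorem top_smul (hTOP : SFB.Stmt_TOP) (hpk : ∀ k, pk u v k ≠ 0) (V : ValuationSubring Ω)
    {d : Fin 5 → ℕ} {e : Fin 10 → ℕ}
    (hd : Nef d) (h : Top u v V d e) (n : ℕ) : Top u v V (n • d) (n • e) := by
  induction n with
  | zero => rw [zero_smul, zero_smul]; exact top_zero V
  | succ n ih =>
    rw [succ_nsmul, succ_nsmul]
    exact hTOP Ω u v hpk V _ _ _ _ (nef_smul hd n) hd ih h

end INT_

open INT_ in
theorem int_proof (hVCR : Stmt_VCR) (hTOP : SFB.Stmt_TOP) (hNFX : Stmt_NFX) : Stmt_INT := by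
  intro k Ω _ _ _ u v huv d hd σ hF hσ n f hf
  have hpk := pk_ne huv
  refine hVCR k Ω σ n f ?_
  intro V hV i hi
  obtain ⟨e, he⟩ := exists_top hpk V (ex_mon hNFX hd)
  obtain ⟨i', hi', h1⟩ := hF.nz V hV e he
  have h2 : mo u v e / σ i ∈ V := by
    have h3 := mul_mem h1 (hi i')
    have h4 : mo u v e / σ i' * (σ i' / σ i) = mo u v e / σ i := by
      rw [div_mul_div_cancel₀ hi']
    rwa [h4] at h3
  have h5 := top_smul hTOP hpk V hd he n
  have h6 : mo u v e ^ n ≠ 0 := pow_ne_zero _ (mo_ne huv e)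
  unfold Sec at hf
  induction hf using Submodule.span_induction with
  | mem f hf =>
    obtain ⟨e', he', rfl⟩ := hf
    have h7 := h5.2 e' he'
    rw [mo_smul] at h7
    have h8 := mul_mem h7 (pow_mem h2 n)
    have h9 : mo u v e' / mo u v e ^ n * (mo u v e / σ i) ^ n = mo u v e' / σ i ^ n := by
      rw [div_pow, div_mul_div_cancel₀ h6]
    rwa [h9] at h8
  | zero => rw [zero_div]; exact zero_mem _
  | add x y _ _ hx hy => rw [add_div]; exact add_mem hx hy
  | smul a x _ hx =>
    rw [Algebra.smul_def, mul_div_assoc]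
    exact mul_mem (hV a) hx

end Pool.Agent.SFS

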