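import Pool.Agent.SFS.Stmts

/-!
# PLB: the permuted brackets
-/

set_option autoImplicit false

noncomputable section

namespace Pool.Agent.SFS

open scoped Classical
open Pool.Agent.SFB

namespace PLB_

section

variable {Ω : Type} [Field Ω] (u v : Ω) (π : Equiv.Perm (Fin 5))

theorem plk : Plk (bk u v π) := by
  constructor <;> simp [bk, XV.eS, XV.eT] <;> ring

theorem bk_pm (k : Fin 10) :
    bk u v π k = pk u v (XV.pe π k) ∨ bk u v π k = -pk u v (XV.pe π k) := by
  have h : π (XV.eS k) ≠ π (XV.eT k) := fun h' => XV.eS_ne_eT k (π.injective h')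
  rcases XV.ed_spec _ _ h with ⟨h1, h2⟩ | ⟨h1, h2⟩
  · left
    unfold bk pk XV.pe
    rw [h1, h2]
  · right
    unfold bk pk XV.pe
    rw [h1, h2]
    ring

/-- Up to sign. -/
def PM (a b : Ω) : Prop := a = b ∨ a = -b

theorem pm_mul {a b c d : Ω} (h : PM a b) (h' : PM c d) : PM (a * c) (b * d) := by
  rcases h with rfl | rfl <;> rcases h' with rfl | rfl
  · left; rfl
  · right; ring
  · right; ring
  · left; ring

theorem pm_pow {a b : Ω} (h : PM a b) (n : ℕ) : PM (a ^ n) (b ^ n) := by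
  induction n with
  | zero => left; simp
  | succ n ih => rw [pow_succ, pow_succ]; exact pm_mul ih h

theorem pm_prod {ι : Type} (s : Finset ι) (f g : ι → Ω) (h : ∀ i ∈ s, PM (f i) (g i)) :
    PM (∏ i ∈ s, f i) (∏ i ∈ s, g i) := by
  induction s using Finset.induction_on with
  | empty => left; simp
  | insert i s hi ih =>
    rw [Finset.prod_insert hi, Finset.prod_insert hi]
    exact pm_mul (h i (Finset.mem_insert_self _ _))
      (ih fun j hj => h j (Finset.mem_insert_of_mem hj))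

theorem mP_pm (e : Fin 10 → ℕ) : PM (mP (bk u v π) (fun k => e (XV.pe π k))) (mo u v e) := by
  have h : mo u v e = ∏ k, pk u v (XV.pe π k) ^ e (XV.pe π k) := by
    unfold mo
    exact (Equiv.prod_comp (XV.peE π) fun k => pk u v k ^ e k).symm
  rw [h]
  unfold mP
  exact pm_prod _ _ _ fun k _ => pm_pow (bk_pm u v π k) _

end

theorem mdeg_comp (π : Equiv.Perm (Fin 5)) (e : Fin 10 → ℕ) (i : Fin 5) :
    XV.mdeg (fun k => e (XV.pe π k)) i = XV.mdeg e (π i) := by
  have h := XV.mdeg_pe π⁻¹ e i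
  rwa [inv_inv] at h

theorem mon_comp (π : Equiv.Perm (Fin 5)) (d : Fin 5 → ℕ) (e : Fin 10 → ℕ) :
    Mon d e ↔ Mon (fun i => d (π i)) (fun k => e (XV.pe π k)) := by
  unfold Mon
  constructor
  · intro h i
    rw [mdeg_comp, h]
  · intro h i
    have := h (π⁻¹ i)
    rw [mdeg_comp] at this
    simpa using this

theorem deg_pe (π : Equiv.Perm (Fin 5)) (d : Fin 5 → ℕ) (k : Fin 10) :
    d (XV.eS (XV.pe π k)) + d (XV.eT (XV.pe π k)) = d (π (XV.eS k)) + d (π (XV.eT k)) := by
  have h : π (XV.eS k) ≠ π (XV.eT k) := fun h' => XV.eS_ne_eT k (π.injective h')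
  unfold XV.pe
  rcases XV.ed_spec _ _ h with ⟨h1, h2⟩ | ⟨h1, h2⟩
  · rw [h1, h2]
  · rw [h1, h2, add_comm]

theorem nef_comp (π : Equiv.Perm (Fin 5)) (d : Fin 5 → ℕ) : Nef d ↔ Nef (fun i => d (π i)) := by
  unfold Nef
  rw [Equiv.sum_comp π d]
  refine and_congr_right fun _ => ?_
  constructor
  · intro h k
    have := h (XV.pe π k)
    rwa [deg_pe] at this
  · intro h k
    have := h (XV.pe π⁻¹ k)
    have h2 := deg_pe π d (XV.pe π⁻¹ k)
    rw [← XV.pe_mul, mul_inv_cancel, XV.pe_one] at h2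
    simp only at this
    rwa [← h2] at this

theorem SP_eq {Ω : Type} [Field Ω] (u v : Ω) (π : Equiv.Perm (Fin 5)) (k : Type) [Field k]
    [Algebra k Ω] (d : Fin 5 → ℕ) : SP k (bk u v π) (fun i => d (π i)) = Sec u v k d := by
  apply le_antisymm
  · refine Submodule.span_le.2 ?_
    rintro f ⟨e, he, rfl⟩
    have h1 : e = fun κ => (fun κ => e (XV.pe π⁻¹ κ)) (XV.pe π κ) := by
      funext κ
      simp only
      rw [← XV.pe_mul, inv_mul_cancel, XV.pe_one]
    rw [h1] at he ⊢
    have h2 := (mon_comp π d (fun κ => e (XV.pe π⁻¹ κ))).2 he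
    have h3 := mo_mem k u v h2
    rcases mP_pm u v π (fun κ => e (XV.pe π⁻¹ κ)) with h | h
    · rw [h]; exact h3
    · rw [h]; exact neg_mem h3
  · refine Submodule.span_le.2 ?_
    rintro f ⟨e, he, rfl⟩
    have h2 := mP_mem k (bk u v π) ((mon_comp π d _).1 he)
    rcases mP_pm u v π e with h | h
    · rw [h] at h2; exact h2
    · rw [h] at h2
      have := neg_mem h2
      rwa [neg_neg] at this

end PLB_

open PLB_ in
theorem plb_proof : Stmt_PLB := by
  intro Ω _ u v π
  exact ⟨plk u v π, bk_pm u v π, mP_pm u v π, mon_comp π, nef_comp π,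
    fun k _ _ d => SP_eq u v π k d⟩

end Pool.Agent.SFS
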