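import Pool.Agent.SFS.Basic

/-!
# The moduli space of five points on the line: modules

The recipes are in `/team-store/MP_db3ab1_SFS.md`.
-/

set_option autoImplicit false

noncomputable section

namespace Pool.Agent.SFS

open scoped Classical
open Pool.Agent.SFB

/-! ## Charts -/

/-- PLB: the permuted brackets. -/
def Stmt_PLB : Prop :=
  ∀ (Ω : Type) [Field Ω] (u v : Ω) (π : Equiv.Perm (Fin 5)), Plk (bk u v π) ∧
    (∀ k, bk u v π k = pk u v (XV.pe π k) ∨ bk u v π k = -pk u v (XV.pe π k)) ∧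
    (∀ e : Fin 10 → ℕ, mP (bk u v π) (fun k => e (XV.pe π k)) = mo u v e ∨
      mP (bk u v π) (fun k => e (XV.pe π k)) = -mo u v e) ∧
    (∀ d e, Mon d e ↔ Mon (fun i => d (π i)) (fun k => e (XV.pe π k))) ∧
    (∀ d, Nef d ↔ Nef (fun i => d (π i))) ∧
    ∀ (k : Type) [Field k] [Algebra k Ω] (d : Fin 5 → ℕ),
      SP k (bk u v π) (fun i => d (π i)) = Sec u v k d

/-- LOC: monomials in local coordinates. -/
def Stmt_LOC : Prop :=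
  ∀ (Ω : Type) [Field Ω] (P : Fin 10 → Ω), Plk P → (∀ k, P k ≠ 0) → ∀ d : Fin 5 → ℕ,
    ∃ C : Ω, C ≠ 0 ∧ ∀ e, Mon d e → mP P e =
      C * sx P ^ e 0 * sy P ^ e 7 * (1 + sx P) ^ e 6 * (1 + sy P) ^ e 8 * (1 - sx P * sy P) ^ e 4

/-- TNF: the charts cover. -/
def Stmt_TNF : Prop :=
  ∀ (Ω : Type) [Field Ω] (u v : Ω), (∀ k, pk u v k ≠ 0) → ∀ V : ValuationSubring Ω,
    ∃ π : Equiv.Perm (Fin 5), Chart V (bk u v π)

/-- NFX: complete tripartite multigraphs. -/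
def Stmt_NFX : Prop :=
  ∀ d : Fin 5 → ℕ, Even (∑ i, d i) → d 0 + d 1 ≤ d 2 + d 3 + d 4 → d 2 + d 3 ≤ d 0 + d 1 + d 4 →
    d 4 ≤ d 0 + d 1 + d 2 + d 3 → ∃ e, Mon d e ∧ e 0 = 0 ∧ e 7 = 0

/-- TPC: maximal monomials in a chart. -/
def Stmt_TPC : Prop :=
  ∀ (Ω : Type) [Field Ω] (u v : Ω), (∀ k, pk u v k ≠ 0) → ∀ (V : ValuationSubring Ω)
    (π : Equiv.Perm (Fin 5)), Chart V (bk u v π) → ∀ d, Nef d → ∀ e,
    Top u v V d e ↔ Mon d e ∧ (e (XV.pe π 0) = 0 ∨ (sx (bk u v π))⁻¹ ∈ V) ∧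
      (e (XV.pe π 7) = 0 ∨ (sy (bk u v π))⁻¹ ∈ V)

/-- ONC: the two curves of a chart. -/
def Stmt_ONC : Prop :=
  ∀ (Ω : Type) [Field Ω] (u v : Ω), (∀ k, pk u v k ≠ 0) → ∀ (V : ValuationSubring Ω)
    (π : Equiv.Perm (Fin 5)), Chart V (bk u v π) → ∀ i,
    On u v V i ↔ (i = XV.pe π 0 ∧ (sx (bk u v π))⁻¹ ∉ V) ∨
      (i = XV.pe π 7 ∧ (sy (bk u v π))⁻¹ ∉ V)

/-- GEP: the generic points of the ten curves. -/
def Stmt_GEP : Prop :=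
  ∀ (k Ω : Type) [Field k] [IsAlgClosed k] [Field Ω] [Algebra k Ω] (u v : Ω),
    AlgebraicIndependent k ![u, v] → ∀ V : ValuationSubring Ω, Curve u v k V → ∀ j, On u v V j →
    ∀ π : Equiv.Perm (Fin 5), XV.pe π 0 = j →
      sx (bk u v π) ∈ V.nonunits ∧ (∀ a : k, sy (bk u v π) - algebraMap k Ω a ∉ V.nonunits) ∧
      Chart V (bk u v π)

/-! ## Independence -/

/-- TRD: exchange. -/
def Stmt_TRD : Prop :=
  ∀ (k Ω : Type) [Field k] [Field Ω] [Algebra k Ω] (u v a b : Ω), AlgebraicIndependent k ![u, v] →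
    IsAlgebraic (IntermediateField.adjoin k {a, b}) u →
    IsAlgebraic (IntermediateField.adjoin k {a, b}) v → AlgebraicIndependent k ![a, b]

/-- TD3: three functions are dependent. -/
def Stmt_TD3 : Prop :=
  ∀ (k Ω : Type) [Field k] [Field Ω] [Algebra k Ω] (u v a b c : Ω), a ∈ UV u v k →
    b ∈ UV u v k → c ∈ UV u v k → ¬ AlgebraicIndependent k ![a, b, c]

/-- UVX: the local coordinates generate the function field. -/
def Stmt_UVX : Prop :=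
  ∀ (k Ω : Type) [Field k] [Field Ω] [Algebra k Ω] (u v : Ω), (∀ κ, pk u v κ ≠ 0) →
    ∀ (π : Equiv.Perm (Fin 5)) (E : IntermediateField k Ω), sx (bk u v π) ∈ E →
    sy (bk u v π) ∈ E → u ∈ E ∧ v ∈ E

/-- IND: the local coordinates are independent. -/
def Stmt_IND : Prop :=
  ∀ (k Ω : Type) [Field k] [Field Ω] [Algebra k Ω] (u v : Ω), AlgebraicIndependent k ![u, v] →
    ∀ π : Equiv.Perm (Fin 5), AlgebraicIndependent k ![sx (bk u v π), sy (bk u v π)]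

/-- ZE1: sections with few zeros on the curve `01`. -/
def Stmt_ZE1 : Prop :=
  ∀ (k Ω : Type) [Field k] [Field Ω] [Algebra k Ω] (P : Fin 10 → Ω), Plk P → (∀ κ, P κ ≠ 0) →
    AlgebraicIndependent k ![sx P, sy P] → ∀ n r : ℕ, r ≤ n →
    ∃ (e₀ : Fin 10 → ℕ) (Z : Submodule k Ω), Mon ![6 * n, 6 * n, 4 * n, 4 * n, 4 * n] e₀ ∧
      e₀ 0 = 0 ∧ FiniteDimensional k Z ∧ r * (r + 1) ≤ 2 * Module.finrank k Z ∧
      (∀ z ∈ Z, z ∈ SP k P ![6 * n, 6 * n, 4 * n, 4 * n, 4 * n]) ∧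
      ∀ z ∈ Z, z ≠ 0 → ∃ i < r, ∃ f : Polynomial k, f ≠ 0 ∧
        ∃ g ∈ Algebra.adjoin k {sx P, sy P},
          z = mP P e₀ * sx P ^ i * (Polynomial.aeval (sy P) f + sx P * g)

/-- LOW: many independent sections. -/
def Stmt_LOW : Prop :=
  ∀ (k Ω : Type) [Field k] [Field Ω] [Algebra k Ω] (P : Fin 10 → Ω), Plk P → (∀ κ, P κ ≠ 0) →
    AlgebraicIndependent k ![sx P, sy P] → ∀ n : ℕ,
    10 * n ^ 2 ≤ Module.finrank k (SP k P fun _ => 4 * n)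

/-! ## Integrality and degrees -/

/-- VCR: the valuative criterion. -/
def Stmt_VCR : Prop :=
  ∀ (k Ω : Type) [Field k] [Field Ω] [Algebra k Ω] (σ : Fin 3 → Ω) (n : ℕ) (f : Ω),
    (∀ V : ValuationSubring Ω, KV k V → ∀ i, (∀ j, σ j / σ i ∈ V) → f / σ i ^ n ∈ V) →
    IntS k σ n 1 f

/-- INT: sections are integral over triples without common zero. -/
def Stmt_INT : Prop :=
  ∀ (k Ω : Type) [Field k] [Field Ω] [Algebra k Ω] (u v : Ω), AlgebraicIndependent k ![u, v] →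
    ∀ d : Fin 5 → ℕ, Nef d → ∀ σ : Fin 3 → Ω, Free u v k d σ → (∀ i, σ i ≠ 0) → ∀ n : ℕ,
    ∀ f ∈ Sec u v k (fun i => n * d i), IntS k σ n 1 f

/-- NTE: the norm trick in an intermediate field. -/
def Stmt_NTE : Prop :=
  ∀ (k Ω : Type) [Field k] [Infinite k] [Field Ω] [Algebra k Ω] (σ : Fin 3 → Ω), IsPl k σ →
    ∀ E : IntermediateField k Ω, (∀ i, σ i ∈ E) → (PF k σ).relfinrank E ≠ 0 →
    ∀ U : Submodule k Ω, FiniteDimensional k U → (∀ f ∈ U, f ∈ E) → ∀ n : ℕ,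
    (∀ f ∈ U, IntS k σ n 1 f) →
    Module.finrank k U ≤ (PF k σ).relfinrank E * (n + 2).choose 2

/-- FIN: the function field is finite over the plane. -/
def Stmt_FIN : Prop :=
  ∀ (k Ω : Type) [Field k] [Field Ω] [Algebra k Ω] (u v : Ω), AlgebraicIndependent k ![u, v] →
    ∀ d : Fin 5 → ℕ, Nef d → 4 * ∑ i, d i ^ 2 < (∑ i, d i) ^ 2 →
    ∀ σ : Fin 3 → Ω, Free u v k d σ → (∀ i, σ i ≠ 0) → (PF k σ).relfinrank (UV u v k) ≠ 0

/-! ## Nef classes -/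

/-- The conic classes. -/
def fF (i j : Fin 5) : ℕ := if j = i then 0 else 1

/-- The classes of lines. -/
def hH (i j : Fin 5) : ℕ := if j = i then 2 else 1

/-- NFD: decomposition of nef classes. -/
def Stmt_NFD : Prop :=
  ∀ d : Fin 5 → ℕ, Nef d → d = 0 ∨ ∃ d', Nef d' ∧ ∃ i, d = d' + fF i ∨ d = d' + hH i

/-- NFB: decomposition of big nef classes. -/
def Stmt_NFB : Prop :=
  ∀ d : Fin 5 → ℕ, Nef d → 4 * ∑ i, d i ^ 2 < (∑ i, d i) ^ 2 →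
    ∃ d', Nef d' ∧ ((∃ i, d = d' + hH i) ∨ ∃ i j, i ≠ j ∧ d = d' + fF i + fF j)

/-- UVG: the sections of a big nef class generate the function field. -/
def Stmt_UVG : Prop :=
  ∀ (k Ω : Type) [Field k] [Field Ω] [Algebra k Ω] (u v : Ω), (∀ κ, pk u v κ ≠ 0) →
    ∀ d : Fin 5 → ℕ, Nef d → 4 * ∑ i, d i ^ 2 < (∑ i, d i) ^ 2 → ∀ E : IntermediateField k Ω,
    (∀ e e', Mon d e → Mon d e' → mo u v e' / mo u v e ∈ E) → u ∈ E ∧ v ∈ E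

/-- STP: sections modulo the sections vanishing on the curve `01`. -/
def Stmt_STP : Prop :=
  ∀ (k Ω : Type) [Field k] [Field Ω] [Algebra k Ω] (P : Fin 10 → Ω), Plk P →
    ∀ d' d : Fin 5 → ℕ, d = d' + chi 0 → Even (∑ i, d i) → 2 * (d 0 + d 1) ≤ ∑ i, d i + 2 →
    2 * (d 2 + d 3) ≤ ∑ i, d i → 2 * (d 2 + d 4) ≤ ∑ i, d i → 2 * (d 3 + d 4) ≤ ∑ i, d i →
    Module.finrank k (SP k P d) + d 0 + d 1 ≤
      Module.finrank k (SP k P d') + (∑ i, d i) / 2 + 1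

/-- DST: sections modulo the sections vanishing on the curve `κ`. -/
def Stmt_DST : Prop :=
  ∀ (k Ω : Type) [Field k] [Field Ω] [Algebra k Ω] (u v : Ω) (κ : Fin 10) (d' d : Fin 5 → ℕ),
    d = d' + chi κ → Even (∑ i, d i) → 2 * (d (XV.eS κ) + d (XV.eT κ)) ≤ ∑ i, d i + 2 →
    (∀ l, XV.Disj κ l → 2 * (d (XV.eS l) + d (XV.eT l)) ≤ ∑ i, d i) →
    Module.finrank k (Sec u v k d) + d (XV.eS κ) + d (XV.eT κ) ≤
      Module.finrank k (Sec u v k d') + (∑ i, d i) / 2 + 1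

/-- DUP: upper bound for the number of sections. -/
def Stmt_DUP : Prop :=
  ∀ (k Ω : Type) [Field k] [Field Ω] [Algebra k Ω] (u v : Ω) (d : Fin 5 → ℕ), Nef d →
    8 * Module.finrank k (Sec u v k d) + 4 * ∑ i, d i ^ 2 ≤ (∑ i, d i) ^ 2 + 2 * ∑ i, d i + 8

/-! ## Coordinates of planes -/

/-- NOE: linear projections. -/
def Stmt_NOE : Prop :=
  ∀ (k Ω : Type) [Field k] [Infinite k] [Field Ω] [Algebra k Ω] (M : Submodule k Ω),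
    FiniteDimensional k M →
    (∀ f g h l : Ω, f ∈ M → g ∈ M → h ∈ M → l ∈ M →
      ¬ AlgebraicIndependent k ![f / l, g / l, h / l]) →
    ∃ σ : Fin 3 → Ω, (∀ i, σ i ∈ M) ∧
      ∀ V : ValuationSubring Ω, KV k V → ∀ f ∈ M, f ≠ 0 → ∃ i, σ i ≠ 0 ∧ f / σ i ∈ V

/-- TR1: triples without common zero. -/
def Stmt_TR1 : Prop :=
  ∀ (k Ω : Type) [Field k] [Infinite k] [Field Ω] [Algebra k Ω] (u v : Ω),
    AlgebraicIndependent k ![u, v] → ∀ d : Fin 5 → ℕ, Nef d →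
    4 * ∑ i, d i ^ 2 < (∑ i, d i) ^ 2 → ∃ σ : Fin 3 → Ω, Free u v k d σ ∧ IsPl k σ

/-- DGU: upper bound for degrees. -/
def Stmt_DGU : Prop :=
  ∀ (k Ω : Type) [Field k] [Field Ω] [Algebra k Ω] (σ : Fin 3 → Ω), IsPl k σ →
    ∀ S : ℕ → Submodule k Ω, (∀ n, FiniteDimensional k (S n)) → 1 ∈ S 0 → (∀ i, σ i ∈ S 1) →
    (∀ m n f g, f ∈ S m → g ∈ S n → f * g ∈ S (m + n)) → ∀ E : IntermediateField k Ω,
    E = IntermediateField.adjoin k {g | ∃ f ∈ S 1, g = f / σ 0} → ∀ c C : ℕ,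
    (∀ n, 2 * Module.finrank k (S n) ≤ c * n ^ 2 + C * n + C) → (PF k σ).relfinrank E ≤ c

/-! ## Generic solutions -/

/-- STD: normal form of five points. -/
def Stmt_STD : Prop :=
  ∀ (Ω : Type) [Field Ω] (B : Fin 10 → Ω), Plk B → (∀ k, B k ≠ 0) →
    ∃ (κ : Ω) (μ : Fin 5 → Ω), κ ≠ 0 ∧ (∀ i, μ i ≠ 0) ∧
      ∀ k, pk (-(B 2 * B 4) / (B 0 * B 7)) (-(B 3 * B 4) / (B 0 * B 8)) k =
        κ * μ (XV.eS k) * μ (XV.eT k) * B k

/-- SCA: scaling. -/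
def Stmt_SCA : Prop :=
  ∀ (Ω : Type) [Field Ω] (A B : Fin 10 → Ω) (κ : Ω) (μ : Fin 5 → Ω), κ ≠ 0 → (∀ i, μ i ≠ 0) →
    (∀ k, A k = κ * μ (XV.eS k) * μ (XV.eT k) * B k) → ∀ d : Fin 5 → ℕ,
    ∃ l : Ω, l ≠ 0 ∧ ∀ e, Mon d e → mP A e = l * mP B e

/-- FVP: five points with given local coordinates. -/
def Stmt_FVP : Prop :=
  ∀ (Ω : Type) [Field Ω] (x y : Ω), x ≠ 0 → y ≠ 0 → 1 + x ≠ 0 → 1 + y ≠ 0 → 1 - x * y ≠ 0 →
    ∃ u v : Ω, (∀ k, pk u v k ≠ 0) ∧ sx (pk u v) = x ∧ sy (pk u v) = y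

/-- CHS: solutions supported on `w = 0`, in a chart. -/
def Stmt_CHS : Prop :=
  ∀ (Ω : Type) [Field Ω] (s : XV.Pt → Ω), XV.IsSol s → (∀ c, 1 ≤ c.w → s c = 0) →
    (∃ c, s c ≠ 0) →
    ∃ (π : Equiv.Perm (Fin 5)) (z x y : Ω), z ≠ 0 ∧ 1 + x ≠ 0 ∧ 1 + y ≠ 0 ∧ 1 - x * y ≠ 0 ∧
      ∀ c : XV.Pt, c.w = 0 → XV.tws π s c =
        z * x ^ c.e 0 * y ^ c.e 7 * (1 + x) ^ c.e 6 * (1 + y) ^ c.e 8 * (1 - x * y) ^ c.e 4

end Pool.Agent.SFS
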